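import Pool.Agent.N276.SD.Stm

/-!
# SD/20: choice of the scale (helper401)
-/

set_option autoImplicit false

open Set Filter Topology

namespace Pool.Agent.N276.SD

theorem asym : StmAsym := by
  intro L q d A hL hq0 hq1 hd hA
  have hL1 : (1 : ℝ) < L := by exact_mod_cast (by omega : 1 < L)
  have hL0 : (0 : ℝ) < L := by linarith
  have hlL : 0 < Real.log L := Real.log_pos hL1
  have hlq : Real.log q < 0 := Real.log_neg hq0 hq1
  have hd1 : 0 < d + 1 := by linarith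
  have hD : 0 < (d + 1) * Real.log L := mul_pos hd1 hlL
  obtain ⟨κ, hκ⟩ : ∃ κ : ℝ, κ = -Real.log q / ((d + 1) * Real.log L) := ⟨_, rfl⟩
  have hκ0 : 0 < κ := by rw [hκ]; exact div_pos (by linarith) hD
  refine ⟨max (1 / 2 - κ / 2) (1 / (d + 1)), A * q⁻¹ * (2 + (d + 1) * (2 / κ)) + A, ?_, ?_⟩
  · apply max_lt
    · linarith
    · rw [div_lt_div_iff₀ hd1 two_pos]
      linarith
  intro t ht
  have ht1 : (1 : ℝ) ≤ t := by exact_mod_cast ht
  have ht0 : (0 : ℝ) < t := by linarith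
  have hlt : 0 ≤ Real.log t := Real.log_nonneg ht1
  obtain ⟨n, hn⟩ : ∃ n : ℕ, n = ⌊Real.log t / ((d + 1) * Real.log L)⌋₊ := ⟨_, rfl⟩
  have hn1 : (n : ℝ) ≤ Real.log t / ((d + 1) * Real.log L) := by
    rw [hn]; exact Nat.floor_le (by positivity)
  have hn2 : Real.log t / ((d + 1) * Real.log L) < n + 1 := by
    rw [hn]; exact Nat.lt_floor_add_one _
  rw [le_div_iff₀ hD] at hn1
  rw [div_lt_iff₀ hD] at hn2
  have hLn : (L : ℝ) ^ n = Real.exp (n * Real.log L) := by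
    rw [← Real.rpow_natCast, Real.rpow_def_of_pos hL0, mul_comm]
  have hLn1 : (L : ℝ) ^ n ≤ (t : ℝ) ^ (1 / (d + 1)) := by
    rw [hLn, Real.rpow_def_of_pos ht0]
    apply Real.exp_le_exp.2
    rw [mul_one_div, le_div_iff₀ hd1]
    linarith
  have hqn : q ^ n ≤ q⁻¹ * (t : ℝ) ^ (-κ) := by
    have h1 : q ^ (n + 1) ≤ (t : ℝ) ^ (-κ) := by
      rw [← Real.rpow_natCast, Real.rpow_def_of_pos hq0, Real.rpow_def_of_pos ht0]
      apply Real.exp_le_exp.2
      push_cast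
      have h2 : κ * ((d + 1) * Real.log L) = -Real.log q := by
        rw [hκ, div_mul_cancel₀ _ hD.ne']
      have h3 : κ * Real.log t ≤ κ * (((n : ℝ) + 1) * ((d + 1) * Real.log L)) :=
        mul_le_mul_of_nonneg_left hn2.le hκ0.le
      have h4 : κ * (((n : ℝ) + 1) * ((d + 1) * Real.log L)) =
          ((n : ℝ) + 1) * (κ * ((d + 1) * Real.log L)) := by ring
      rw [h4, h2] at h3
      linarith
    rw [pow_succ] at h1
    rw [inv_mul_eq_div, le_div_iff₀ hq0]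
    exact h1
  refine ⟨n, ?_, ?_⟩
  · rw [hLn, ← Real.exp_mul]
    calc Real.exp (n * Real.log L * (d + 1)) ≤ Real.exp (Real.log t) := by
          apply Real.exp_le_exp.2
          linarith
      _ = t := Real.exp_log ht0
  · have hlog : 1 + Real.log (1 + (t : ℝ) ^ (d + 1)) ≤
        (2 + (d + 1) * (2 / κ)) * (t : ℝ) ^ (κ / 2) := by
      have h1 : (1 : ℝ) ≤ (t : ℝ) ^ (d + 1) := Real.one_le_rpow ht1 hd1.le
      have h2 : Real.log (1 + (t : ℝ) ^ (d + 1)) ≤ Real.log (2 * (t : ℝ) ^ (d + 1)) :=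
        Real.log_le_log (by linarith) (by linarith)
      rw [Real.log_mul two_ne_zero (by positivity), Real.log_rpow ht0] at h2
      have h3 : Real.log 2 ≤ 1 := by
        have := Real.log_two_lt_d9
        linarith
      have h4 : Real.log t ≤ (t : ℝ) ^ (κ / 2) / (κ / 2) :=
        Real.log_le_rpow_div ht0.le (half_pos hκ0)
      have h5 : (1 : ℝ) ≤ (t : ℝ) ^ (κ / 2) := Real.one_le_rpow ht1 (half_pos hκ0).le
      have h6 : (d + 1) * Real.log t ≤ (d + 1) * ((t : ℝ) ^ (κ / 2) / (κ / 2)) :=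
        mul_le_mul_of_nonneg_left h4 hd1.le
      have h7 : (d + 1) * ((t : ℝ) ^ (κ / 2) / (κ / 2)) =
          (d + 1) * (2 / κ) * (t : ℝ) ^ (κ / 2) := by
        field_simp
      nlinarith
    have hlog0 : 0 ≤ 1 + Real.log (1 + (t : ℝ) ^ (d + 1)) := by
      have h1 : 0 ≤ (t : ℝ) ^ (d + 1) := by positivity
      have := Real.log_nonneg (by linarith : (1 : ℝ) ≤ 1 + (t : ℝ) ^ (d + 1))
      linarith
    have hsq : Real.sqrt t = (t : ℝ) ^ (1 / 2 : ℝ) := Real.sqrt_eq_rpow _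
    have hmain : A * q ^ n * Real.sqrt t * (1 + Real.log (1 + (t : ℝ) ^ (d + 1))) ≤
        A * q⁻¹ * (2 + (d + 1) * (2 / κ)) * (t : ℝ) ^ (1 / 2 - κ / 2) := by
      have hq' : 0 ≤ q⁻¹ := (inv_pos.2 hq0).le
      calc A * q ^ n * Real.sqrt t * (1 + Real.log (1 + (t : ℝ) ^ (d + 1)))
          ≤ A * (q⁻¹ * (t : ℝ) ^ (-κ)) * Real.sqrt t *
            ((2 + (d + 1) * (2 / κ)) * (t : ℝ) ^ (κ / 2)) := by gcongr
        _ = A * q⁻¹ * (2 + (d + 1) * (2 / κ)) *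
            ((t : ℝ) ^ (-κ) * (t : ℝ) ^ (1 / 2 : ℝ) * (t : ℝ) ^ (κ / 2)) := by
            rw [hsq]; ring
        _ = A * q⁻¹ * (2 + (d + 1) * (2 / κ)) * (t : ℝ) ^ (1 / 2 - κ / 2) := by
            rw [← Real.rpow_add ht0, ← Real.rpow_add ht0]
            congr 2
            ring
    have h1 : (t : ℝ) ^ (1 / 2 - κ / 2) ≤ (t : ℝ) ^ max (1 / 2 - κ / 2) (1 / (d + 1)) :=
      Real.rpow_le_rpow_of_exponent_le ht1 (le_max_left _ _)
    have h2 : (t : ℝ) ^ (1 / (d + 1)) ≤ (t : ℝ) ^ max (1 / 2 - κ / 2) (1 / (d + 1)) :=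
      Real.rpow_le_rpow_of_exponent_le ht1 (le_max_right _ _)
    have hc : 0 ≤ A * q⁻¹ * (2 + (d + 1) * (2 / κ)) := by positivity
    calc A * q ^ n * Real.sqrt t * (1 + Real.log (1 + (t : ℝ) ^ (d + 1))) + A * (L : ℝ) ^ n
        ≤ A * q⁻¹ * (2 + (d + 1) * (2 / κ)) * (t : ℝ) ^ (1 / 2 - κ / 2) +
          A * (t : ℝ) ^ (1 / (d + 1)) := by gcongr
      _ ≤ A * q⁻¹ * (2 + (d + 1) * (2 / κ)) * (t : ℝ) ^ max (1 / 2 - κ / 2) (1 / (d + 1)) +
          A * (t : ℝ) ^ max (1 / 2 - κ / 2) (1 / (d + 1)) := by gcongr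
      _ = _ := by ring

end Pool.Agent.N276.SD
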