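import Pool.Agent.N276.SD.Stm

/-!
# `K_{h,h}` contains every graph on at most `h` vertices as a minor (project SD, helper247)
-/

set_option autoImplicit false

open Set
open scoped Classical

namespace Pool.Agent.N276.SD

theorem bic_minor : StmBicMinor := by
  intro V W _ G H h hW hB
  obtain ⟨B, hconn, hdisj, hadj⟩ := hB
  have hfin : Fintype W := Fintype.ofFinite W
  have hcard : Fintype.card W ≤ Fintype.card (Fin h) := by
    rw [Fintype.card_fin, ← Nat.card_eq_fintype_card]
    exact hW
  obtain ⟨e⟩ := Function.Embedding.nonempty_of_card_le hcard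
  have hb : ∀ i j : Fin h, (completeBipartiteGraph (Fin h) (Fin h)).Adj (Sum.inl i) (Sum.inr j) := by
    intro i j
    simp [completeBipartiteGraph]
  refine ⟨fun w => B (Sum.inl (e w)) ∪ B (Sum.inr (e w)), ?_, ?_, ?_⟩
  · intro w
    obtain ⟨x, hx, y, hy, hxy⟩ := hadj _ _ (hb (e w) (e w))
    exact SimpleGraph.connected_induce_union (hconn _).preconnected (hconn _).preconnected hx hy hxy
  · intro w w' hne
    have h1 : e w ≠ e w' := fun h => hne (e.injective h)
    refine Disjoint.union_left (Disjoint.union_right ?_ ?_) (Disjoint.union_right ?_ ?_)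
    · exact hdisj _ _ (fun h => h1 (Sum.inl_injective h))
    · exact hdisj _ _ (by simp)
    · exact hdisj _ _ (by simp)
    · exact hdisj _ _ (fun h => h1 (Sum.inr_injective h))
  · intro w w' _
    obtain ⟨x, hx, y, hy, hxy⟩ := hadj _ _ (hb (e w) (e w'))
    exact ⟨x, Or.inl hx, y, Or.inr hy, hxy⟩

end Pool.Agent.N276.SD
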