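import Pool.Agent.N276.SD.Stm

/-!
# Cauchy-Schwarz for the Dirichlet form (helper152)
-/

set_option autoImplicit false

open Set Filter Topology
open scoped Classical

namespace Pool.Agent.N276.SD

namespace CS

/-- comparison of `(a - b)² / (a + b)` with the entropy -/
lemma sq_div_le {a b : ℝ} (ha : 0 < a) (hb : 0 < b) :
    (a - b) ^ 2 / (a + b) ≤ (a - b) * (Real.log a - Real.log b) / 2 := by
  wlog hab : b ≤ a generalizing a b with H
  · have h := H hb ha (le_of_lt (not_le.1 hab))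
    have e1 : (a - b) ^ 2 / (a + b) = (b - a) ^ 2 / (b + a) := by
      rw [add_comm b a]
      congr 1
      ring
    rw [e1]
    refine h.trans (le_of_eq ?_)
    ring
  · have h1 := Real.le_log_one_add_of_nonneg (x := (a - b) / b) (div_nonneg (by linarith) hb.le)
    have e1 : 1 + (a - b) / b = a / b := by
      field_simp
      ring
    have e0 : (a - b) / b + 2 = (a + b) / b := by
      field_simp
      ring
    have e2 : 2 * ((a - b) / b) / ((a - b) / b + 2) = 2 * (a - b) / (a + b) := by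
      rw [e0]
      field_simp
    rw [e1, e2, Real.log_div ha.ne' hb.ne'] at h1
    have h2 : 0 ≤ a - b := by linarith
    have h3 := mul_le_mul_of_nonneg_left h1 h2
    have e3 : (a - b) ^ 2 / (a + b) = (a - b) * (2 * (a - b) / (a + b)) / 2 := by
      field_simp
    rw [e3]
    linarith

variable {V : Type} {G : SimpleGraph V} [G.LocallyFinite]

/-- the Dirichlet form as a finite sum -/
lemma dir_eq (B : Finset V) (g f : V → ℝ) (hB : ∀ x y, G.Adj x y → g x ≠ g y → x ∈ B ∧ y ∈ B) :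
    dir G g f = ∑ p ∈ (B ×ˢ B).filter (fun p => G.Adj p.1 p.2 ∧ g p.1 ≠ g p.2),
      (g p.1 - g p.2) * (f p.1 - f p.2) := by
  have h1 : ∀ x, ∑ y ∈ G.neighborFinset x, (g x - g y) * (f x - f y) =
      ∑ y ∈ (G.neighborFinset x).filter (fun y => g x ≠ g y), (g x - g y) * (f x - f y) := by
    intro x
    rw [Finset.sum_filter]
    refine Finset.sum_congr rfl fun y _ => ?_
    by_cases h : g x = g y
    · rw [h, sub_self, zero_mul, ite_self]
    · rw [if_pos h]
  unfold dir
  rw [tsum_eq_sum (s := B)]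
  · rw [Finset.sum_filter, Finset.sum_product]
    refine Finset.sum_congr rfl fun x _ => ?_
    rw [h1 x, ← Finset.sum_filter (s := B) (p := fun y => G.Adj x y ∧ g x ≠ g y)]
    refine Finset.sum_congr ?_ fun _ _ => rfl
    ext y
    rw [Finset.mem_filter, Finset.mem_filter, SimpleGraph.mem_neighborFinset]
    constructor
    · rintro ⟨h2, h3⟩
      exact ⟨(hB x y h2 h3).2, h2, h3⟩
    · rintro ⟨_, h2, h3⟩
      exact ⟨h2, h3⟩
  · intro x hx
    rw [h1 x]
    refine Finset.sum_eq_zero fun y hy => ?_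
    rw [Finset.mem_filter, SimpleGraph.mem_neighborFinset] at hy
    exact absurd (hB x y hy.1 hy.2).1 hx

end CS

open CS in
theorem cs : StmProb → StmEntropy → StmCS := by
  intro hP hE V G _ hconn hdeg Δ hΔ o t δ hδ w f hw hw8 hf
  obtain ⟨-, -, hfin, -, hg0, hgs, -, -⟩ := hP V G hconn hdeg o t
  obtain ⟨g, hg⟩ : ∃ g : V → ℝ, g = gr G o t := ⟨_, rfl⟩
  have hent := hE V G hconn hdeg o t δ hδ
  rw [← hg] at hg0 hgs hent ⊢
  obtain ⟨B, hB⟩ : ∃ B : Finset V, B = (hfin o t).toFinset := ⟨_, rfl⟩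
  have hmem : ∀ x, x ∈ B ↔ G.dist o x ≤ t := by
    intro x
    rw [hB, Set.Finite.mem_toFinset]
    rfl
  have hBs : ∀ x y, G.Adj x y → g x ≠ g y → x ∈ B ∧ y ∈ B := by
    have key : ∀ x y, G.Adj x y → g x ≠ 0 → x ∈ B ∧ y ∈ B := by
      intro x y hxy hx
      have h1 := hgs x hx
      have h2 : G.dist o y ≤ G.dist o x + G.dist x y := hconn.dist_triangle
      rw [SimpleGraph.dist_eq_one_iff_adj.2 hxy] at h2
      exact ⟨(hmem x).2 (by omega), (hmem y).2 (by omega)⟩
    intro x y hxy hne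
    by_cases hx : g x = 0
    · have hy : g y ≠ 0 := fun hy => hne (hx.trans hy.symm)
      exact (key y x hxy.symm hy).symm
    · exact key x y hxy hx
  obtain ⟨S, hS⟩ : ∃ S : Finset (V × V),
      S = (B ×ˢ B).filter (fun p => G.Adj p.1 p.2 ∧ g p.1 ≠ g p.2) := ⟨_, rfl⟩
  have hdir : ∀ f : V → ℝ, dir G g f = ∑ p ∈ S, (g p.1 - g p.2) * (f p.1 - f p.2) := by
    intro f
    rw [hS]
    exact dir_eq B g f hBs
  have hSm : ∀ p ∈ S, G.Adj p.1 p.2 := by
    intro p hp
    rw [hS, Finset.mem_filter] at hp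
    exact hp.2.1
  have ha : ∀ x, 0 < g x + δ := fun x => by linarith [hg0 x]
  have hlog : 0 ≤ Real.log (1 + t / δ) := Real.log_nonneg (by
    have : 0 ≤ (t : ℝ) / δ := by positivity
    linarith)
  -- Cauchy-Schwarz
  have hCS : (dir G g f) ^ 2 ≤ (∑ p ∈ S, (g p.1 - g p.2) ^ 2 / ((g p.1 + δ) + (g p.2 + δ))) *
      ∑ p ∈ S, ((g p.1 + δ) + (g p.2 + δ)) * (f p.1 - f p.2) ^ 2 := by
    rw [hdir f]
    refine Finset.sum_sq_le_sum_mul_sum_of_sq_le_mul S ?_ ?_ ?_
    · intro p _
      have := ha p.1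
      have := ha p.2
      positivity
    · intro p _
      have := ha p.1
      have := ha p.2
      positivity
    · intro p _
      have h1 := ha p.1
      have h2 := ha p.2
      have h3 : (g p.1 + δ) + (g p.2 + δ) ≠ 0 := by positivity
      refine le_of_eq ?_
      field_simp
  -- the first factor
  have hF : ∑ p ∈ S, (g p.1 - g p.2) ^ 2 / ((g p.1 + δ) + (g p.2 + δ)) ≤
      Real.log (1 + t / δ) := by
    rw [hdir] at hent
    have h1 : ∑ p ∈ S, (g p.1 - g p.2) ^ 2 / ((g p.1 + δ) + (g p.2 + δ)) ≤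
        ∑ p ∈ S, (g p.1 - g p.2) *
          (Real.log (g p.1 + δ) - Real.log (g p.2 + δ)) / 2 := by
      refine Finset.sum_le_sum fun p _ => ?_
      have h2 := sq_div_le (ha p.1) (ha p.2)
      have e : (g p.1 + δ) - (g p.2 + δ) = g p.1 - g p.2 := by ring
      rw [e] at h2
      exact h2
    rw [← Finset.sum_div] at h1
    linarith
  -- the second factor
  obtain ⟨h, hh⟩ : ∃ h : V → ℝ, h = fun x => w x ^ 2 * (g x + δ) := ⟨_, rfl⟩
  have hh0 : ∀ x, 0 ≤ h x := by
    intro x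
    rw [hh]
    exact mul_nonneg (sq_nonneg _) (ha x).le
  have hbs : bs G o t h = ∑ x ∈ B, h x := by
    rw [hB]
    unfold bs
    rw [finsum_mem_eq_finite_toFinset_sum _ (hfin o t)]
  have hcard : ∀ x, ((B.filter fun y => G.Adj x y ∧ g x ≠ g y).card : ℝ) ≤ Δ := by
    intro x
    have h1 : (B.filter fun y => G.Adj x y ∧ g x ≠ g y) ⊆ G.neighborFinset x := by
      intro y hy
      rw [Finset.mem_filter] at hy
      rw [SimpleGraph.mem_neighborFinset]
      exact hy.2.1
    have h2 := Finset.card_le_card h1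
    rw [SimpleGraph.card_neighborFinset_eq_degree] at h2
    exact_mod_cast h2.trans (hΔ x)
  have hs1 : ∑ p ∈ S, h p.1 ≤ Δ * ∑ x ∈ B, h x := by
    rw [hS, Finset.sum_filter, Finset.sum_product, Finset.mul_sum]
    refine Finset.sum_le_sum fun x _ => ?_
    rw [← Finset.sum_filter (s := B) (p := fun y => G.Adj x y ∧ g x ≠ g y)]
    change ∑ _a ∈ B.filter (fun y => G.Adj x y ∧ g x ≠ g y), h x ≤ Δ * h x
    rw [Finset.sum_const, nsmul_eq_mul]
    exact mul_le_mul_of_nonneg_right (hcard x) (hh0 x)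
  have hs2 : ∑ p ∈ S, h p.2 ≤ Δ * ∑ x ∈ B, h x := by
    rw [hS, Finset.sum_filter, Finset.sum_product_right, Finset.mul_sum]
    refine Finset.sum_le_sum fun x _ => ?_
    rw [← Finset.sum_filter (s := B) (p := fun y => G.Adj y x ∧ g y ≠ g x)]
    change ∑ _a ∈ B.filter (fun y => G.Adj y x ∧ g y ≠ g x), h x ≤ Δ * h x
    rw [Finset.sum_const, nsmul_eq_mul]
    refine mul_le_mul_of_nonneg_right ?_ (hh0 x)
    refine le_trans (le_of_eq ?_) (hcard x)
    congr 2
    ext y
    rw [Finset.mem_filter, Finset.mem_filter, SimpleGraph.adj_comm, ne_comm]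
  have hG : ∑ p ∈ S, ((g p.1 + δ) + (g p.2 + δ)) * (f p.1 - f p.2) ^ 2 ≤
      128 * Δ * ∑ x ∈ B, h x := by
    have h1 : ∀ p ∈ S, ((g p.1 + δ) + (g p.2 + δ)) * (f p.1 - f p.2) ^ 2 ≤
        64 * (h p.1 + h p.2) := by
      intro p hp
      have hadj := hSm p hp
      have h2 := hf _ _ hadj
      have h3 := hw8 _ _ hadj
      have h4 := hw8 _ _ hadj.symm
      have h5 := hw p.1
      have h6 := hw p.2
      have h7 : |f p.1 - f p.2| ≤ 8 * w p.1 := h2.trans (max_le (by linarith) h3)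
      have h8 : |f p.1 - f p.2| ≤ 8 * w p.2 := h2.trans (max_le h4 (by linarith))
      have h9 : (f p.1 - f p.2) ^ 2 ≤ (8 * w p.1) ^ 2 := by
        rw [← sq_abs (f p.1 - f p.2)]
        exact pow_le_pow_left₀ (abs_nonneg _) h7 2
      have h10 : (f p.1 - f p.2) ^ 2 ≤ (8 * w p.2) ^ 2 := by
        rw [← sq_abs (f p.1 - f p.2)]
        exact pow_le_pow_left₀ (abs_nonneg _) h8 2
      have h11 := mul_le_mul_of_nonneg_left h9 (ha p.1).le
      have h12 := mul_le_mul_of_nonneg_left h10 (ha p.2).le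
      rw [hh]
      show ((g p.1 + δ) + (g p.2 + δ)) * (f p.1 - f p.2) ^ 2 ≤
        64 * (w p.1 ^ 2 * (g p.1 + δ) + w p.2 ^ 2 * (g p.2 + δ))
      nlinarith
    refine (Finset.sum_le_sum h1).trans ?_
    rw [← Finset.mul_sum, Finset.sum_add_distrib]
    linarith
  have hG0 : 0 ≤ ∑ p ∈ S, ((g p.1 + δ) + (g p.2 + δ)) * (f p.1 - f p.2) ^ 2 := by
    refine Finset.sum_nonneg fun p _ => ?_
    have := ha p.1
    have := ha p.2
    positivity
  refine hCS.trans ?_
  refine (mul_le_mul hF hG hG0 hlog).trans (le_of_eq ?_)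
  rw [← hbs, hh]

end Pool.Agent.N276.SD
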