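import Pool.Agent.N276.SD.Stm

/-!
# Connected Voronoi cells (helper607)
-/

set_option autoImplicit false

open Set Filter Topology
open scoped Classical

namespace Pool.Agent.N276.SD

namespace Cells

variable {V : Type}

/-- the points of `Z` nearest to `x` -/
def near (G : SimpleGraph V) (Z : Set V) (x : V) : Set V :=
  {z | z ∈ Z ∧ ∀ z' ∈ Z, G.dist x z ≤ G.dist x z'}

lemma near_nonempty (G : SimpleGraph V) {Z : Set V} (hZ : Z.Nonempty) (x : V) :
    (near G Z x).Nonempty := by
  obtain ⟨z, hz, h⟩ := WellFounded.has_min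
    (InvImage.wf (fun z : V => G.dist x z) (wellFounded_lt : WellFounded ((· < ·) : ℕ → ℕ → Prop)))
    Z hZ
  exact ⟨z, hz, fun z' hz' => not_lt.1 (h z' hz')⟩

end Cells

open Cells

theorem cells : StmCells := by
  intro V G hG r Z hZ
  have hV : Nonempty V := hG.nonempty
  have hZ0 : Z.Nonempty := by
    obtain ⟨x⟩ := hV
    obtain ⟨z, hz, -⟩ := hZ x
    exact ⟨z, hz⟩
  have wo : IsWellOrder V WellOrderingRel := WellOrderingRel.isWellOrder
  have hwf : WellFounded (WellOrderingRel : V → V → Prop) := wo.wf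
  have hmin : ∀ x, ∃ z ∈ near G Z x, ∀ z' ∈ near G Z x, ¬ WellOrderingRel z' z := fun x =>
    hwf.has_min (near G Z x) (near_nonempty G hZ0 x)
  choose κ hκ hκ' using hmin
  have hself : ∀ z ∈ Z, κ z = z := by
    intro z hz
    have h1 := (hκ z).2 z hz
    rw [SimpleGraph.dist_self] at h1
    have h2 : G.dist z (κ z) = 0 := by omega
    exact ((hG z (κ z)).dist_eq_zero_iff.1 h2).symm
  refine ⟨κ, fun x => ⟨(hκ x).1, ?_⟩, hself, ?_⟩
  · obtain ⟨z, hz, h⟩ := hZ x
    exact ((hκ x).2 z hz).trans h
  intro z hz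
  -- one step
  have step : ∀ (n : ℕ) (x : V), κ x = z → G.dist x z = n + 1 →
      ∃ x', G.Adj x x' ∧ κ x' = z ∧ G.dist x' z = n := by
    intro n x hx hn
    obtain ⟨p, hp⟩ := (hG x z).exists_walk_length_eq_dist
    rw [hn] at hp
    cases p with
    | nil => simp at hp
    | @cons _ x' _ hadj p' =>
      rw [SimpleGraph.Walk.length_cons] at hp
      have h1 : G.dist x' z ≤ n := (SimpleGraph.dist_le p').trans (by omega)
      have hxx' : G.dist x x' = 1 := SimpleGraph.dist_eq_one_iff_adj.2 hadj
      have htri : ∀ y, G.dist x y ≤ 1 + G.dist x' y := fun y => by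
        have := hG.dist_triangle (u := x) (v := x') (w := y)
        omega
      have h2 := htri z
      have h3 : G.dist x' z = n := by omega
      have hzx : z ∈ near G Z x := hx ▸ hκ x
      have hzx' : z ∈ near G Z x' := ⟨hz, fun z' hz' => by
        have h4 := hzx.2 z' hz'
        have h5 := htri z'
        omega⟩
      have h4 : κ x' ∈ near G Z x := ⟨(hκ x').1, fun z' hz' => by
        have h5 := (hκ x').2 z hz
        have h6 := htri (κ x')
        have h7 := hzx.2 z' hz'
        omega⟩
      refine ⟨x', hadj, ?_, h3⟩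
      have h5 := hκ' x (κ x') h4
      rw [hx] at h5
      have h6 := hκ' x' z hzx'
      rcases trichotomous_of WellOrderingRel (κ x') z with h | h | h
      · exact absurd h h5
      · exact h
      · exact absurd h h6
  have hreach : ∀ (n : ℕ) (x : V) (hx : κ x = z), G.dist x z = n →
      (G.induce {x | κ x = z}).Reachable ⟨x, hx⟩ ⟨z, hself z hz⟩ := by
    intro n
    induction n with
    | zero =>
      intro x hx hn
      have h1 : x = z := (hG x z).dist_eq_zero_iff.1 hn
      subst h1
      exact SimpleGraph.Reachable.refl _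
    | succ n ih =>
      intro x hx hn
      obtain ⟨x', h1, h2, h3⟩ := step n x hx hn
      have h4 := ih x' h2 h3
      have h5 : (G.induce {x | κ x = z}).Adj ⟨x, hx⟩ ⟨x', h2⟩ := h1
      exact h5.reachable.trans h4
  have hne : Nonempty {x | κ x = z} := ⟨⟨z, hself z hz⟩⟩
  refine { preconnected := ?_, nonempty := hne }
  intro a b
  exact (hreach _ a.1 a.2 rfl).trans (hreach _ b.1 b.2 rfl).symm

end Pool.Agent.N276.SD
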