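import Pool.Agent.N276.SD.Stm

/-!
# Area of the cuts
-/

set_option autoImplicit false

open Set Filter Topology
open scoped Classical

namespace Pool.Agent.N276.SD.Cost

variable {V : Type} {G : SimpleGraph V} {c C d : ℝ}

lemma ball_finite (hG : Growth G c C d) (hc : 0 < c) (v : V) (n : ℕ) : (ball G v n).Finite := by
  have h1 : (ball G v (n + 1)).Finite := by
    apply Set.finite_of_ncard_pos
    have h2 := hG.lower v (n + 1) (by omega)
    have h3 : (0:ℝ) < ((ball G v (n + 1)).ncard : ℝ) := lt_of_le_of_lt (by positivity) h2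
    exact_mod_cast h3
  exact h1.subset fun u hu => (le_trans hu (Nat.le_succ n) : G.dist v u ≤ n + 1)

lemma bs_eq (hf : ∀ v n, (ball G v n).Finite) (v : V) (n : ℕ) (f : V → ℝ) :
    bs G v n f = ∑ x ∈ (hf v n).toFinset, f x := by
  unfold bs
  exact finsum_mem_eq_finite_toFinset_sum f (hf v n)

end Pool.Agent.N276.SD.Cost

namespace Pool.Agent.N276.SD

open Cost

theorem cost : StmCost := by
  intro c C d R m k hc hd hk V G hG ρ hρ N F hN hF w hw hw2 v r
  have hf := ball_finite hG hc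
  have tri : ∀ x y z : V, G.dist x z ≤ G.dist x y + G.dist y z := fun x y z =>
    hG.conn.dist_triangle
  have hkρ : 2 ≤ k * ρ := by nlinarith
  have hρk : 3 * ρ ≤ 3 * (k * ρ) := by nlinarith
  obtain ⟨s, hs⟩ : ∃ s, s = k * ρ / 2 := ⟨_, rfl⟩
  have hs1 : 1 ≤ s := by omega
  have hs2 : 2 * s ≤ k * ρ := by omega
  have hs3 : k * ρ ≤ 4 * s := by omega
  have hC : 0 < C := by
    have h1 := hG.lower v 1 le_rfl
    have h2 := hG.upper v 1 le_rfl
    rw [Nat.cast_one, Real.one_rpow, mul_one] at h1 h2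
    linarith
  rw [bs_eq hf, bs_eq hf]
  obtain ⟨N', hN'⟩ : ∃ N' : Finset V, N' =
    ((hf v (r + (R + 3) * (k * ρ))).toFinset.filter fun a => a ∈ N) := ⟨_, rfl⟩
  have hmemN' : ∀ a ∈ N', a ∈ N ∧ G.dist v a ≤ r + (R + 3) * (k * ρ) := by
    intro a ha
    rw [hN', Finset.mem_filter, Set.Finite.mem_toFinset] at ha
    exact ⟨ha.2, ha.1⟩
  -- distances
  have hdist : ∀ a ∈ N, ∀ x : V, (∃ z ∈ F a, G.dist z x < 3 * ρ) →
      G.dist a x ≤ (R + 3) * (k * ρ) := by
    rintro a ha x ⟨z, hz, hzx⟩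
    have h1 := (hF a ha).2 z hz
    have h2 := tri a z x
    have h3 : (R + 3) * (k * ρ) = R * (k * ρ) + 3 * (k * ρ) := by ring
    omega
  -- the first step
  have step1 : ∑ x ∈ (hf v r).toFinset,
      (if ∃ a ∈ N, ∃ z ∈ F a, G.dist z x < 3 * ρ then w x ^ 2 else 0) ≤
      ∑ a ∈ N', ∑ x ∈ (hf v r).toFinset,
        (if ∃ z ∈ F a, G.dist z x < 3 * ρ then w x ^ 2 else 0) := by
    rw [Finset.sum_comm]
    refine Finset.sum_le_sum fun x hx => ?_
    have hx' : G.dist v x ≤ r := by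
      rw [Set.Finite.mem_toFinset] at hx
      exact hx
    have hnn : ∀ a ∈ N', (0:ℝ) ≤ (if ∃ z ∈ F a, G.dist z x < 3 * ρ then w x ^ 2 else 0) := by
      intro a _
      split_ifs
      · positivity
      · exact le_rfl
    split_ifs with h
    · obtain ⟨a, ha, hax⟩ := h
      have h1 := hdist a ha x hax
      have haN' : a ∈ N' := by
        rw [hN', Finset.mem_filter, Set.Finite.mem_toFinset]
        refine ⟨?_, ha⟩
        have h2 := tri v x a
        rw [G.dist_comm (u := x)] at h2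
        show G.dist v a ≤ _
        omega
      have h3 := Finset.single_le_sum hnn haN'
      rw [if_pos hax] at h3
      exact h3
    · exact Finset.sum_nonneg hnn
  -- the second step
  have step2 : ∀ a ∈ N', ∑ x ∈ (hf v r).toFinset,
      (if ∃ z ∈ F a, G.dist z x < 3 * ρ then w x ^ 2 else 0) ≤
      4 * m * C / c * (12 / (k : ℝ)) ^ d * ∑ u ∈ (hf a s).toFinset, w u ^ 2 := by
    intro a ha
    obtain ⟨haN, hva⟩ := hmemN' a ha
    rw [← Finset.sum_filter]
    obtain ⟨Xa, hXa⟩ : ∃ Xa : Finset V, Xa = (hf v r).toFinset.filter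
      fun x => ∃ z ∈ F a, G.dist z x < 3 * ρ := ⟨_, rfl⟩
    rw [← hXa]
    obtain ⟨S, hS⟩ : ∃ S : ℝ, S = ∑ u ∈ (hf a s).toFinset, w u ^ 2 := ⟨_, rfl⟩
    rw [← hS]
    have hS0 : 0 ≤ S := by
      rw [hS]
      positivity
    have h1 : ∀ x ∈ Xa, (((hf a s).toFinset.card : ℕ) : ℝ) * w x ^ 2 ≤ 4 * S := by
      intro x hx
      rw [hXa, Finset.mem_filter] at hx
      have h2 := hdist a haN x hx.2
      rw [hS, Finset.mul_sum, ← nsmul_eq_mul, ← Finset.sum_const]
      refine Finset.sum_le_sum fun u hu => ?_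
      have hu' : G.dist a u ≤ s := by
        rw [Set.Finite.mem_toFinset] at hu
        exact hu
      have h3 := tri x a u
      rw [G.dist_comm (u := x) (v := a)] at h3
      have h4 : G.dist x u ≤ (R + 4) * (k * ρ) := by
        have h5 : (R + 4) * (k * ρ) = (R + 3) * (k * ρ) + k * ρ := by ring
        omega
      have h5 := hw2 x u h4
      have h6 := hw x
      have h7 := hw u
      nlinarith
    have hcard1 : (Xa.card : ℝ) ≤ m * (C * ((3 * ρ : ℕ) : ℝ) ^ d) := by
      have h2 : Xa ⊆ (F a).biUnion fun z => (hf z (3 * ρ)).toFinset := by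
        intro x hx
        rw [hXa, Finset.mem_filter] at hx
        obtain ⟨z, hz, hzx⟩ := hx.2
        rw [Finset.mem_biUnion]
        refine ⟨z, hz, ?_⟩
        rw [Set.Finite.mem_toFinset]
        exact (hzx.le : G.dist z x ≤ 3 * ρ)
      have h3 : (Xa.card : ℝ) ≤ ∑ z ∈ F a, (((hf z (3 * ρ)).toFinset.card : ℕ) : ℝ) := by
        exact_mod_cast (Finset.card_le_card h2).trans Finset.card_biUnion_le
      refine h3.trans ?_
      have h4 : ∀ z ∈ F a, (((hf z (3 * ρ)).toFinset.card : ℕ) : ℝ) ≤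
          C * ((3 * ρ : ℕ) : ℝ) ^ d := by
        intro z _
        rw [← Set.ncard_eq_toFinset_card _ (hf z (3 * ρ))]
        exact (hG.upper z (3 * ρ) (by omega)).le
      refine (Finset.sum_le_card_nsmul _ _ _ h4).trans ?_
      rw [nsmul_eq_mul]
      refine mul_le_mul_of_nonneg_right ?_ (by positivity)
      exact_mod_cast (hF a haN).1
    have hcard2 : c * ((s : ℕ) : ℝ) ^ d ≤ (((hf a s).toFinset.card : ℕ) : ℝ) := by
      rw [← Set.ncard_eq_toFinset_card _ (hf a s)]
      exact (hG.lower a s hs1).le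
    have hspos : (0:ℝ) < s := by exact_mod_cast hs1
    have hcs : 0 < c * ((s : ℕ) : ℝ) ^ d := by positivity
    have h5 : (c * ((s : ℕ) : ℝ) ^ d) * ∑ x ∈ Xa, w x ^ 2 ≤
        (m * (C * ((3 * ρ : ℕ) : ℝ) ^ d)) * (4 * S) := by
      calc (c * ((s : ℕ) : ℝ) ^ d) * ∑ x ∈ Xa, w x ^ 2
          ≤ (((hf a s).toFinset.card : ℕ) : ℝ) * ∑ x ∈ Xa, w x ^ 2 :=
            mul_le_mul_of_nonneg_right hcard2 (by positivity)
        _ = ∑ x ∈ Xa, (((hf a s).toFinset.card : ℕ) : ℝ) * w x ^ 2 := by rw [Finset.mul_sum]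
        _ ≤ ∑ _x ∈ Xa, 4 * S := Finset.sum_le_sum h1
        _ = (Xa.card : ℝ) * (4 * S) := by rw [Finset.sum_const, nsmul_eq_mul]
        _ ≤ (m * (C * ((3 * ρ : ℕ) : ℝ) ^ d)) * (4 * S) :=
            mul_le_mul_of_nonneg_right hcard1 (by positivity)
    have hρpos : (0:ℝ) < ρ := by exact_mod_cast hρ
    have hkpos : (0:ℝ) < k := by exact_mod_cast (by omega : 0 < k)
    have h6 : (((3 * ρ : ℕ) : ℝ)) ^ d ≤ (12 / (k : ℝ)) ^ d * ((s : ℕ) : ℝ) ^ d := by
      rw [← Real.mul_rpow (by positivity) (by positivity)]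
      refine Real.rpow_le_rpow (by positivity) ?_ hd.le
      rw [div_mul_eq_mul_div, le_div_iff₀ hkpos]
      have h7 : ((k * ρ : ℕ) : ℝ) ≤ ((4 * s : ℕ) : ℝ) := by exact_mod_cast hs3
      push_cast at h7 ⊢
      nlinarith
    have h7 : (m * (C * ((3 * ρ : ℕ) : ℝ) ^ d)) * (4 * S) ≤
        (c * ((s : ℕ) : ℝ) ^ d) * (4 * m * C / c * (12 / (k : ℝ)) ^ d * S) := by
      have h8 : (c * ((s : ℕ) : ℝ) ^ d) * (4 * m * C / c * (12 / (k : ℝ)) ^ d * S) =
          (m * (C * ((12 / (k : ℝ)) ^ d * ((s : ℕ) : ℝ) ^ d))) * (4 * S) := by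
        field_simp
      rw [h8]
      refine mul_le_mul_of_nonneg_right ?_ (by positivity)
      refine mul_le_mul_of_nonneg_left ?_ (by positivity)
      exact mul_le_mul_of_nonneg_left h6 hC.le
    exact le_of_mul_le_mul_left (h5.trans h7) hcs
  -- the third step
  have step3 : ∑ a ∈ N', ∑ u ∈ (hf a s).toFinset, w u ^ 2 ≤
      ∑ u ∈ (hf v (r + (R + 4) * (k * ρ))).toFinset, w u ^ 2 := by
    rw [← Finset.sum_biUnion]
    · refine Finset.sum_le_sum_of_subset_of_nonneg ?_ fun u _ _ => by positivity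
      intro u hu
      rw [Finset.mem_biUnion] at hu
      obtain ⟨a, ha, hau⟩ := hu
      obtain ⟨haN, hva⟩ := hmemN' a ha
      rw [Set.Finite.mem_toFinset] at hau ⊢
      have hau' : G.dist a u ≤ s := hau
      show G.dist v u ≤ _
      have h1 := tri v a u
      have h5 : (R + 4) * (k * ρ) = (R + 3) * (k * ρ) + k * ρ := by ring
      omega
    · intro a ha a' ha' hne
      rw [Function.onFun, Finset.disjoint_left]
      intro u hu hu'
      rw [Set.Finite.mem_toFinset] at hu hu'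
      have h1 : G.dist a u ≤ s := hu
      have h2 : G.dist a' u ≤ s := hu'
      have h3 := hN a (hmemN' a ha).1 a' (hmemN' a' ha').1 hne
      have h4 := tri a u a'
      rw [G.dist_comm (u := u)] at h4
      omega
  refine step1.trans ((Finset.sum_le_sum step2).trans ?_)
  rw [← Finset.mul_sum]
  exact mul_le_mul_of_nonneg_left step3 (by positivity)

end Pool.Agent.N276.SD
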