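import Pool.Agent.N276.SD.Stm

/-!
# SD/7: many disjoint connected sets which cross a large annulus give the minor `K_{h,h}`

Project SD (helper276); this file by helper692.
-/

set_option autoImplicit false

open Set Filter Topology
open scoped Classical

namespace Pool.Agent.N276.SD

namespace Cross

variable {V : Type} {G : SimpleGraph V}

theorem dist_adj (hG : G.Connected) (v : V) {a b : V} (h : G.Adj a b) :
    G.dist v b ≤ G.dist v a + 1 := by
  have h1 := hG.dist_triangle (u := v) (v := a) (w := b)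
  have h2 : G.dist a b ≤ 1 := by
    rw [SimpleGraph.dist_eq_one_iff_adj.2 h]
  omega

/-- discrete intermediate value theorem on a walk in a subset -/
theorem ivt (hG : G.Connected) (v : V) (r : ℕ) {A : Set V} {a b : A}
    (p : (G.induce A).Walk a b) (ha : G.dist v a ≤ r) (hb : r ≤ G.dist v b) :
    ∃ x ∈ A, G.dist v x = r := by
  induction p with
  | nil => exact ⟨_, Subtype.coe_prop _, le_antisymm ha hb⟩
  | @cons a c b hadj p ih =>
    by_cases hc : G.dist v c ≤ r
    · exact ih hc hb
    · push Not at hc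
      have h1 : G.Adj (a : V) (c : V) := hadj
      have h2 := dist_adj hG v h1
      exact ⟨a, a.2, by omega⟩

/-- the vertices of a short walk are near to its end -/
theorem dist_end {x y z : V} {s : ℕ} (p : G.Walk x y) (hp : p.length ≤ s)
    (hz : z ∈ p.support) : G.dist z y ≤ s := by
  have h1 := SimpleGraph.dist_le (p.dropUntil z hz)
  have h2 := p.length_dropUntil_le_length hz
  omega

/-- number of indices, from the subtype to the whole type -/
theorem card_sub {N D : ℕ} {I' : Finset (Fin N)} (Q : Fin N → Prop)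
    (hQ : {i | Q i}.ncard ≤ D) :
    (Finset.univ.filter fun j : {i // i ∈ I'} => Q j).card ≤ D := by
  have h1 : (Finset.univ.filter fun j : {i // i ∈ I'} => Q j).card =
      ((Finset.univ.filter fun j : {i // i ∈ I'} => Q j).image Subtype.val).card :=
    (Finset.card_image_of_injective _ Subtype.val_injective).symm
  rw [h1, ← Set.ncard_coe_finset]
  refine (Set.ncard_le_ncard ?_ (Set.toFinite _)).trans hQ
  intro i hi
  rw [Finset.mem_coe, Finset.mem_image] at hi
  obtain ⟨j, hj, rfl⟩ := hi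
  exact (Finset.mem_filter.1 hj).2

end Cross

open Pool.Agent.N276.SD.Cross in
theorem cross : StmIndep → StmRays → StmCross := by
  intro hI hR V G h s D N₀ N v P hG hh hs hdis hcon hin hout hshort hnet hN
  obtain ⟨Y, hYc, hY⟩ := hnet
  -- the points on the spheres
  have hx : ∀ (i : Fin N) (l : Fin h), ∃ x ∈ P i, G.dist v x = 5 * ((l : ℕ) + 1) * s := by
    intro i l
    obtain ⟨a, ha, ha'⟩ := hin i
    obtain ⟨b, hb, hb'⟩ := hout i
    obtain ⟨p⟩ := (hcon i).preconnected ⟨a, ha⟩ ⟨b, hb⟩
    have e1 : s ≤ 5 * ((l : ℕ) + 1) * s := Nat.le_mul_of_pos_left _ (by omega)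
    have e2 : 5 * ((l : ℕ) + 1) * s ≤ 5 * h * s :=
      Nat.mul_le_mul_right _ (Nat.mul_le_mul_left _ l.2)
    exact ivt hG v _ p (ha'.trans e1) (e2.trans hb'.le)
  choose x hxP hxd using hx
  have hy0 : ∀ (i : Fin N) (l : Fin h), ∃ y ∈ Y, G.dist y (x i l) ≤ s := by
    intro i l
    apply hY
    rw [hxd]
    exact Nat.mul_le_mul_right _ (Nat.mul_le_mul_left _ l.2)
  choose y0 hy0Y hy0d using hy0
  -- pigeonhole
  have hYne : Y.Nonempty := by
    obtain ⟨y, hy, _⟩ := hY v (by simp)
    exact ⟨y, hy⟩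
  obtain ⟨y, hyt, hyn⟩ := Finset.exists_le_card_fiber_of_mul_le_card_of_maps_to
    (s := (Finset.univ : Finset (Fin N))) (t := Fintype.piFinset fun _ : Fin h => Y)
    (f := y0) (n := (2 * (h * D) + 1) * h)
    (fun i _ => Fintype.mem_piFinset.2 fun l => hy0Y i l)
    ⟨fun _ => hYne.choose, Fintype.mem_piFinset.2 fun _ => hYne.choose_spec⟩ (by
      rw [Fintype.card_piFinset_const, Finset.card_univ, Fintype.card_fin]
      exact (Nat.mul_le_mul_right _ (Nat.pow_le_pow_left hYc h)).trans hN)
  set I' : Finset (Fin N) := Finset.univ.filter fun i => y0 i = y with hI'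
  have hI'm : ∀ i ∈ I', y0 i = y := fun i hi => (Finset.mem_filter.1 hi).2
  -- the walks
  have hw : ∀ (i : {i // i ∈ I'}) (l : Fin h), ∃ p : G.Walk (y l) (x i l), p.length ≤ s := by
    intro i l
    obtain ⟨p, hp⟩ := hG.exists_walk_length_eq_dist (y l) (x i l)
    refine ⟨p, ?_⟩
    rw [hp, ← hI'm i i.2]
    exact hy0d i l
  choose R hRl using hw
  -- the relation
  obtain ⟨I, hIc, hIi⟩ := hI {i // i ∈ I'}
    (fun i j => ∃ l, ∃ z ∈ (R i l).support, z ∈ P j) (h * D) h (by
      intro i
      have h1 : {j : {i // i ∈ I'} | j ≠ i ∧ ∃ l, ∃ z ∈ (R i l).support, z ∈ P j} ⊆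
          ((Finset.univ.biUnion fun l : Fin h =>
            Finset.univ.filter fun j : {i // i ∈ I'} => ∃ z ∈ (R i l).support, z ∈ P j :
              Finset {i // i ∈ I'}) : Set {i // i ∈ I'}) := by
        rintro j ⟨_, l, hl⟩
        rw [Finset.mem_coe, Finset.mem_biUnion]
        exact ⟨l, Finset.mem_univ _, Finset.mem_filter.2 ⟨Finset.mem_univ _, hl⟩⟩
      refine (Set.ncard_le_ncard h1 (Set.toFinite _)).trans ?_
      rw [Set.ncard_coe_finset]
      refine (Finset.card_biUnion_le_card_mul _ _ D fun l _ => ?_).trans ?_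
      · have h2 := card_sub (I' := I') (fun j => ∃ z ∈ (R i l).support, z ∈ P j)
          (hshort _ _ (R i l) (hRl i l))
        convert h2
      · rw [Finset.card_univ, Fintype.card_fin]) (by
      rw [Nat.card_eq_fintype_card, Fintype.card_coe]
      exact hyn)
  have hIc' : Fintype.card I = h := by rw [Fintype.card_coe]; exact hIc
  let e : Fin h ≃ I := (Fintype.equivFinOfCardEq hIc').symm
  have he : ∀ i j, i ≠ j → ((e i : {i // i ∈ I'}) : Fin N) ≠ ((e j : {i // i ∈ I'}) : Fin N) := by
    intro i j hij heq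
    exact hij (e.injective (Subtype.ext (Subtype.ext heq)))
  refine hR V G h (fun i => P (e i : {i // i ∈ I'})) y (fun i l => x (e i : {i // i ∈ I'}) l)
    (fun i l => R (e i) l) hh (fun i j hij => hdis _ _ (he i j hij)) (fun i => hcon _)
    (fun i l => hxP _ _) ?_ ?_
  · intro i j l hij z hz hzP
    have hne : (e i : {i // i ∈ I'}) ≠ (e j : {i // i ∈ I'}) := fun hc =>
      hij (e.injective (Subtype.ext hc))
    exact hIi _ (e i).2 _ (e j).2 hne ⟨l, z, hz, hzP⟩
  · intro i i' l l' hll z hz hz'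
    have d1 := dist_end _ (hRl _ _) hz
    have d2 := dist_end _ (hRl _ _) hz'
    have t1 := hG.dist_triangle (u := v) (v := z) (w := x (e i : {i // i ∈ I'}) l)
    have t2 := hG.dist_triangle (u := v) (v := x (e i : {i // i ∈ I'}) l) (w := z)
    have t3 := hG.dist_triangle (u := v) (v := z) (w := x (e i' : {i // i ∈ I'}) l')
    have t4 := hG.dist_triangle (u := v) (v := x (e i' : {i // i ∈ I'}) l') (w := z)
    rw [SimpleGraph.dist_comm (u := x (e i : {i // i ∈ I'}) l) (v := z)] at t2
    rw [SimpleGraph.dist_comm (u := x (e i' : {i // i ∈ I'}) l') (v := z)] at t4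
    rw [hxd] at t1 t2 t3 t4
    have hlv : (l : ℕ) ≠ (l' : ℕ) := fun hc => hll (Fin.ext hc)
    rcases lt_or_gt_of_ne hlv with hlt | hlt
    · have k1 : 5 * ((l : ℕ) + 1) * s + 5 * s ≤ 5 * ((l' : ℕ) + 1) * s := by
        have : 5 * ((l : ℕ) + 1) * s + 5 * s = 5 * ((l : ℕ) + 1 + 1) * s := by ring
        rw [this]
        exact Nat.mul_le_mul_right _ (Nat.mul_le_mul_left _ (by omega))
      omega
    · have k1 : 5 * ((l' : ℕ) + 1) * s + 5 * s ≤ 5 * ((l : ℕ) + 1) * s := by
        have : 5 * ((l' : ℕ) + 1) * s + 5 * s = 5 * ((l' : ℕ) + 1 + 1) * s := by ring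
        rw [this]
        exact Nat.mul_le_mul_right _ (Nat.mul_le_mul_left _ (by omega))
      omega

end Pool.Agent.N276.SD
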