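import Pool.Agent.N276.SD.Stm

/-!
# Annuli are cut by few balls
-/

set_option autoImplicit false

open Set Filter Topology
open scoped Classical

namespace Pool.Agent.N276.SD

namespace Cut

variable {V : Type}

theorem ball_finite {G : SimpleGraph V} {c C d : ℝ} (hc : 0 < c) (hG : Growth G c C d) (v : V)
    (n : ℕ) : (ball G v n).Finite := by
  have h1 : (ball G v (n + 1)).Finite := by
    apply Set.finite_of_ncard_pos
    have h2 := hG.lower v (n + 1) (by omega)
    have h3 : 0 < c * ((n + 1 : ℕ) : ℝ) ^ d := by positivity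
    exact_mod_cast h3.trans h2
  refine h1.subset ?_
  intro u hu
  simp only [ball, Set.mem_ofPred_eq] at hu ⊢
  omega

theorem dist_getVert {G : SimpleGraph V} (hG : G.Connected) {x y : V} (p : G.Walk x y) (a n : ℕ) :
    G.dist (p.getVert a) (p.getVert (a + n)) ≤ n := by
  induction n with
  | zero => simp
  | succ n ih =>
    have h1 : G.dist (p.getVert (a + n)) (p.getVert (a + (n + 1))) ≤ 1 := by
      by_cases h : a + n < p.length
      · have h2 := p.adj_getVert_succ h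
        have h3 := SimpleGraph.dist_eq_one_iff_adj.2 h2
        rw [← add_assoc]
        exact h3.le
      · rw [p.getVert_of_length_le (by omega), p.getVert_of_length_le (by omega)]
        simp
    have h2 := hG.dist_triangle (u := p.getVert a) (v := p.getVert (a + n))
      (w := p.getVert (a + (n + 1)))
    omega

theorem card_le {G : SimpleGraph V} {c C d : ℝ} (hc : 0 < c) (hG : Growth G c C d) (r K N : ℕ)
    (hN : ∀ (v : V) (S : Finset V), (∀ x ∈ S, ∀ y ∈ S, x ≠ y → r < G.dist x y) →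
      (∀ x ∈ S, G.dist v x ≤ K * r) → S.card ≤ N)
    (v : V) (A : Set V) (h1 : ∀ x ∈ A, ∀ y ∈ A, x ≠ y → r < G.dist x y)
    (h2 : ∀ x ∈ A, G.dist v x ≤ K * r) : A.Finite ∧ A.ncard ≤ N := by
  have hf : A.Finite := (ball_finite hc hG v (K * r)).subset h2
  refine ⟨hf, ?_⟩
  rw [Set.ncard_eq_toFinset_card A hf]
  apply hN v
  · intro x hx y hy
    exact h1 x (by simpa using hx) y (by simpa using hy)
  · intro x hx
    exact h2 x (by simpa using hx)

theorem arith (a h N₁ k : ℕ) (hk : 1 ≤ k) :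
    a * ((2 * (h * ((k + 1) * N₁)) + 1) * h) ≤ a * (4 * h * N₁ + 1) * h * k + 1 := by
  have h1 : 2 * (h * ((k + 1) * N₁)) + 1 ≤ (4 * h * N₁ + 1) * k := by
    have h2 : h * N₁ ≤ h * N₁ * k := Nat.le_mul_of_pos_right _ hk
    nlinarith
  calc a * ((2 * (h * ((k + 1) * N₁)) + 1) * h)
      ≤ a * ((4 * h * N₁ + 1) * k * h) := by gcongr
    _ = a * (4 * h * N₁ + 1) * h * k := by ring
    _ ≤ _ := Nat.le_succ _

end Cut

theorem cut : StmNet → StmCells → StmQuot → StmPack → StmCross → StmCut := by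
  intro hNet hCells hQuot hPack hCross c C d h hc hd hh
  obtain ⟨N₁, hN₁⟩ := hPack c C d hc hd 2
  obtain ⟨N₀, hN₀⟩ := hPack c C d hc hd (5 * h + 1)
  refine ⟨N₀ ^ h * (4 * h * N₁ + 1) * h, ?_⟩
  intro V G hG hB ρ k hρ hk v
  obtain ⟨Z, hZ1, hZ2⟩ := hNet V G ρ
  obtain ⟨κ, hκ1, hκ2, hκ3⟩ := hCells V G hG.conn ρ Z hZ2
  have hs : 1 ≤ k * ρ := Nat.mul_pos hk hρ
  have hsR : k * ρ ≤ 5 * h * (k * ρ) := Nat.le_mul_of_pos_left _ (by omega)
  have hρs : ρ ≤ k * ρ := Nat.le_mul_of_pos_left _ hk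
  rcases hQuot V G hG.conn (fun v n => Cut.ball_finite hc hG v n) κ ρ (fun x => (hκ1 x).2)
    (fun x => hκ3 _ (hκ1 x).1) v (k * ρ) (5 * h * (k * ρ))
    (N₀ ^ h * (4 * h * N₁ + 1) * h * k) hsR with ⟨F, hF1, hF2, hF3⟩ | ⟨S, hS1, hS2⟩
  · refine ⟨F, hF1, ?_, ?_⟩
    · intro z hz
      have h1 := hF2 z hz
      have h2 : (5 * h + 2) * (k * ρ) = 5 * h * (k * ρ) + 2 * (k * ρ) := by ring
      omega
    · intro x y p hx hy
      obtain ⟨u, hu, hu2⟩ := hF3 x y p hx hy
      refine ⟨u, hu, κ u, hu2, ?_⟩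
      rw [SimpleGraph.dist_comm]
      exact (hκ1 u).2
  · exfalso
    apply hB
    refine hCross V G h (k * ρ) ((k + 1) * N₁) N₀ (N₀ ^ h * (4 * h * N₁ + 1) * h * k + 1) v
      (fun i => {x | κ x ∈ S i}) hG.conn hh hs ?_ (fun i => (hS2 i).1) ?_ ?_ ?_ ?_ ?_
    · intro i j hij
      rw [Set.disjoint_left]
      intro x hx hx'
      exact Set.disjoint_left.1 (hS1 i j hij) hx hx'
    · intro i
      obtain ⟨x, hx1, hx2⟩ := (hS2 i).2.1
      exact ⟨x, hx1, hx2⟩
    · intro i
      obtain ⟨x, hx1, hx2⟩ := (hS2 i).2.2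
      exact ⟨x, hx1, hx2⟩
    · intro x y p hp
      -- the centres of the cells met by `p`
      set A : ℕ → Set V := fun j => {z | ∃ w, z = κ w ∧ G.dist (p.getVert (j * ρ)) w ≤ ρ} with hA
      have hA1 : ∀ j, (A j).Finite ∧ (A j).ncard ≤ N₁ := by
        intro j
        refine Cut.card_le hc hG ρ 2 N₁ (fun v S => hN₁ V G hG ρ hρ v S) (p.getVert (j * ρ)) (A j)
          ?_ ?_
        · rintro _ ⟨w, rfl, _⟩ _ ⟨w', rfl, _⟩ hne
          exact hZ1 _ (hκ1 w).1 _ (hκ1 w').1 hne
        · rintro _ ⟨w, rfl, hw⟩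
          have h1 := hG.conn.dist_triangle (u := p.getVert (j * ρ)) (v := w) (w := κ w)
          have h2 := (hκ1 w).2
          omega
      have hU : (⋃ j ∈ Finset.range (k + 1), A j).Finite :=
        Set.Finite.biUnion (Finset.finite_toSet _) fun j _ => (hA1 j).1
      have hU2 : (⋃ j ∈ Finset.range (k + 1), A j).ncard ≤ (k + 1) * N₁ := by
        calc (⋃ j ∈ Finset.range (k + 1), A j).ncard
            ≤ ∑ j ∈ Finset.range (k + 1), (A j).ncard := Finset.set_ncard_biUnion_le _ _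
          _ ≤ ∑ j ∈ Finset.range (k + 1), N₁ := Finset.sum_le_sum fun j _ => (hA1 j).2
          _ = (k + 1) * N₁ := by simp
      refine le_trans ?_ hU2
      have : Nonempty V := ⟨v⟩
      choose! f hf1 hf2 using fun (i : Fin (N₀ ^ h * (4 * h * N₁ + 1) * h * k + 1))
        (hi : ∃ z ∈ p.support, z ∈ {x | κ x ∈ S i}) => hi
      refine Set.ncard_le_ncard_of_injOn (fun i => κ (f i)) ?_ ?_ hU
      · intro i hi
        have h1 := hf1 i hi
        obtain ⟨n, hn, hn2⟩ := SimpleGraph.Walk.mem_support_iff_exists_getVert.1 h1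
        simp only [Set.mem_iUnion]
        have hdiv : n / ρ ≤ k := by
          have h3 : n / ρ ≤ (k * ρ) / ρ := Nat.div_le_div_right (by omega)
          rwa [Nat.mul_div_cancel _ hρ] at h3
        refine ⟨n / ρ, Finset.mem_range.2 (by omega), f i, rfl, ?_⟩
        have h4 := Cut.dist_getVert hG.conn p (n / ρ * ρ) (n % ρ)
        have h5 : n / ρ * ρ + n % ρ = n := Nat.div_add_mod' n ρ
        rw [h5, hn] at h4
        have h6 := Nat.mod_lt n hρ
        omega
      · intro i hi j hj hij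
        by_contra hne
        have h1 := hf2 i hi
        have h2 := hf2 j hj
        simp only [Set.mem_ofPred_eq] at h1 h2 hij
        rw [hij] at h1
        exact Set.disjoint_left.1 (hS1 i j hne) h1 h2
    · obtain ⟨N', hN'1, hN'2⟩ := hNet V G (k * ρ)
      obtain ⟨hY1, hY2⟩ := Cut.card_le hc hG (k * ρ) (5 * h + 1) N₀
        (fun v S => hN₀ V G hG (k * ρ) hs v S) v {y | y ∈ N' ∧ G.dist v y ≤ (5 * h + 1) * (k * ρ)}
        (fun x hx y hy => hN'1 x hx.1 y hy.1) (fun x hx => hx.2)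
      refine ⟨hY1.toFinset, ?_, ?_⟩
      · rw [← Set.ncard_eq_toFinset_card _ hY1]
        exact hY2
      · intro x hx
        obtain ⟨y, hy1, hy2⟩ := hN'2 x
        refine ⟨y, ?_, ?_⟩
        · rw [Set.Finite.mem_toFinset]
          refine ⟨hy1, ?_⟩
          have h1 := hG.conn.dist_triangle (u := v) (v := x) (w := y)
          have h2 : (5 * h + 1) * (k * ρ) = 5 * h * (k * ρ) + k * ρ := by ring
          omega
        · rw [SimpleGraph.dist_comm]
          exact hy2
    · exact Cut.arith (N₀ ^ h) h N₁ k hk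

end Pool.Agent.N276.SD
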