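import Mathlib

/-!
# Simple random walk on graphs of uniform polynomial growth without a given minor: definitions
-/

set_option autoImplicit false

open Set Filter Topology
open scoped Classical

namespace Pool.Agent.N276.SD

variable {V : Type}

/-- the ball `B(v, n)` -/
def ball (G : SimpleGraph V) (v : V) (n : ℕ) : Set V := {u | G.dist v u ≤ n}

/-- a connected graph of uniform polynomial growth `n ^ d`, with the constants `c` and `C`: the
number of vertices in every ball of radius `n ≥ 1` is between `c n ^ d` and `C n ^ d` -/
structure Growth (G : SimpleGraph V) (c C d : ℝ) : Prop where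
  conn : G.Connected
  lower : ∀ (v : V) (n : ℕ), 1 ≤ n → c * (n : ℝ) ^ d < ((ball G v n).ncard : ℝ)
  upper : ∀ (v : V) (n : ℕ), 1 ≤ n → ((ball G v n).ncard : ℝ) < C * (n : ℝ) ^ d

/-- `H` is a minor of `G`: there are pairwise disjoint connected nonempty sets of vertices of `G`,
one for each vertex of `H`, with an edge of `G` between any two of them which belong to adjacent
vertices of `H` -/
def HasMinor {W : Type} (G : SimpleGraph V) (H : SimpleGraph W) : Prop :=
  ∃ B : W → Set V, (∀ w, (G.induce (B w)).Connected) ∧ (∀ w w', w ≠ w' → Disjoint (B w) (B w')) ∧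
    ∀ w w', H.Adj w w' → ∃ x ∈ B w, ∃ y ∈ B w', G.Adj x y

/-- Planar graphs: neither `K₅` nor `K₃,₃` is a minor. By the theorems of Kuratowski and Wagner for
finite graphs, and for countable graphs because a countable graph is planar if and only if its finite
subgraphs are, these are exactly the graphs which can be drawn in the plane. -/
def Planar (G : SimpleGraph V) : Prop :=
  ¬ HasMinor G (⊤ : SimpleGraph (Fin 5)) ∧
    ¬ HasMinor G (completeBipartiteGraph (Fin 3) (Fin 3))

/-- the probability that simple random walk started at `o` is at `x` at time `t` -/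
noncomputable def prob (G : SimpleGraph V) [G.LocallyFinite] (o : V) : ℕ → V → ℝ
  | 0, x => if x = o then 1 else 0
  | t + 1, x => ∑ y ∈ G.neighborFinset x, prob G o t y / (G.degree y : ℝ)

/-- the expected distance of simple random walk started at `o` from `o` at time `t` -/
noncomputable def expDist (G : SimpleGraph V) [G.LocallyFinite] (o : V) (t : ℕ) : ℝ :=
  ∑' x : V, prob G o t x * (G.dist o x : ℝ)

end Pool.Agent.N276.SD
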