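import Pool.Agent.N276.SD.Stm

/-!
# SD/16: entropy and energy (helper170 for helper276)
-/

set_option autoImplicit false

open Set Filter Topology
open scoped Classical

namespace Pool.Agent.N276.SD

namespace Entropy

/-- `log r ≥ 2 (r - 1) / (r + 1)` in the form needed here -/
lemma log_aux {x y : ℝ} (hy : 0 < y) (hxy : y ≤ x) :
    2 * (x - y) ≤ (x + y) * (Real.log x - Real.log y) := by
  have hx : 0 < x := lt_of_lt_of_le hy hxy
  have hs : 0 < x + y := by linarith
  set u : ℝ := (x - y) / (x + y) with hu
  have hu0 : 0 ≤ u := div_nonneg (by linarith) hs.le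
  have hu1 : u < 1 := by
    rw [hu, div_lt_one hs]
    linarith
  have h1 := Real.hasSum_log_sub_log_of_abs_lt_one (x := u) (by rw [abs_of_nonneg hu0]; exact hu1)
  have h2 := sum_le_hasSum {0} (fun k _ => by positivity) h1
  simp only [Finset.sum_singleton, Nat.cast_zero, mul_zero, zero_add, div_one, mul_one,
    pow_one] at h2
  have e1 : 1 + u = 2 * x / (x + y) := by rw [hu]; field_simp; ring
  have e2 : 1 - u = 2 * y / (x + y) := by rw [hu]; field_simp; ring
  rw [e1, e2, ← Real.log_div (by positivity) (by positivity)] at h2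
  have e3 : 2 * x / (x + y) / (2 * y / (x + y)) = x / y := by field_simp
  rw [e3, Real.log_div hx.ne' hy.ne', hu] at h2
  rw [← mul_div_assoc, div_le_iff₀ hs] at h2
  linarith

/-- the elementary inequality -/
lemma sqrt_aux {a b : ℝ} (ha : 0 < a) (hb : 0 < b) :
    (Real.sqrt a - Real.sqrt b) * (Real.sqrt a - Real.sqrt b) ≤
      1 / 4 * ((a - b) * (Real.log a - Real.log b)) := by
  wlog h : b ≤ a with H
  · have := H hb ha (le_of_not_ge h)
    linarith
  have hx := Real.sqrt_pos.2 ha
  have hy := Real.sqrt_pos.2 hb
  have hxy : Real.sqrt b ≤ Real.sqrt a := Real.sqrt_le_sqrt h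
  have h1 := log_aux hy hxy
  rw [Real.log_sqrt ha.le, Real.log_sqrt hb.le] at h1
  have h2 : a - b = (Real.sqrt a - Real.sqrt b) * (Real.sqrt a + Real.sqrt b) := by
    have e1 := Real.mul_self_sqrt ha.le
    have e2 := Real.mul_self_sqrt hb.le
    linarith
  have h3 : 0 ≤ Real.sqrt a - Real.sqrt b := by linarith
  rw [h2]
  have h4 := mul_le_mul_of_nonneg_left h1 h3
  linarith

end Entropy

open Entropy

theorem entropy : StmProb → StmIdentity → StmEntropy := by
  intro hP hI V G _ hG hdeg o t δ hδ
  obtain ⟨p0, pd, hfin, psum, g0, gd, gt, -⟩ := hP V G hG hdeg o t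
  have hid := hI V G hG hdeg o t (fun x => Real.log (gr G o t x + δ))
  have hsup : ∀ f : V → ℝ, Summable fun x => prob G o t x * f x := by
    intro f
    refine summable_of_hasFiniteSupport ((hfin o t).subset ?_)
    intro x hx
    refine pd x fun h => hx ?_
    simp [h]
  have h1 : Real.log δ ≤ ∑' x, prob G o t x * Real.log (gr G o t x + δ) := by
    calc Real.log δ = ∑' x, prob G o t x * Real.log δ := by
          rw [tsum_mul_right, psum, one_mul]
      _ ≤ _ := by
          refine (hsup fun _ => Real.log δ).tsum_le_tsum (fun x => ?_)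
            (hsup fun x => Real.log (gr G o t x + δ))
          refine mul_le_mul_of_nonneg_left ?_ (p0 x)
          exact Real.log_le_log hδ (by linarith [g0 x])
  have h2 : Real.log (gr G o t o + δ) ≤ Real.log (t + δ) :=
    Real.log_le_log (by linarith [g0 o]) (by linarith [gt o])
  have h3 : Real.log (1 + t / δ) = Real.log (t + δ) - Real.log δ := by
    rw [← Real.log_div (by positivity) hδ.ne']
    congr 1
    field_simp
    ring
  rw [h3]
  linarith

theorem energy : StmProb → StmEntropy → StmEnergy := by
  intro hP hE V G _ hG hdeg o t δ hδ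
  obtain ⟨-, -, hfin, -, g0, gd, -, -⟩ := hP V G hG hdeg o t
  have hent := hE V G hG hdeg o t δ hδ
  have pos : ∀ x, 0 < gr G o t x + δ := fun x => by linarith [g0 x]
  -- finite supports
  have hne : ∀ x, x ∉ ball G o t → ∀ y ∈ G.neighborFinset x, gr G o t x = gr G o t y := by
    intro x hx y hy
    rw [SimpleGraph.mem_neighborFinset] at hy
    have hx' : t < G.dist o x := by
      by_contra h
      exact hx (not_lt.1 h)
    have e1 : gr G o t x = 0 := by
      by_contra h
      have := gd x h
      omega
    have e2 : gr G o t y = 0 := by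
      by_contra h
      have h1 := gd y h
      have h2 : G.dist o x ≤ G.dist o y + G.dist y x := hG.dist_triangle
      have h3 : G.dist y x = 1 := SimpleGraph.dist_eq_one_iff_adj.2 hy.symm
      omega
    rw [e1, e2]
  have s1 : Summable fun x => ∑ y ∈ G.neighborFinset x,
      (Real.sqrt (gr G o t x + δ) - Real.sqrt (gr G o t y + δ)) *
        (Real.sqrt (gr G o t x + δ) - Real.sqrt (gr G o t y + δ)) := by
    refine summable_of_hasFiniteSupport ((hfin o t).subset ?_)
    intro x hx
    by_contra h
    apply hx
    refine Finset.sum_eq_zero fun y hy => ?_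
    rw [hne x h y hy, sub_self, zero_mul]
  have s2 : Summable fun x => ∑ y ∈ G.neighborFinset x,
      (gr G o t x - gr G o t y) *
        (Real.log (gr G o t x + δ) - Real.log (gr G o t y + δ)) := by
    refine summable_of_hasFiniteSupport ((hfin o t).subset ?_)
    intro x hx
    by_contra h
    apply hx
    refine Finset.sum_eq_zero fun y hy => ?_
    rw [hne x h y hy, sub_self, zero_mul]
  have h1 : dir G (fun x => Real.sqrt (gr G o t x + δ)) (fun x => Real.sqrt (gr G o t x + δ)) ≤
      1 / 4 * dir G (gr G o t) (fun x => Real.log (gr G o t x + δ)) := by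
    unfold dir
    rw [← tsum_mul_left]
    refine s1.tsum_le_tsum (fun x => ?_) (s2.mul_left _)
    rw [Finset.mul_sum]
    refine Finset.sum_le_sum fun y _ => ?_
    have := sqrt_aux (pos x) (pos y)
    rwa [show gr G o t x + δ - (gr G o t y + δ) = gr G o t x - gr G o t y by ring] at this
  linarith

end Pool.Agent.N276.SD
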