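import Pool.Agent.N276.SD.Stm

/-!
# The end of the proof: from the multiscale metric to the random walk
-/

set_option autoImplicit false

open Set Filter Topology
open scoped Classical

namespace Pool.Agent.N276.SD

namespace Final

variable {V : Type}

theorem ball_finite {G : SimpleGraph V} {c C d : ℝ} (hc : 0 < c) (hG : Growth G c C d) (v : V)
    (n : ℕ) : (ball G v n).Finite := by
  have h1 : (ball G v (n + 1)).Finite := by
    apply Set.finite_of_ncard_pos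
    have h := hG.lower v (n + 1) (by omega)
    have h2 : 0 < c * ((n + 1 : ℕ) : ℝ) ^ d := by positivity
    exact_mod_cast h2.trans h
  apply h1.subset
  intro u hu
  simp only [ball, Set.mem_ofPred_eq] at hu ⊢
  omega

theorem deg_lt {G : SimpleGraph V} [G.LocallyFinite] {c C d : ℝ} (hc : 0 < c)
    (hG : Growth G c C d) (x : V) : (G.degree x : ℝ) < C := by
  have h := hG.upper x 1 le_rfl
  simp only [Nat.cast_one, Real.one_rpow, mul_one] at h
  refine lt_of_le_of_lt ?_ h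
  have h2 : (↑(G.neighborFinset x) : Set V) ⊆ ball G x 1 := by
    intro y hy
    simp only [Finset.mem_coe, SimpleGraph.mem_neighborFinset] at hy
    simp only [ball, Set.mem_ofPred_eq]
    exact (SimpleGraph.dist_eq_one_iff_adj.mpr hy).le
  have h3 := Set.ncard_le_ncard h2 (ball_finite hc hG x 1)
  rw [Set.ncard_coe_finset, SimpleGraph.card_neighborFinset_eq_degree] at h3
  exact_mod_cast h3

theorem deg_pos {G : SimpleGraph V} [G.LocallyFinite] {c C d : ℝ} (hc : 0 < c) (hd : 0 < d)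
    (hG : Growth G c C d) (x : V) : 0 < G.degree x := by
  have h1 : ∃ n : ℕ, 1 ≤ n ∧ 1 ≤ c * (n : ℝ) ^ d := by
    have h2 : Tendsto (fun n : ℕ => c * (n : ℝ) ^ d) atTop atTop :=
      Tendsto.const_mul_atTop hc ((tendsto_rpow_atTop hd).comp tendsto_natCast_atTop_atTop)
    obtain ⟨n, hn⟩ := ((h2.eventually_ge_atTop 1).and (eventually_ge_atTop 1)).exists
    exact ⟨n, hn.2, hn.1⟩
  obtain ⟨n, hn1, hn⟩ := h1
  have h2 : 1 < (ball G x n).ncard := by
    have := hG.lower x n hn1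
    exact_mod_cast lt_of_le_of_lt hn this
  obtain ⟨a, b, ha, hb, hab⟩ := Set.one_lt_ncard_iff (ball_finite hc hG x n) |>.mp h2
  have : Nontrivial V := ⟨a, b, hab⟩
  exact hG.conn.preconnected.degree_pos_of_nontrivial x

theorem wlen_nonneg {G : SimpleGraph V} {w : V → ℝ} (hw : ∀ x, 0 ≤ w x) :
    ∀ {x y : V} (p : G.Walk x y), 0 ≤ wlen G w p
  | _, _, .nil => le_rfl
  | x, _, .cons _ p => add_nonneg (hw x) (wlen_nonneg hw p)

theorem wlen_concat {G : SimpleGraph V} {w : V → ℝ} :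
    ∀ {x y z : V} (p : G.Walk x y) (h : G.Adj y z), wlen G w (p.concat h) = wlen G w p + w y
  | _, _, _, .nil, h => by
      simp [SimpleGraph.Walk.concat, wlen]
  | x, _, _, .cons _ p, h => by
      rw [SimpleGraph.Walk.concat_cons, wlen, wlen, wlen_concat p h]
      ring

theorem wd_le {G : SimpleGraph V} {w : V → ℝ} (hw : ∀ x, 0 ≤ w x) {x y : V} (p : G.Walk x y) :
    wd G w x y ≤ wlen G w p :=
  csInf_le ⟨0, by rintro _ ⟨q, rfl⟩; exact wlen_nonneg hw q⟩ ⟨p, rfl⟩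

theorem le_wd {G : SimpleGraph V} (hG : G.Connected) {w : V → ℝ} {x y : V} {b : ℝ}
    (h : ∀ p : G.Walk x y, b ≤ wlen G w p) : b ≤ wd G w x y := by
  obtain ⟨p⟩ := hG.preconnected x y
  exact le_csInf ⟨_, ⟨p, rfl⟩⟩ (by rintro _ ⟨q, rfl⟩; exact h q)

theorem wd_self {G : SimpleGraph V} (hG : G.Connected) {w : V → ℝ} (hw : ∀ x, 0 ≤ w x) (x : V) :
    wd G w x x = 0 :=
  le_antisymm (wd_le hw (SimpleGraph.Walk.nil : G.Walk x x)) (le_wd hG fun p => wlen_nonneg hw p)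

theorem wd_adj {G : SimpleGraph V} (hG : G.Connected) {w : V → ℝ} (hw : ∀ x, 0 ≤ w x) {o x y : V}
    (h : G.Adj x y) : wd G w o y ≤ wd G w o x + w x := by
  have h1 : wd G w o y - w x ≤ wd G w o x := by
    apply le_wd hG
    intro p
    have := wd_le hw (p.concat h)
    rw [wlen_concat] at this
    linarith
  linarith

theorem bs_eq {G : SimpleGraph V} {v : V} {n : ℕ} (hf : (ball G v n).Finite) (f : V → ℝ) :
    bs G v n f = ∑ u ∈ hf.toFinset, f u :=
  finsum_mem_eq_finite_toFinset_sum f hf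

theorem bs_growth {G : SimpleGraph V} [G.LocallyFinite] {c C d : ℝ} (hc : 0 < c) (hd : 0 < d)
    (hG : Growth G c C d) {g : V → ℝ} (o : V) (t : ℕ) (ht : 1 ≤ t)
    (hgf : ∀ x, g x ≠ 0 → G.dist o x ≤ t) (hgs : ∑' x, g x ≤ t) (s : ℕ) (hs : s ≤ t) :
    bs G o (t + s) (fun x => g x + ((t : ℝ) ^ d)⁻¹) ≤ (1 + C * 2 ^ d) * t := by
  have ht0 : (0 : ℝ) < t := by exact_mod_cast ht
  have ht1 : (1 : ℝ) ≤ t := by exact_mod_cast ht
  have htd : 0 < (t : ℝ) ^ d := by positivity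
  have hC : 0 < C := by
    have h1 := hG.lower o 1 le_rfl
    have h2 := hG.upper o 1 le_rfl
    simp only [Nat.cast_one, Real.one_rpow, mul_one] at h1 h2
    linarith
  rw [bs_eq (ball_finite hc hG o (t + s)), Finset.sum_add_distrib, Finset.sum_const, nsmul_eq_mul]
  have h1 : ∑ x ∈ (ball_finite hc hG o (t + s)).toFinset, g x ≤ t := by
    refine le_trans (le_of_eq ?_) hgs
    symm
    apply tsum_eq_sum
    intro x hx
    by_contra h
    apply hx
    rw [Set.Finite.mem_toFinset]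
    exact (hgf x h).trans (Nat.le_add_right _ _)
  have h2 : (((ball_finite hc hG o (t + s)).toFinset.card : ℕ) : ℝ) * ((t : ℝ) ^ d)⁻¹ ≤
      C * 2 ^ d := by
    rw [← Set.ncard_eq_toFinset_card _ (ball_finite hc hG o (t + s))]
    have h3 := hG.upper o (t + s) (by omega)
    have h4 : ((t + s : ℕ) : ℝ) ^ d ≤ (2 * t : ℝ) ^ d := by
      apply Real.rpow_le_rpow (by positivity) _ hd.le
      push_cast
      have : (s : ℝ) ≤ t := by exact_mod_cast hs
      linarith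
    rw [Real.mul_rpow (by norm_num) ht0.le] at h4
    rw [← div_eq_mul_inv, div_le_iff₀ htd]
    nlinarith
  have h5 : C * 2 ^ d ≤ C * 2 ^ d * t := by
    have : 0 < C * (2 : ℝ) ^ d := by positivity
    nlinarith
  nlinarith

/-- the constant -/
noncomputable def cst (c C d A : ℝ) : ℝ :=
  Real.sqrt (128 * (⌈C⌉₊ : ℝ) * (2 * A * (1 + C * 2 ^ d) / c + A)) + A

theorem cst_nonneg {c C d A : ℝ} (hA : 0 ≤ A) : 0 ≤ cst c C d A :=
  add_nonneg (Real.sqrt_nonneg _) hA

theorem main_est (hProb : StmProb) (hId : StmIdentity) (hEn : StmEnergy) (hCS : StmCS)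
    (hTr : StmTrace) {c C d A a : ℝ} (hc : 0 < c) (hd : 0 < d) (hA : 0 < A) (ha : 1 ≤ a)
    (G : SimpleGraph V) [G.LocallyFinite] (hG : Growth G c C d) (s n : ℕ) (hs1 : 1 ≤ s)
    (w : V → ℝ) (hw1 : ∀ x, 1 ≤ w x) (hw2 : ∀ x y, G.Adj x y → w y ≤ 8 * w x)
    (hw3 : ∀ (x y : V) (p : G.Walk x y), a ^ n * ((G.dist x y : ℝ) - A * s) ≤ wlen G w p)
    (hw4 : ∀ v, bs G v s (fun x => w x ^ 2) ≤ A * a ^ n * (s : ℝ) ^ d)
    (o : V) (t : ℕ) (ht : 1 ≤ t) (hst : (s : ℝ) ^ (d + 1) ≤ t) :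
    expDist G o t ≤ cst c C d A * ((Real.sqrt a)⁻¹) ^ n * Real.sqrt t *
      (1 + Real.log (1 + (t : ℝ) ^ (d + 1))) + cst c C d A * s := by
  have ht0 : (0 : ℝ) < t := by exact_mod_cast ht
  have ht1 : (1 : ℝ) ≤ t := by exact_mod_cast ht
  have htd : 0 < (t : ℝ) ^ d := by positivity
  have hs0 : (0 : ℝ) < s := by exact_mod_cast hs1
  have hs1' : (1 : ℝ) ≤ s := by exact_mod_cast hs1
  have hsd : 0 < (s : ℝ) ^ d := by positivity
  have ha0 : 0 < a := by linarith
  have han : 0 < a ^ n := by positivity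
  have hC : 0 < C := by
    have h1 := hG.lower o 1 le_rfl
    have h2 := hG.upper o 1 le_rfl
    simp only [Nat.cast_one, Real.one_rpow, mul_one] at h1 h2
    linarith
  have hst' : s ≤ t := by
    have h1 : (s : ℝ) ≤ (s : ℝ) ^ (d + 1) := by
      calc (s : ℝ) = (s : ℝ) ^ (1 : ℝ) := (Real.rpow_one _).symm
        _ ≤ (s : ℝ) ^ (d + 1) := Real.rpow_le_rpow_of_exponent_le hs1' (by linarith)
    exact_mod_cast h1.trans hst
  have hw0 : ∀ x, 0 ≤ w x := fun x => by linarith [hw1 x]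
  have hdeg : ∀ x, 0 < G.degree x := deg_pos hc hd hG
  obtain ⟨hp0, hpf, hbf, hp1, hg0, hgf, hgt, hgs⟩ := hProb V G hG.conn hdeg o t
  set δ : ℝ := ((t : ℝ) ^ d)⁻¹ with hδ
  have hδ0 : 0 < δ := by positivity
  have hδt : 1 + t / δ = 1 + (t : ℝ) ^ (d + 1) := by
    rw [hδ, div_inv_eq_mul, Real.rpow_add ht0, Real.rpow_one, mul_comm]
  set Λ : ℝ := Real.log (1 + (t : ℝ) ^ (d + 1)) with hΛ
  have hΛ0 : 0 ≤ Λ := Real.log_nonneg (by have : 0 < (t : ℝ) ^ (d + 1) := by positivity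
                                          linarith)
  set g : V → ℝ := gr G o t with hg
  set f : V → ℝ := wd G w o with hf
  have hfo : f o = 0 := wd_self hG.conn hw0 o
  have hfa : ∀ x y, G.Adj x y → |f x - f y| ≤ max (w x) (w y) := by
    intro x y hxy
    have h1 : f y ≤ f x + w x := wd_adj hG.conn hw0 hxy
    have h2 : f x ≤ f y + w y := wd_adj hG.conn hw0 hxy.symm
    rw [abs_le]
    constructor
    · linarith [le_max_left (w x) (w y)]
    · linarith [le_max_right (w x) (w y)]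
  have hfd : ∀ x, a ^ n * ((G.dist o x : ℝ) - A * s) ≤ f x := fun x =>
    le_wd hG.conn fun p => hw3 o x p
  -- the energy of the square root
  have hE := hEn V G hG.conn hdeg o t δ hδ0
  rw [hδt] at hE
  -- the trace inequality
  have hfin : {x | Real.sqrt (g x + δ) ≠ Real.sqrt δ}.Finite := by
    apply (hbf o t).subset
    intro x hx
    simp only [Set.mem_ofPred_eq] at hx
    have h1 : g x ≠ 0 := by
      intro h
      apply hx
      rw [h, zero_add]
    have := hgf x h1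
    simp only [ball, Set.mem_ofPred_eq]
    omega
  have hT := hTr V G c C d hc hG s hs1 w _ hw4 (fun x => Real.sqrt (g x + δ)) (Real.sqrt δ) hfin o t
  have hsq : ∀ x, Real.sqrt (g x + δ) ^ 2 = g x + δ := fun x =>
    Real.sq_sqrt (by have := hg0 x; positivity)
  simp only [hsq] at hT
  have hgr := bs_growth hc hd hG o t ht (fun x hx => by have := hgf x hx; omega) hgs s hst'
  rw [← hδ] at hgr
  set S : ℝ := bs G o t (fun x => w x ^ 2 * (g x + δ)) with hS
  have hS1 : S ≤ a ^ n * t * (2 * A * (1 + C * 2 ^ d) / c + A) * (1 + Λ) := by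
    have h1 : 2 * (A * a ^ n * (s : ℝ) ^ d) / (c * (s : ℝ) ^ d) = 2 * A * a ^ n / c := by
      field_simp
    rw [h1] at hT
    have h2 : 2 * (s : ℝ) * (A * a ^ n * (s : ℝ) ^ d) = 2 * (A * a ^ n * (s : ℝ) ^ (d + 1)) := by
      rw [Real.rpow_add hs0, Real.rpow_one]
      ring
    rw [h2] at hT
    have h3 : 2 * A * a ^ n / c * bs G o (t + s) (fun x => g x + δ) ≤
        2 * A * a ^ n / c * ((1 + C * 2 ^ d) * t) :=
      mul_le_mul_of_nonneg_left hgr (by positivity)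
    have h4 : 2 * (A * a ^ n * (s : ℝ) ^ (d + 1)) *
        dir G (fun x => Real.sqrt (g x + δ)) (fun x => Real.sqrt (g x + δ)) ≤
          2 * (A * a ^ n * t) * (Λ / 2) := by
      have h5 : 2 * (A * a ^ n * (s : ℝ) ^ (d + 1)) *
        dir G (fun x => Real.sqrt (g x + δ)) (fun x => Real.sqrt (g x + δ)) ≤
          2 * (A * a ^ n * (s : ℝ) ^ (d + 1)) * (Λ / 2) :=
        mul_le_mul_of_nonneg_left hE (by positivity)
      refine h5.trans ?_
      apply mul_le_mul_of_nonneg_right _ (by positivity)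
      apply mul_le_mul_of_nonneg_left _ (by norm_num)
      exact mul_le_mul_of_nonneg_left hst (by positivity)
    have h6 : 0 ≤ a ^ n * t * (2 * A * (1 + C * 2 ^ d) / c) * Λ := by positivity
    have h7 : 0 ≤ a ^ n * t * A := by positivity
    have h8 : 2 * A * a ^ n / c * ((1 + C * 2 ^ d) * t) =
      a ^ n * t * (2 * A * (1 + C * 2 ^ d) / c) := by ring
    nlinarith [hT, h3, h4, h6, h7, h8]
  have hS0 : 0 ≤ S := by
    rw [hS, bs_eq (hbf o t)]
    apply Finset.sum_nonneg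
    intro x _
    have := hg0 x
    positivity
  -- Cauchy-Schwarz
  have hD : ∀ x, G.degree x ≤ ⌈C⌉₊ := by
    intro x
    have h1 := deg_lt hc hG x
    have h2 := Nat.le_ceil C
    exact_mod_cast (h1.le.trans h2)
  have hcs := hCS V G hG.conn hdeg ⌈C⌉₊ hD o t δ hδ0 w f hw0 hw2 hfa
  rw [hδt, ← hΛ, ← hg, ← hS] at hcs
  set C₂ : ℝ := 2 * A * (1 + C * 2 ^ d) / c + A with hC₂
  have hC₂0 : 0 ≤ C₂ := by positivity
  have hdir : |dir G g f| ≤ Real.sqrt (128 * (⌈C⌉₊ : ℝ) * C₂) * (Real.sqrt a) ^ n *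
      Real.sqrt t * (1 + Λ) := by
    apply abs_le_of_sq_le_sq _ (by positivity)
    rw [mul_pow, mul_pow, mul_pow, Real.sq_sqrt (by positivity), Real.sq_sqrt (by positivity),
      ← pow_mul, mul_comm n 2, pow_mul, Real.sq_sqrt (by positivity)]
    refine hcs.trans ?_
    have h1 : 128 * (⌈C⌉₊ : ℝ) * S ≤ 128 * (⌈C⌉₊ : ℝ) * (a ^ n * t * C₂ * (1 + Λ)) :=
      mul_le_mul_of_nonneg_left hS1 (by positivity)
    calc Λ * (128 * (⌈C⌉₊ : ℝ) * S) ≤ (1 + Λ) * (128 * (⌈C⌉₊ : ℝ) * (a ^ n * t * C₂ * (1 + Λ))) :=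
          mul_le_mul (by linarith) h1 (by positivity) (by positivity)
      _ = 128 * (⌈C⌉₊ : ℝ) * C₂ * a ^ n * t * (1 + Λ) ^ 2 := by ring
  -- the expectation of f
  have hid := hId V G hG.conn hdeg o t f
  rw [hfo] at hid
  have hEf : ∑' x, prob G o t x * f x ≤ |dir G g f| / 2 := by
    rw [hid]
    linarith [neg_abs_le (dir G g f)]
  have hsum : ∀ u : V → ℝ, ∑' x, prob G o t x * u x =
      ∑ x ∈ (hbf o t).toFinset, prob G o t x * u x := by
    intro u
    apply tsum_eq_sum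
    intro x hx
    by_contra h
    apply hx
    rw [Set.Finite.mem_toFinset]
    exact hpf x (fun h' => h (by rw [h', zero_mul]))
  have hsum1 : ∑ x ∈ (hbf o t).toFinset, prob G o t x = 1 := by
    have := hsum (fun _ => 1)
    simp only [mul_one] at this
    rw [← this, hp1]
  have hexp : a ^ n * (expDist G o t - A * s) ≤ ∑' x, prob G o t x * f x := by
    rw [hsum f, expDist, hsum (fun x => (G.dist o x : ℝ))]
    have h1 : a ^ n * (∑ x ∈ (hbf o t).toFinset, prob G o t x * (G.dist o x : ℝ) - A * s) =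
        ∑ x ∈ (hbf o t).toFinset, prob G o t x * (a ^ n * ((G.dist o x : ℝ) - A * s)) := by
      have h2 : A * (s : ℝ) = ∑ x ∈ (hbf o t).toFinset, prob G o t x * (A * s) := by
        rw [← Finset.sum_mul, hsum1, one_mul]
      conv_lhs => rw [h2]
      rw [← Finset.sum_sub_distrib, Finset.mul_sum]
      apply Finset.sum_congr rfl
      intro x _
      ring
    rw [h1]
    apply Finset.sum_le_sum
    intro x _
    exact mul_le_mul_of_nonneg_left (hfd x) (hp0 x)
  have hfinal : expDist G o t - A * s ≤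
      Real.sqrt (128 * (⌈C⌉₊ : ℝ) * C₂) * ((Real.sqrt a)⁻¹) ^ n * Real.sqrt t * (1 + Λ) := by
    have hsa : 0 < Real.sqrt a := Real.sqrt_pos.mpr ha0
    have h1 : a ^ n = (Real.sqrt a) ^ n * (Real.sqrt a) ^ n := by
      rw [← mul_pow, Real.mul_self_sqrt ha0.le]
    have h2 : a ^ n * (expDist G o t - A * s) ≤
        Real.sqrt (128 * (⌈C⌉₊ : ℝ) * C₂) * (Real.sqrt a) ^ n * Real.sqrt t * (1 + Λ) := by
      have h3 := hexp.trans hEf
      have h4 : |dir G g f| / 2 ≤ |dir G g f| := by linarith [abs_nonneg (dir G g f)]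
      exact (h3.trans h4).trans hdir
    have h5 : Real.sqrt (128 * (⌈C⌉₊ : ℝ) * C₂) * (Real.sqrt a) ^ n * Real.sqrt t * (1 + Λ) =
        a ^ n * (Real.sqrt (128 * (⌈C⌉₊ : ℝ) * C₂) * ((Real.sqrt a)⁻¹) ^ n * Real.sqrt t *
          (1 + Λ)) := by
      rw [h1, inv_pow]
      field_simp
    rw [h5] at h2
    exact le_of_mul_le_mul_left h2 han
  have hq : 0 ≤ ((Real.sqrt a)⁻¹) ^ n * Real.sqrt t * (1 + Λ) := by positivity
  have hsq0 : 0 ≤ Real.sqrt (128 * (⌈C⌉₊ : ℝ) * C₂) := Real.sqrt_nonneg _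
  rw [cst, ← hC₂]
  nlinarith [hfinal, mul_nonneg hA.le hq, mul_nonneg hsq0 hs0.le]

theorem main_bic (hM : StmMetric) (hProb : StmProb) (hId : StmIdentity) (hEn : StmEnergy)
    (hCS : StmCS) (hTr : StmTrace) (hAs : StmAsym) {c C d : ℝ} (hc : 0 < c) (hd : 2 < d) (h : ℕ)
    (hh : 2 ≤ h) : ∃ α K : ℝ, α < 1 / 2 ∧ ∀ (V : Type) (G : SimpleGraph V) [G.LocallyFinite],
      Growth G c C d → ¬ Bic G h → ∀ (o : V) (t : ℕ), 1 ≤ t → expDist G o t ≤ K * (t : ℝ) ^ α := by
  obtain ⟨K, L, A, hK, hL, hA, hmet⟩ := hM c C d h hc hd hh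
  have hK0 : (0 : ℝ) < K := by exact_mod_cast hK
  have ha : (1 : ℝ) < 1 + 1 / (2 * (K : ℝ)) := by
    have : (0 : ℝ) < 1 / (2 * (K : ℝ)) := by positivity
    linarith
  have hq0 : 0 < (Real.sqrt (1 + 1 / (2 * (K : ℝ))))⁻¹ := by positivity
  have hq1 : (Real.sqrt (1 + 1 / (2 * (K : ℝ))))⁻¹ < 1 := by
    apply inv_lt_one_of_one_lt₀
    rw [Real.lt_sqrt (by norm_num)]
    linarith
  obtain ⟨α, K', hα, hfin⟩ := hAs L _ d (cst c C d A) hL hq0 hq1 (by linarith)
    (cst_nonneg hA.le)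
  refine ⟨α, K', hα, ?_⟩
  intro V G _ hG hB o t ht
  obtain ⟨n, hn, hle⟩ := hfin t ht
  obtain ⟨w, hw1, hw2, hw3, hw4⟩ := hmet V G hG hB n
  refine le_trans ?_ hle
  have hcast : ((L ^ n : ℕ) : ℝ) = (L : ℝ) ^ n := by push_cast; rfl
  have := main_est hProb hId hEn hCS hTr hc (by linarith) hA ha.le G hG (L ^ n) n
    (Nat.one_le_pow _ _ (by omega)) w hw1 hw2 (by rw [hcast]; exact hw3)
    (by rw [hcast]; exact hw4) o t ht (by rw [hcast]; exact hn)
  rw [hcast] at this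
  exact this

end Final

theorem final (hM : StmMetric) (hProb : StmProb) (hId : StmIdentity) (hEn : StmEnergy)
    (hCS : StmCS) (hTr : StmTrace) (hAs : StmAsym) (hBM : StmBicMinor) : StmFinal := by
  intro c C d W _ H hc hd
  obtain ⟨α₀, K₀, hα₀, h₀⟩ := Final.main_bic hM hProb hId hEn hCS hTr hAs (C := C) hc hd 3
    (by norm_num)
  obtain ⟨α₁, K₁, hα₁, h₁⟩ := Final.main_bic hM hProb hId hEn hCS hTr hAs (C := C) hc hd
    (max 2 (Nat.card W)) (le_max_left _ _)
  refine ⟨max α₀ α₁, max 0 (max K₀ K₁), max_lt hα₀ hα₁, ?_⟩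
  intro V G _ hG hpl o t ht
  have ht1 : (1 : ℝ) ≤ t := by exact_mod_cast ht
  have key : ∀ α K : ℝ, α ≤ max α₀ α₁ → K ≤ max 0 (max K₀ K₁) →
      K * (t : ℝ) ^ α ≤ max 0 (max K₀ K₁) * (t : ℝ) ^ (max α₀ α₁) := by
    intro α K h1 h2
    have h3 : (0 : ℝ) ≤ (t : ℝ) ^ α := by positivity
    calc K * (t : ℝ) ^ α ≤ max 0 (max K₀ K₁) * (t : ℝ) ^ α := mul_le_mul_of_nonneg_right h2 h3
      _ ≤ _ := mul_le_mul_of_nonneg_left (Real.rpow_le_rpow_of_exponent_le ht1 h1)
          (le_max_left _ _)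
  rcases hpl with hpl | hpl
  · exact (h₀ V G hG hpl.2 o t ht).trans
      (key α₀ K₀ (le_max_left _ _) ((le_max_left _ _).trans (le_max_right _ _)))
  · have hB : ¬ Bic G (max 2 (Nat.card W)) := fun hb =>
      hpl (hBM V W G H _ (le_max_right _ _) hb)
    exact (h₁ V G hG hB o t ht).trans
      (key α₁ K₁ (le_max_right _ _) ((le_max_right _ _).trans (le_max_right _ _)))

end Pool.Agent.N276.SD
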