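import Pool.Agent.N276.SD.Stm

/-!
# The identity for the expectation of `f(X_t)`
-/

set_option autoImplicit false

open Set Filter Topology
open scoped Classical

namespace Pool.Agent.N276.SD

namespace Identity

variable {V : Type} (G : SimpleGraph V) [G.LocallyFinite]

/-- sums over ordered pairs of neighbours as finite sums -/
theorem tsum_pairs (B : Finset V) (h : V → V → ℝ)
    (hB : ∀ x y, G.Adj x y → h x y ≠ 0 → x ∈ B ∧ y ∈ B) :
    ∑' x, ∑ y ∈ G.neighborFinset x, h x y =
      ∑ x ∈ B, ∑ y ∈ B, if G.Adj x y then h x y else 0 := by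
  rw [tsum_eq_sum (s := B)]
  · refine Finset.sum_congr rfl fun x _ => ?_
    rw [← Finset.sum_filter]
    symm
    refine Finset.sum_subset ?_ ?_
    · intro y hy
      rw [Finset.mem_filter] at hy
      rw [SimpleGraph.mem_neighborFinset]
      exact hy.2
    · intro y hy hy2
      rw [SimpleGraph.mem_neighborFinset] at hy
      by_contra h0
      exact hy2 (Finset.mem_filter.2 ⟨(hB x y hy h0).2, hy⟩)
  · intro x hx
    refine Finset.sum_eq_zero fun y hy => ?_
    rw [SimpleGraph.mem_neighborFinset] at hy
    by_contra h0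
    exact hx (hB x y hy h0).1

variable {G}

/-- functions supported in a ball -/
theorem pairs_ball (hG : G.Connected) {o : V} {r : ℕ} {B : Finset V}
    (hB : ∀ x, G.dist o x ≤ r + 1 → x ∈ B) {g : V → ℝ} (hg : ∀ x, g x ≠ 0 → G.dist o x ≤ r)
    {x y : V} (h : G.Adj x y) (h0 : g x ≠ 0 ∨ g y ≠ 0) : x ∈ B ∧ y ∈ B := by
  have h1 : G.dist x y = 1 := SimpleGraph.dist_eq_one_iff_adj.2 h
  have h2 : G.dist y x = 1 := SimpleGraph.dist_eq_one_iff_adj.2 h.symm
  have h3 := hG.dist_triangle (u := o) (v := x) (w := y)
  have h4 := hG.dist_triangle (u := o) (v := y) (w := x)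
  rcases h0 with h0 | h0
  · have := hg x h0
    exact ⟨hB x (by omega), hB y (by omega)⟩
  · have := hg y h0
    exact ⟨hB x (by omega), hB y (by omega)⟩

theorem dir_eq (hG : G.Connected) {o : V} {r : ℕ} {B : Finset V}
    (hB : ∀ x, G.dist o x ≤ r + 1 → x ∈ B) {g : V → ℝ} (hg : ∀ x, g x ≠ 0 → G.dist o x ≤ r)
    (f : V → ℝ) : dir G g f =
      ∑ x ∈ B, ∑ y ∈ B, if G.Adj x y then (g x - g y) * (f x - f y) else 0 := by
  unfold dir
  refine tsum_pairs G B (fun x y => (g x - g y) * (f x - f y)) fun x y hxy h0 => ?_
  refine pairs_ball hG hB hg hxy ?_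
  by_contra hc
  push Not at hc
  apply h0
  simp only [hc.1, hc.2, sub_zero, zero_mul]

end Identity

theorem identity : StmProb → StmIdentity := by
  intro hP V G _ hG hdeg o t f
  induction t with
  | zero =>
    have h1 : ∑' x, prob G o 0 x * f x = f o := by
      rw [tsum_eq_single o]
      · simp [prob]
      · intro x hx
        simp [prob, hx]
    have h2 : dir G (gr G o 0) f = 0 := by
      unfold dir gr
      simp
    rw [h1, h2]
    ring
  | succ t ih =>
    obtain ⟨-, p1, p2, -, -, p3, -⟩ := hP V G hG hdeg o t
    obtain ⟨-, q1, -, -, -, q3, -⟩ := hP V G hG hdeg o (t + 1)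
    set B : Finset V := (p2 o (t + 2)).toFinset with hBd
    have hB : ∀ x, G.dist o x ≤ (t + 1) + 1 → x ∈ B := by
      intro x hx
      rw [hBd, Set.Finite.mem_toFinset]
      exact hx
    set g : V → ℝ := fun x => prob G o t x / (G.degree x : ℝ) with hg
    have hgs : ∀ x, g x ≠ 0 → G.dist o x ≤ t + 1 := by
      intro x hx
      have : prob G o t x ≠ 0 := by
        intro h0
        apply hx
        simp only [hg, h0, zero_div]
      exact (p1 x this).trans (by omega)
    have hd1 := Identity.dir_eq hG hB hgs f
    have hd2 := Identity.dir_eq hG hB (g := gr G o t)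
      (fun x hx => by have := p3 x hx; omega) f
    have hd3 := Identity.dir_eq hG hB (g := gr G o (t + 1))
      (fun x hx => by have := q3 x hx; omega) f
    have hgr : ∀ x, gr G o (t + 1) x = gr G o t x + g x := by
      intro x
      unfold gr
      rw [Finset.sum_range_succ]
    -- linearity
    have hlin : dir G (gr G o (t + 1)) f = dir G (gr G o t) f + dir G g f := by
      rw [hd1, hd2, hd3, ← Finset.sum_add_distrib]
      refine Finset.sum_congr rfl fun x _ => ?_
      rw [← Finset.sum_add_distrib]
      refine Finset.sum_congr rfl fun y _ => ?_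
      split_ifs
      · rw [hgr, hgr]; ring
      · ring
    -- the sums
    have s1 : ∑' x, prob G o t x * f x = ∑ x ∈ B, prob G o t x * f x := by
      rw [tsum_eq_sum]
      intro x hx
      have : prob G o t x = 0 := by
        by_contra h0
        exact hx (hB x ((p1 x h0).trans (by omega)))
      rw [this, zero_mul]
    have s2 : ∑' x, prob G o (t + 1) x * f x = ∑ x ∈ B, prob G o (t + 1) x * f x := by
      rw [tsum_eq_sum]
      intro x hx
      have : prob G o (t + 1) x = 0 := by
        by_contra h0
        exact hx (hB x ((q1 x h0).trans (by omega)))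
      rw [this, zero_mul]
    have e1 : ∀ x, prob G o (t + 1) x - prob G o t x = ∑ y ∈ G.neighborFinset x, (g y - g x) := by
      intro x
      rw [Finset.sum_sub_distrib, Finset.sum_const, SimpleGraph.card_neighborFinset_eq_degree,
        nsmul_eq_mul]
      have h1 : (G.degree x : ℝ) * g x = prob G o t x := by
        have : (0 : ℝ) < G.degree x := by exact_mod_cast hdeg x
        rw [hg]
        field_simp
      rw [h1]
      rfl
    have key : ∑' x, ∑ y ∈ G.neighborFinset x, (g y - g x) * f x =
        ∑ x ∈ B, ∑ y ∈ B, if G.Adj x y then (g y - g x) * f x else 0 := by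
      refine Identity.tsum_pairs G B (fun x y => (g y - g x) * f x) fun x y hxy h0 => ?_
      refine Identity.pairs_ball hG hB hgs hxy ?_
      by_contra hc
      push Not at hc
      apply h0
      simp only [hc.1, hc.2, sub_zero, zero_mul]
    have key2 : ∑ x ∈ B, ∑ y ∈ B, (if G.Adj x y then (g y - g x) * f x else 0) =
        ∑ x ∈ B, ∑ y ∈ B, if G.Adj x y then (g x - g y) * f y else 0 := by
      rw [Finset.sum_comm]
      refine Finset.sum_congr rfl fun x _ => Finset.sum_congr rfl fun y _ => ?_
      simp only [G.adj_comm y x]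
    have key3 : ∑ x ∈ B, ∑ y ∈ B, (if G.Adj x y then (g y - g x) * f x else 0) =
        -(dir G g f) / 2 := by
      have h1 : ∑ x ∈ B, ∑ y ∈ B, (if G.Adj x y then (g y - g x) * f x else 0) +
          ∑ x ∈ B, ∑ y ∈ B, (if G.Adj x y then (g x - g y) * f y else 0) = -(dir G g f) := by
        rw [hd1, ← Finset.sum_add_distrib, ← Finset.sum_neg_distrib]
        refine Finset.sum_congr rfl fun x _ => ?_
        rw [← Finset.sum_add_distrib, ← Finset.sum_neg_distrib]
        refine Finset.sum_congr rfl fun y _ => ?_
        split_ifs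
        · ring
        · ring
      rw [← key2] at h1
      linarith
    have e2 : ∑ x ∈ B, prob G o (t + 1) x * f x - ∑ x ∈ B, prob G o t x * f x =
        ∑' x, ∑ y ∈ G.neighborFinset x, (g y - g x) * f x := by
      rw [tsum_eq_sum (s := B), ← Finset.sum_sub_distrib]
      · refine Finset.sum_congr rfl fun x _ => ?_
        rw [← sub_mul, e1, Finset.sum_mul]
      · intro x hx
        rw [← Finset.sum_mul, ← e1]
        have h1 : prob G o (t + 1) x = 0 := by
          by_contra h0
          exact hx (hB x ((q1 x h0).trans (by omega)))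
        have h2 : prob G o t x = 0 := by
          by_contra h0
          exact hx (hB x ((p1 x h0).trans (by omega)))
        rw [h1, h2]; ring
    rw [key, key3] at e2
    rw [s2, hlin]
    rw [s1] at ih
    linarith

end Pool.Agent.N276.SD
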