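import Pool.Agent.N276.SD.Stm

/-!
# One scale
-/

set_option autoImplicit false

open Set Filter Topology
open scoped Classical

namespace Pool.Agent.N276.SD

namespace Level

theorem choose_k (c C d : ℝ) (C₁ C₃ : ℕ) (hc : 0 < c) (hd : 2 < d) :
    ∃ k : ℕ, 2 ≤ k ∧ 24 * C₁ * C * C₃ * (12 : ℝ) ^ d * (k : ℝ) ^ 2 ≤ c * (k : ℝ) ^ d := by
  have h1 : Tendsto (fun k : ℕ => (k : ℝ) ^ (d - 2)) atTop atTop :=
    (tendsto_rpow_atTop (by linarith : 0 < d - 2)).comp tendsto_natCast_atTop_atTop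
  obtain ⟨k, hk1, hk2⟩ := ((h1.eventually_ge_atTop
    (24 * C₁ * C * C₃ * (12 : ℝ) ^ d / c)).and (eventually_ge_atTop 2)).exists
  refine ⟨k, hk2, ?_⟩
  have hk0 : (0 : ℝ) < k := by exact_mod_cast (by omega : 0 < k)
  rw [div_le_iff₀ hc] at hk1
  have h2 : (k : ℝ) ^ d = (k : ℝ) ^ (d - 2) * (k : ℝ) ^ 2 := by
    rw [← Real.rpow_natCast (k : ℝ) 2, ← Real.rpow_add hk0]
    congr 1
    push_cast
    ring
  rw [h2]
  have h3 := mul_le_mul_of_nonneg_right hk1 (by positivity : (0 : ℝ) ≤ (k : ℝ) ^ 2)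
  linarith

theorem ball_finite {V : Type} {G : SimpleGraph V} {c C d : ℝ} (hc : 0 < c)
    (hG : Growth G c C d) (v : V) (n : ℕ) : (ball G v n).Finite := by
  have h1 : ∀ n : ℕ, 1 ≤ n → (ball G v n).Finite := by
    intro n hn
    apply Set.finite_of_ncard_ne_zero
    intro h0
    have h2 := hG.lower v n hn
    rw [h0] at h2
    have h3 : 0 ≤ c * (n : ℝ) ^ d := by positivity
    push_cast at h2
    linarith
  refine (h1 (n + 1) (by omega)).subset ?_
  intro u hu
  exact le_trans hu (Nat.le_succ n)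

theorem bs_eq {V : Type} {G : SimpleGraph V} {v : V} {n : ℕ} (hf : (ball G v n).Finite)
    (f : V → ℝ) : bs G v n f = ∑ u ∈ hf.toFinset, f u :=
  finsum_mem_eq_finite_toFinset_sum f hf

end Level

open Level in
theorem level : StmNet → StmBump → StmCut → StmPass → StmCost → StmLevel := by
  intro hNet hBump hCut hPass hCost c C d h hc hd hh
  obtain ⟨C₁, hC₁⟩ := hCut c C d h hc (by linarith) hh
  obtain ⟨k, hk2, hk⟩ := choose_k c C d C₁ (5 * h + 6) hc hd
  have hk0 : (0 : ℝ) < k := by exact_mod_cast (by omega : 0 < k)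
  refine ⟨(5 * h + 6) * k, Nat.mul_pos (by omega) (by omega), ?_⟩
  intro V G hG hB ρ hρ
  obtain ⟨N, hN1, hN2⟩ := hNet V G (k * ρ)
  choose F hF1 hF2 hF3 using hC₁ V G hG hB ρ k hρ (by omega)
  obtain ⟨ψ, hψ1, hψ2, hψ3, hψ4⟩ := hBump V G hG.conn ρ hρ {z | ∃ a ∈ N, z ∈ F a}
  refine ⟨ψ, hψ1, hψ4, ?_, ?_⟩
  · -- crossings
    intro x y p hxy
    obtain ⟨a, haN, hxa⟩ := hN2 x
    have hax : G.dist a x ≤ k * ρ := by rw [SimpleGraph.dist_comm]; exact hxa
    have hay : (5 * h + 5) * (k * ρ) ≤ G.dist a y := by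
      have h1 := hG.conn.dist_triangle (u := x) (v := a) (w := y)
      have h2 : (5 * h + 6) * k * ρ = (5 * h + 5) * (k * ρ) + k * ρ := by ring
      omega
    refine hPass V G hG.conn h ρ k hρ (by omega) a (F a) ψ (fun z hz => hF2 a z hz) ?_
      (fun x => (hψ1 x).1) ?_ x y p hax hay
    · intro x' y' p' h1 h2
      obtain ⟨u, hu, z, hz, hzu⟩ := hF3 a x' y' p' h1 h2
      exact ⟨u, hu, z, hz, hzu⟩
    · rintro x' ⟨z, hz, hzx⟩
      exact hψ2 x' ⟨z, ⟨a, haN, hz⟩, hzx⟩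
  · -- the area
    intro w hw0 hw2 v r
    have hRk : (5 * h + 2 + 4) * (k * ρ) = (5 * h + 6) * k * ρ := by ring
    have hcost := hCost c C d (5 * h + 2) (C₁ * k) k hc (by linarith) hk2 V G hG ρ hρ N F hN1
      (fun a _ => ⟨hF1 a, fun z hz => hF2 a z hz⟩) w hw0 (fun x y hxy => hw2 x y (by
        rw [hRk] at hxy; omega)) v r
    rw [hRk] at hcost
    have hf1 := ball_finite hc hG v r
    have hf2 := ball_finite hc hG v (r + (5 * h + 6) * k * ρ)
    set U : V → Prop := fun x => ∃ a ∈ N, ∃ z ∈ F a, G.dist z x < 3 * ρ with hU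
    set B : ℝ := bs G v (r + (5 * h + 6) * k * ρ) fun x => w x ^ 2 with hBdef
    have hB0 : 0 ≤ B := by
      rw [hBdef, bs_eq hf2]
      exact Finset.sum_nonneg fun x _ => sq_nonneg _
    have hpt : ∀ x, (w x * ψ x) ^ 2 ≤ w x ^ 2 + 3 * (if U x then w x ^ 2 else 0) := by
      intro x
      by_cases hx : U x
      · rw [if_pos hx]
        have h1 : ψ x ^ 2 ≤ 4 := by nlinarith [(hψ1 x).1, (hψ1 x).2]
        have h2 := mul_le_mul_of_nonneg_left h1 (sq_nonneg (w x))
        nlinarith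
      · rw [if_neg hx]
        have h1 : ψ x = 1 := by
          apply hψ3
          rintro z ⟨a, haN, hz⟩
          by_contra hcon
          exact hx ⟨a, haN, z, hz, by omega⟩
        rw [h1]
        simp
    have hs1 : bs G v r (fun x => (w x * ψ x) ^ 2) ≤
        bs G v r (fun x => w x ^ 2) + 3 * bs G v r (fun x => if U x then w x ^ 2 else 0) := by
      rw [bs_eq hf1, bs_eq hf1, bs_eq hf1, Finset.mul_sum, ← Finset.sum_add_distrib]
      exact Finset.sum_le_sum fun x _ => hpt x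
    have hs2 : bs G v r (fun x => w x ^ 2) ≤ B := by
      rw [hBdef, bs_eq hf1, bs_eq hf2]
      apply Finset.sum_le_sum_of_subset_of_nonneg
      · intro x hx
        rw [Set.Finite.mem_toFinset] at hx ⊢
        exact le_trans hx (Nat.le_add_right _ _)
      · intro x _ _
        exact sq_nonneg _
    have hconst : 3 * (4 * ((C₁ * k : ℕ) : ℝ) * C / c * (12 / (k : ℝ)) ^ d) ≤
        1 / (2 * (((5 * h + 6) * k : ℕ) : ℝ)) := by
      have hkd : (0 : ℝ) < (k : ℝ) ^ d := Real.rpow_pos_of_pos hk0 d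
      rw [Real.div_rpow (by norm_num) hk0.le]
      have h3 : (0 : ℝ) < 2 * (((5 * h + 6) * k : ℕ) : ℝ) := by
        have : 0 < (5 * h + 6) * k := Nat.mul_pos (by omega) (by omega)
        have : (0 : ℝ) < (((5 * h + 6) * k : ℕ) : ℝ) := by exact_mod_cast this
        linarith
      rw [le_div_iff₀ h3]
      have h4 : 3 * (4 * ((C₁ * k : ℕ) : ℝ) * C / c * ((12 : ℝ) ^ d / (k : ℝ) ^ d)) *
          (2 * (((5 * h + 6) * k : ℕ) : ℝ)) =
          (24 * C₁ * C * ((5 * h + 6 : ℕ) : ℝ) * (12 : ℝ) ^ d * (k : ℝ) ^ 2) /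
            (c * (k : ℝ) ^ d) := by
        push_cast
        field_simp
        ring
      rw [h4, div_le_one (by positivity)]
      exact hk
    calc bs G v r (fun x => (w x * ψ x) ^ 2)
        ≤ bs G v r (fun x => w x ^ 2) + 3 * bs G v r (fun x => if U x then w x ^ 2 else 0) := hs1
      _ ≤ B + 3 * (4 * ((C₁ * k : ℕ) : ℝ) * C / c * (12 / (k : ℝ)) ^ d * B) := by
          have := hcost
          linarith
      _ = B + 3 * (4 * ((C₁ * k : ℕ) : ℝ) * C / c * (12 / (k : ℝ)) ^ d) * B := by ring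
      _ ≤ B + 1 / (2 * (((5 * h + 6) * k : ℕ) : ℝ)) * B := by
          have := mul_le_mul_of_nonneg_right hconst hB0
          linarith
      _ = (1 + 1 / (2 * (((5 * h + 6) * k : ℕ) : ℝ))) * B := by ring

end Pool.Agent.N276.SD
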