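import Pool.Agent.N276.SD.Stm
import Pool.Agent.H135R2.Pin.Paths

/-!
# Menger's theorem for two sets
-/

set_option autoImplicit false
set_option linter.deprecated false

namespace Pool.Agent.N276.SD.Menger2

variable {U : Type} (H : SimpleGraph U) (A B : Set U)

/-- adjacency in the graph with a source and a sink -/
def adj : U ⊕ Bool → U ⊕ Bool → Prop
  | .inl a, .inl b => H.Adj a b
  | .inl a, .inr false => a ∈ A
  | .inl a, .inr true => a ∈ B
  | .inr false, .inl a => a ∈ A
  | .inr true, .inl a => a ∈ B
  | .inr _, .inr _ => False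

/-- the graph with a source and a sink -/
def ext : SimpleGraph (U ⊕ Bool) where
  Adj := adj H A B
  symm := ⟨by
    rintro (a | (_ | _)) (b | (_ | _)) h
    · exact SimpleGraph.Adj.symm (G := H) h
    all_goals exact h⟩
  loopless := ⟨by
    rintro (a | (_ | _)) h
    · exact H.loopless.irrefl a h
    · exact h
    · exact h⟩

variable {H A B}

/-- the inner part of a path to the sink -/
lemma inner {w z : U ⊕ Bool} (q : (ext H A B).Walk w z) : z = Sum.inr true → q.IsPath →
    Sum.inr false ∉ q.support → ∀ a : U, w = Sum.inl a →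
      ∃ b ∈ B, ∃ r : H.Walk a b, ∀ u, u ∈ r.support ↔ Sum.inl u ∈ q.support := by
  induction q with
  | nil =>
    rintro hz - - a hw
    rw [hz] at hw
    exact absurd hw (by simp)
  | @cons w v z h q ih =>
    rintro hz hp hx a hw
    subst hw
    have hp' := hp.of_cons
    rw [SimpleGraph.Walk.support_cons, List.mem_cons, not_or] at hx
    rcases v with a' | (_ | _)
    · obtain ⟨b, hb, r, hr⟩ := ih hz hp' hx.2 a' rfl
      refine ⟨b, hb, SimpleGraph.Walk.cons (show H.Adj a a' from h) r, fun u => ?_⟩
      rw [SimpleGraph.Walk.support_cons, SimpleGraph.Walk.support_cons, List.mem_cons,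
        List.mem_cons, hr, Sum.inl.injEq]
    · exact absurd q.start_mem_support hx.2
    · subst hz
      have hq : q = SimpleGraph.Walk.nil := SimpleGraph.Walk.isPath_iff_eq_nil.1 hp'
      subst hq
      refine ⟨a, h, SimpleGraph.Walk.nil, fun u => ?_⟩
      simp

end Pool.Agent.N276.SD.Menger2

namespace Pool.Agent.N276.SD

open Menger2 in
theorem menger : StmMenger := by
  classical
  intro U _ H A B m
  have := Fintype.ofFinite U
  by_cases hyp : ∀ (P : Set (U ⊕ Bool)) (S : Finset (U ⊕ Bool)), Sum.inr false ∈ P →
      Sum.inr true ∉ P → Sum.inr false ∉ S → Sum.inr true ∉ S →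
      (∀ a b, a ∈ P → b ∉ P → (ext H A B).Adj a b → b ∈ S) → m + 1 ≤ S.card
  · right
    obtain ⟨P, hP1, hP2⟩ := Pool.Agent.H135R2.Menger.menger_paths (ext H A B)
      (x := Sum.inr false) (y := Sum.inr true) (by simp) (fun h => h) (m + 1) hyp
    refine ⟨fun i => {u | Sum.inl u ∈ (P i).support}, fun i j hij => ?_, fun i => ?_⟩
    · rw [Set.disjoint_left]
      intro u hu hv
      rcases hP2 i j hij _ hu hv with h | h <;> exact absurd h (by simp)
    · obtain ⟨a, ha, b, hb, r, hr⟩ : ∃ a ∈ A, ∃ b ∈ B, ∃ r : H.Walk a b,
          ∀ u, u ∈ r.support ↔ Sum.inl u ∈ (P i).support := by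
        have hp := hP1 i
        generalize P i = p at hp
        cases p with
        | @cons _ v _ h q =>
          have hp' := hp.of_cons
          have hx : Sum.inr false ∉ q.support := ((SimpleGraph.Walk.cons_isPath_iff _ _).1 hp).2
          rcases v with a | (_ | _)
          · obtain ⟨b, hb, r, hr⟩ := inner q rfl hp' hx a rfl
            refine ⟨a, h, b, hb, r, fun u => ?_⟩
            rw [hr, SimpleGraph.Walk.support_cons, List.mem_cons]
            simp
          · exact absurd h (fun h => h)
          · exact absurd h (fun h => h)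
      have hset : {u | Sum.inl u ∈ (P i).support} = {u | u ∈ r.support} := by
        ext u
        exact (hr u).symm
      refine ⟨?_, ⟨a, ?_, ha⟩, ⟨b, ?_, hb⟩⟩
      · show (H.induce {u | Sum.inl u ∈ (P i).support}).Connected
        rw [hset]
        exact r.connected_induce_support
      · exact (hr a).1 r.start_mem_support
      · exact (hr b).1 r.end_mem_support
  · left
    push Not at hyp
    obtain ⟨P, S, hxP, hyP, hxS, hyS, hS, hcard⟩ := hyp
    refine ⟨Finset.univ.filter fun u => Sum.inl u ∈ S, ?_, ?_⟩
    · refine le_trans ?_ (Nat.lt_succ_iff.1 hcard)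
      refine Finset.card_le_card_of_injOn Sum.inl ?_ Sum.inl_injective.injOn
      intro u hu
      exact (Finset.mem_filter.1 hu).2
    · intro a ha b hb p
      by_contra hno
      push Not at hno
      have hF : ∀ u ∈ p.support, Sum.inl u ∉ S := fun u hu hS =>
        hno u hu (Finset.mem_filter.2 ⟨Finset.mem_univ u, hS⟩)
      have haP : Sum.inl a ∈ P := by
        by_contra h
        exact hF a p.start_mem_support (hS (Sum.inr false) (Sum.inl a) hxP h ha)
      have key : ∀ (a b : U) (p : H.Walk a b), Sum.inl a ∈ P → (∀ u ∈ p.support, Sum.inl u ∉ S) →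
          Sum.inl b ∈ P := by
        intro a b p
        induction p with
        | nil => exact fun h _ => h
        | @cons u v w h q ih =>
          intro h1 h2
          refine ih ?_ fun u hu => h2 u (by
            rw [SimpleGraph.Walk.support_cons]; exact List.mem_cons_of_mem _ hu)
          by_contra h3
          exact h2 v (by
            rw [SimpleGraph.Walk.support_cons]
            exact List.mem_cons_of_mem _ q.start_mem_support)
            (hS (Sum.inl u) (Sum.inl v) h1 h3 h)
      exact hyS (hS (Sum.inl b) (Sum.inr true) (key a b p haP hF) hyP hb)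

end Pool.Agent.N276.SD
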