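import Pool.Agent.N276.SD.Stm

/-!
# The multiscale metric
-/

set_option autoImplicit false

open Set Filter Topology
open scoped Classical

namespace Pool.Agent.N276.SD

namespace Metric

variable {V : Type}

lemma wlen_one (G : SimpleGraph V) {x y : V} (p : G.Walk x y) :
    wlen G (fun _ => (1 : ℝ)) p = p.length := by
  induction p with
  | nil => simp [wlen]
  | cons h p ih =>
    rw [wlen, ih, SimpleGraph.Walk.length_cons]
    push_cast
    ring

lemma ball_finite {G : SimpleGraph V} {c C d : ℝ} (hc : 0 < c) (hG : Growth G c C d) (v : V)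
    (n : ℕ) : (ball G v n).Finite := by
  have h1 : (ball G v (n + 1)).Finite := by
    apply Set.finite_of_ncard_pos
    have h := hG.lower v (n + 1) (by omega)
    have h2 : 0 < c * ((n + 1 : ℕ) : ℝ) ^ d := by positivity
    have h3 : (0 : ℝ) < ((ball G v (n + 1)).ncard : ℝ) := h2.trans h
    exact_mod_cast h3
  exact h1.subset fun u hu => le_trans hu (Nat.le_succ n)

lemma bs_one {G : SimpleGraph V} {v : V} {n R : ℕ} (h : n ≤ R) (hf : (ball G v R).Finite) :
    bs G v n (fun _ => (1 : ℝ) ^ 2) ≤ ((ball G v R).ncard : ℝ) := by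
  have hsub : ball G v n ⊆ ball G v R := fun u hu => le_trans hu h
  have hfn := hf.subset hsub
  have e : bs G v n (fun _ => (1 : ℝ) ^ 2) = ((ball G v n).ncard : ℝ) := by
    rw [bs, finsum_mem_eq_finite_toFinset_sum _ hfn]
    simp [Set.ncard_eq_toFinset_card _ hfn]
  rw [e]
  exact_mod_cast Set.ncard_le_ncard hsub hf

lemma exists_L (K : ℕ) (hK : 1 ≤ K) : ∃ L : ℕ, 4 ≤ L ∧
    Real.exp (4 * K / L) ≤ 1 + 1 / (4 * (K : ℝ)) := by
  have hK' : (1 : ℝ) ≤ K := by exact_mod_cast hK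
  refine ⟨32 * K ^ 2, by nlinarith, ?_⟩
  have e : (4 * (K : ℝ) / ((32 * K ^ 2 : ℕ) : ℝ)) = 1 / (8 * K) := by
    push_cast; field_simp; ring
  rw [e]
  have h1 : 0 < 1 / (8 * (K : ℝ)) := by positivity
  have h2 : 1 / (8 * (K : ℝ)) ≤ 1 := by
    rw [div_le_one (by positivity)]; linarith
  have h3 := Real.abs_exp_sub_one_sub_id_le (x := 1 / (8 * (K : ℝ)))
    (by rw [abs_of_pos h1]; exact h2)
  have h4 := (abs_le.1 h3).2
  have h5 : 1 / (4 * (K : ℝ)) = 2 * (1 / (8 * K)) := by field_simp; ring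
  rw [h5]
  nlinarith

/-- the induction -/
lemma main {c C d : ℝ} (hstep : StmStep) (G : SimpleGraph V) (hc : 0 < c)
    (hG : Growth G c C d) (K L : ℕ) (hK : 1 ≤ K) (hL : 4 ≤ L)
    (hexp : Real.exp (4 * K / L) ≤ 1 + 1 / (4 * (K : ℝ)))
    (hlev : ∀ ρ : ℕ, 1 ≤ ρ →
      ∃ ψ : V → ℝ, (∀ x, 1 ≤ ψ x ∧ ψ x ≤ 2) ∧ (∀ x y, |ψ x - ψ y| ≤ (G.dist x y : ℝ) / ρ) ∧
        (∀ (x y : V) (p : G.Walk x y), K * ρ ≤ G.dist x y →
          (ρ : ℝ) ≤ wlen G (fun u => ψ u - 1) p) ∧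
        ∀ w : V → ℝ, (∀ x, 0 ≤ w x) → (∀ x y, G.dist x y ≤ 2 * (K * ρ) → w x ≤ 2 * w y) →
          ∀ (v : V) (r : ℕ), bs G v r (fun x => (w x * ψ x) ^ 2) ≤
            (1 + 1 / (2 * (K : ℝ))) * bs G v (r + K * ρ) fun x => w x ^ 2) :
    ∀ m j : ℕ, ∃ w : V → ℝ, (∀ x, 1 ≤ w x ∧ w x ≤ 2 ^ m) ∧
      (∀ x y, w x ≤ w y * Real.exp (G.dist x y * (2 / (L : ℝ) ^ j))) ∧
      (∀ (x y : V) (p : G.Walk x y), (1 + 1 / (2 * (K : ℝ))) ^ m *
        ((G.dist x y : ℝ) - K * (L ^ j * (L ^ m - 2 ^ m))) ≤ wlen G w p) ∧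
      (∀ (v : V) (r R : ℕ), r + K * L ^ (j + m) ≤ R + K * L ^ j →
        bs G v r (fun x => w x ^ 2) ≤ (1 + 1 / (2 * (K : ℝ))) ^ m * ((ball G v R).ncard : ℝ)) := by
  have hK' : (1 : ℝ) ≤ K := by exact_mod_cast hK
  have hL' : (4 : ℝ) ≤ L := by exact_mod_cast hL
  have hL0 : (0 : ℝ) < L := by linarith
  set a : ℝ := 1 + 1 / (2 * (K : ℝ)) with ha
  have ha1 : 1 ≤ a := by
    have : 0 < 1 / (2 * (K : ℝ)) := by positivity
    linarith
  intro m
  induction m with
  | zero =>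
    intro j
    refine ⟨fun _ => 1, fun _ => by norm_num, fun x y => ?_, fun x y p => ?_, fun v r R h => ?_⟩
    · rw [one_mul]
      exact Real.one_le_exp (by positivity)
    · rw [wlen_one]
      have := SimpleGraph.dist_le p
      have h2 : (G.dist x y : ℝ) ≤ p.length := by exact_mod_cast this
      simpa using h2
    · rw [pow_zero, one_mul]
      rw [add_zero] at h
      exact bs_one (by omega) (ball_finite hc hG v R)
  | succ m ih =>
    intro j
    obtain ⟨w, hw1, hw2, hw3, hw4⟩ := ih (j + 1)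
    have hLj : 1 ≤ L ^ j := Nat.one_le_pow _ _ (by omega)
    have hLj' : (1 : ℝ) ≤ (L : ℝ) ^ j := one_le_pow₀ (by linarith)
    have hLj0 : (0 : ℝ) < (L : ℝ) ^ j := by positivity
    obtain ⟨ψ, hψ1, hψ2, hψ3, hψ4⟩ := hlev (L ^ j) hLj
    have hw0 : ∀ x, 0 < w x := fun x => lt_of_lt_of_le one_pos (hw1 x).1
    have hψ0 : ∀ x, 0 < ψ x := fun x => lt_of_lt_of_le one_pos (hψ1 x).1
    -- oscillation of w
    have hosc : ∀ x y, G.dist x y ≤ 2 * (K * L ^ j) → w x ≤ (1 + 1 / (4 * (K : ℝ))) * w y := by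
      intro x y h
      have h1 : (G.dist x y : ℝ) ≤ 2 * (K * (L : ℝ) ^ j) := by exact_mod_cast h
      have h2 : (G.dist x y : ℝ) * (2 / (L : ℝ) ^ (j + 1)) ≤ 4 * K / L := by
        calc (G.dist x y : ℝ) * (2 / (L : ℝ) ^ (j + 1)) ≤
            (2 * (K * (L : ℝ) ^ j)) * (2 / (L : ℝ) ^ (j + 1)) := by gcongr
          _ = 4 * K / L := by rw [pow_succ]; field_simp; ring
      calc w x ≤ w y * Real.exp (G.dist x y * (2 / (L : ℝ) ^ (j + 1))) := hw2 x y
        _ ≤ w y * (1 + 1 / (4 * (K : ℝ))) := by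
            have := (hw0 y).le
            gcongr
            exact (Real.exp_le_exp.2 h2).trans hexp
        _ = _ := mul_comm _ _
    have hosc2 : ∀ x y, G.dist x y ≤ 2 * (K * L ^ j) → w x ≤ 2 * w y := by
      intro x y h
      refine (hosc x y h).trans ?_
      have := (hw0 y).le
      gcongr
      have : 1 / (4 * (K : ℝ)) ≤ 1 := by
        rw [div_le_one (by positivity)]; linarith
      linarith
    refine ⟨fun x => w x * ψ x, fun x => ⟨?_, ?_⟩, fun x y => ?_, fun x y p => ?_,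
      fun v r R h => ?_⟩
    · have := (hw1 x).1
      have := (hψ1 x).1
      nlinarith
    · rw [pow_succ]
      have := hψ0 x
      exact mul_le_mul (hw1 x).2 (hψ1 x).2 this.le (by positivity)
    · have h1 := hw2 x y
      set D : ℝ := (G.dist x y : ℝ) with hD
      have hD0 : 0 ≤ D := Nat.cast_nonneg _
      have h2 : ψ x ≤ ψ y * Real.exp (D * (1 / (L : ℝ) ^ j)) := by
        have e1 := (abs_le.1 (hψ2 x y)).2
        have e2 : D / ((L ^ j : ℕ) : ℝ) = D * (1 / (L : ℝ) ^ j) := by push_cast; ring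
        rw [← hD, e2] at e1
        have e3 := Real.add_one_le_exp (D * (1 / (L : ℝ) ^ j))
        have e4 : 0 ≤ D * (1 / (L : ℝ) ^ j) := by positivity
        calc ψ x ≤ ψ y + 1 * (D * (1 / (L : ℝ) ^ j)) := by linarith
          _ ≤ ψ y + ψ y * (D * (1 / (L : ℝ) ^ j)) := by
              gcongr
              exact (hψ1 y).1
          _ = ψ y * (D * (1 / (L : ℝ) ^ j) + 1) := by ring
          _ ≤ _ := by
              have := (hψ0 y).le
              gcongr
      calc w x * ψ x ≤ (w y * Real.exp (D * (2 / (L : ℝ) ^ (j + 1)))) *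
            (ψ y * Real.exp (D * (1 / (L : ℝ) ^ j))) := by
            have := (hψ0 x).le
            have := (hw0 y).le
            gcongr
        _ = w y * ψ y * Real.exp (D * (2 / (L : ℝ) ^ (j + 1)) + D * (1 / (L : ℝ) ^ j)) := by
            rw [Real.exp_add]; ring
        _ ≤ w y * ψ y * Real.exp (D * (2 / (L : ℝ) ^ j)) := by
            have := (mul_pos (hw0 y) (hψ0 y)).le
            gcongr
            rw [← mul_add]
            gcongr
            have e : 2 / (L : ℝ) ^ (j + 1) = 2 / L * (1 / (L : ℝ) ^ j) := by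
              rw [pow_succ]; field_simp
            have e2 : 2 / (L : ℝ) ^ j = 2 * (1 / (L : ℝ) ^ j) := by ring
            rw [e, e2]
            have e3 : 2 / (L : ℝ) ≤ 1 := by
              rw [div_le_one hL0]; linarith
            have e4 : 0 < 1 / (L : ℝ) ^ j := by positivity
            nlinarith
    · have h1 := hstep V G hG.conn K (L ^ j) hK hLj w ψ (2 ^ m)
        (fun x => ⟨hw0 x, (hw1 x).2⟩) hosc (fun x => (hψ1 x).1) hψ3 x y p
      have hne : Nonempty (G.Walk x y) := ⟨p⟩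
      have h2 : a ^ m * ((G.dist x y : ℝ) - K * ((L : ℝ) ^ (j + 1) * (L ^ m - 2 ^ m))) ≤
          wd G w x y := by
        apply le_csInf (Set.range_nonempty _)
        rintro _ ⟨q, rfl⟩
        exact hw3 x y q
      refine le_trans ?_ h1
      have ham : 1 ≤ a ^ m := one_le_pow₀ ha1
      have h2m : (0 : ℝ) < 2 ^ m := by positivity
      have hcast : ((K : ℝ) * ((L ^ j : ℕ) : ℝ)) = K * (L : ℝ) ^ j := by push_cast; rfl
      have hcast' : (2 : ℝ) ^ m * ((K : ℝ) * ((L ^ j : ℕ) : ℝ)) ≤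
          a ^ m * (2 ^ m * (K * (L : ℝ) ^ j)) := by
        rw [hcast]
        exact le_mul_of_one_le_left (by positivity) ham
      have h3 : (K : ℝ) * ((L : ℝ) ^ (j + 1) * (L ^ m - 2 ^ m)) + 2 ^ m * (K * (L : ℝ) ^ j) ≤
          K * ((L : ℝ) ^ j * (L ^ (m + 1) - 2 ^ (m + 1))) := by
        have e : K * ((L : ℝ) ^ j * (L ^ (m + 1) - 2 ^ (m + 1))) -
            (K * ((L : ℝ) ^ (j + 1) * (L ^ m - 2 ^ m)) + 2 ^ m * (K * (L : ℝ) ^ j)) =
            K * (L : ℝ) ^ j * 2 ^ m * (L - 3) := by ring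
        have : 0 ≤ K * (L : ℝ) ^ j * 2 ^ m * (L - 3) :=
          mul_nonneg (by positivity) (by linarith)
        linarith
      calc a ^ (m + 1) * ((G.dist x y : ℝ) - K * ((L : ℝ) ^ j * (L ^ (m + 1) - 2 ^ (m + 1))))
          ≤ a ^ (m + 1) * ((G.dist x y : ℝ) - (K * ((L : ℝ) ^ (j + 1) * (L ^ m - 2 ^ m)) +
              2 ^ m * (K * (L : ℝ) ^ j))) := by gcongr
        _ = a * (a ^ m * ((G.dist x y : ℝ) - K * ((L : ℝ) ^ (j + 1) * (L ^ m - 2 ^ m))) -
              a ^ m * (2 ^ m * (K * (L : ℝ) ^ j))) := by ring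
        _ ≤ a * (wd G w x y - 2 ^ m * ((K : ℝ) * ((L ^ j : ℕ) : ℝ))) := by
            gcongr
    · have h1 := hψ4 w (fun x => (hw0 x).le) hosc2 v r
      have h2 := hw4 v (r + K * L ^ j) R (by
        have e1 : j + 1 + m = j + (m + 1) := by omega
        rw [e1]
        have e2 : 2 * L ^ j ≤ L ^ (j + 1) := by
          rw [pow_succ]; nlinarith
        have e3 : K * (2 * L ^ j) ≤ K * L ^ (j + 1) := Nat.mul_le_mul_left _ e2
        nlinarith)
      calc bs G v r (fun x => (w x * ψ x) ^ 2) ≤ a * bs G v (r + K * L ^ j) fun x => w x ^ 2 := h1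
        _ ≤ a * (a ^ m * ((ball G v R).ncard : ℝ)) := by gcongr
        _ = _ := by rw [pow_succ]; ring

end Metric

open Pool.Agent.N276.SD.Metric

theorem metric (hlevel : StmLevel) (hstep : StmStep) : StmMetric := by
  intro c C d h hc hd hh
  obtain ⟨K, hK, hlev⟩ := hlevel c C d h hc hd hh
  obtain ⟨L, hL, hexp⟩ := exists_L K hK
  have hK' : (1 : ℝ) ≤ K := by exact_mod_cast hK
  have hL' : (4 : ℝ) ≤ L := by exact_mod_cast hL
  have hCK : 0 ≤ |C| * ((K : ℝ) + 1) ^ d := by positivity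
  refine ⟨K, L, K + |C| * ((K : ℝ) + 1) ^ d, hK, by omega, by linarith, ?_⟩
  intro V G hG hBic n
  obtain ⟨w, hw1, hw2, hw3, hw4⟩ := main hstep G hc hG K L hK hL hexp (hlev V G hG hBic) n 0
  refine ⟨w, fun x => (hw1 x).1, fun x y hxy => ?_, fun x y p => ?_, fun v => ?_⟩
  · have h1 := hw2 y x
    have h2 : G.dist y x = 1 := SimpleGraph.dist_eq_one_iff_adj.2 hxy.symm
    rw [h2, pow_zero] at h1
    have h3 : Real.exp (((1 : ℕ) : ℝ) * (2 / 1)) ≤ 8 := by
      have e : (((1 : ℕ) : ℝ) * (2 / 1)) = 1 + 1 := by norm_num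
      rw [e, Real.exp_add]
      have := Real.exp_one_lt_d9
      have := Real.exp_pos 1
      nlinarith
    have h4 : 0 < w x := lt_of_lt_of_le one_pos (hw1 x).1
    calc w y ≤ w x * Real.exp (((1 : ℕ) : ℝ) * (2 / 1)) := h1
      _ ≤ w x * 8 := by gcongr
      _ = _ := mul_comm _ _
  · refine le_trans ?_ (hw3 x y p)
    have h1 : (0 : ℝ) < 2 ^ n := by positivity
    have h2 : (0 : ℝ) < (L : ℝ) ^ n := by positivity
    have h3 : (K : ℝ) * ((L : ℝ) ^ 0 * (L ^ n - 2 ^ n)) ≤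
        (K + |C| * ((K : ℝ) + 1) ^ d) * (L : ℝ) ^ n := by
      rw [pow_zero, one_mul]
      nlinarith [mul_nonneg hCK h2.le]
    exact mul_le_mul_of_nonneg_left (sub_le_sub_left h3 _) (by positivity)
  · have h1 := hw4 v (L ^ n) ((K + 1) * L ^ n) (by
      rw [zero_add, pow_zero]; nlinarith)
    have hLn : 1 ≤ L ^ n := Nat.one_le_pow _ _ (by omega)
    have h2 := (hG.upper v ((K + 1) * L ^ n) (by nlinarith)).le
    have h3 : (((K + 1) * L ^ n : ℕ) : ℝ) ^ d = ((K : ℝ) + 1) ^ d * ((L : ℝ) ^ n) ^ d := by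
      push_cast
      rw [Real.mul_rpow (by positivity) (by positivity)]
    rw [h3] at h2
    have h4 : 0 ≤ ((L : ℝ) ^ n) ^ d := by positivity
    calc bs G v (L ^ n) (fun x => w x ^ 2)
        ≤ (1 + 1 / (2 * (K : ℝ))) ^ n * ((ball G v ((K + 1) * L ^ n)).ncard : ℝ) := h1
      _ ≤ (1 + 1 / (2 * (K : ℝ))) ^ n *
          ((K + |C| * ((K : ℝ) + 1) ^ d) * ((L : ℝ) ^ n) ^ d) := by
          gcongr
          refine h2.trans ?_
          have h5 : C * (((K : ℝ) + 1) ^ d * ((L : ℝ) ^ n) ^ d) ≤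
              |C| * (((K : ℝ) + 1) ^ d * ((L : ℝ) ^ n) ^ d) := by
            gcongr
            exact le_abs_self C
          have h6 : 0 ≤ (K : ℝ) * ((L : ℝ) ^ n) ^ d := by positivity
          nlinarith
      _ = _ := by ring

end Pool.Agent.N276.SD
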