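import Pool.Agent.N276.SD.Stm

/-!
# Maximal separated sets and a smoothed indicator function
-/

set_option autoImplicit false

open Set Filter Topology
open scoped Classical

namespace Pool.Agent.N276.SD

theorem net : StmNet := by
  intro V G r
  obtain ⟨N, hN⟩ := zorn_subset {N : Set V | ∀ x ∈ N, ∀ y ∈ N, x ≠ y → r < G.dist x y} (by
    intro c hc hchain
    refine ⟨⋃₀ c, ?_, fun s hs => subset_sUnion_of_mem hs⟩
    rintro x ⟨s, hs, hx⟩ y ⟨t, ht, hy⟩ hxy
    rcases hchain.total hs ht with h | h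
    · exact hc ht x (h hx) y hy hxy
    · exact hc hs x hx y (h hy) hxy)
  refine ⟨N, hN.prop, fun x => ?_⟩
  by_contra hcon
  push Not at hcon
  have h1 : insert x N ∈ {N : Set V | ∀ x ∈ N, ∀ y ∈ N, x ≠ y → r < G.dist x y} := by
    rintro a (rfl | ha) b (rfl | hb) hab
    · exact absurd rfl hab
    · exact hcon b hb
    · rw [SimpleGraph.dist_comm]
      exact hcon a ha
    · exact hN.prop a ha b hb hab
  have h2 : x ∈ N := hN.le_of_ge h1 (subset_insert x N) (mem_insert x N)
  have h3 := hcon x h2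
  rw [SimpleGraph.dist_self] at h3
  exact absurd h3 (Nat.not_lt_zero _)

namespace NetBump

/-- truncation to the unit interval -/
noncomputable def cl (a : ℝ) : ℝ := max 0 (min 1 a)

theorem cl_nonneg (a : ℝ) : 0 ≤ cl a := le_max_left _ _

theorem cl_le (a : ℝ) : cl a ≤ 1 := max_le zero_le_one (min_le_left _ _)

theorem cl_one {a : ℝ} (h : 1 ≤ a) : cl a = 1 := by
  unfold cl
  rw [min_eq_left h, max_eq_right zero_le_one]

theorem cl_zero {a : ℝ} (h : a ≤ 0) : cl a = 0 := by
  unfold cl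
  rw [max_eq_left ((min_le_right _ _).trans h)]

theorem cl_lip (a b : ℝ) : |cl a - cl b| ≤ |a - b| := by
  have h1 := abs_le.1 (le_refl |a - b|)
  rw [abs_le]
  unfold cl
  simp only [max_def, min_def]
  split_ifs <;> constructor <;> linarith [h1.1, h1.2, abs_nonneg (a - b)]

variable {V : Type}

/-- the distance from a set -/
noncomputable def D (G : SimpleGraph V) (F : Set V) (x : V) : ℕ :=
  sInf ((fun z => G.dist z x) '' F)

theorem D_le (G : SimpleGraph V) {F : Set V} {z : V} (hz : z ∈ F) (x : V) :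
    D G F x ≤ G.dist z x := Nat.sInf_le ⟨z, hz, rfl⟩

theorem D_attained (G : SimpleGraph V) {F : Set V} (hF : F.Nonempty) (x : V) :
    ∃ z ∈ F, G.dist z x = D G F x := by
  obtain ⟨z, hz, h⟩ := Nat.sInf_mem (hF.image fun z => G.dist z x)
  exact ⟨z, hz, h⟩

theorem D_lip {G : SimpleGraph V} (hG : G.Connected) {F : Set V} (hF : F.Nonempty) (x y : V) :
    D G F x ≤ D G F y + G.dist x y := by
  obtain ⟨z, hz, h⟩ := D_attained G hF y
  have h1 := D_le G hz x
  have h2 := hG.dist_triangle (u := z) (v := y) (w := x)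
  rw [G.dist_comm (u := y) (v := x)] at h2
  omega

theorem D_lip' {G : SimpleGraph V} (hG : G.Connected) {F : Set V} (hF : F.Nonempty) (x y : V) :
    |(D G F x : ℝ) - D G F y| ≤ G.dist x y := by
  have h1 : (D G F x : ℝ) ≤ D G F y + G.dist x y := by exact_mod_cast D_lip hG hF x y
  have h2 : (D G F y : ℝ) ≤ D G F x + G.dist x y := by
    have := D_lip hG hF y x
    rw [G.dist_comm] at this
    exact_mod_cast this
  rw [abs_le]
  constructor <;> linarith

end NetBump

open NetBump in
theorem bump : StmBump := by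
  intro V G hG ρ hρ F
  have hρ0 : (0 : ℝ) < ρ := by exact_mod_cast hρ
  rcases F.eq_empty_or_nonempty with rfl | hF
  · refine ⟨fun _ => 1, fun _ => ⟨le_rfl, one_le_two⟩, ?_, fun _ _ => rfl, fun x y => ?_⟩
    · rintro x ⟨z, hz, _⟩
      exact absurd hz (notMem_empty z)
    · rw [sub_self, abs_zero]
      positivity
  refine ⟨fun x => 1 + cl (3 - D G F x / ρ), fun x => ⟨?_, ?_⟩, ?_, ?_, ?_⟩
  · have := cl_nonneg (3 - D G F x / ρ)
    linarith
  · have := cl_le (3 - D G F x / ρ)
    linarith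
  · rintro x ⟨z, hz, h⟩
    have h1 : (D G F x : ℝ) ≤ 2 * ρ := by exact_mod_cast (D_le G hz x).trans h
    have h2 : (D G F x : ℝ) / ρ ≤ 2 := by rwa [div_le_iff₀ hρ0]
    show 1 + cl (3 - D G F x / ρ) = 2
    rw [cl_one (by linarith)]
    norm_num
  · intro x hx
    obtain ⟨z, hz, h⟩ := D_attained G hF x
    have h1 : (3 * ρ : ℝ) ≤ D G F x := by
      rw [← h]
      exact_mod_cast hx z hz
    have h2 : 3 ≤ (D G F x : ℝ) / ρ := by rwa [le_div_iff₀ hρ0]
    show 1 + cl (3 - D G F x / ρ) = 1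
    rw [cl_zero (by linarith), add_zero]
  · intro x y
    show |1 + cl (3 - D G F x / ρ) - (1 + cl (3 - D G F y / ρ))| ≤ _
    rw [add_sub_add_left_eq_sub]
    refine (cl_lip _ _).trans ?_
    have e : 3 - (D G F x : ℝ) / ρ - (3 - D G F y / ρ) = -(((D G F x : ℝ) - D G F y) / ρ) := by
      ring
    rw [e, abs_neg, abs_div, abs_of_pos hρ0]
    exact div_le_div_of_nonneg_right (D_lip' hG hF x y) hρ0.le

end Pool.Agent.N276.SD
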