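import Pool.Agent.N276.SD.Stm

/-!
# Project SD: packing bound and independent sets (helper395)
-/

set_option autoImplicit false

open Set Filter Topology
open scoped Classical

namespace Pool.Agent.N276.SD

namespace PackIndep

variable {V : Type}

lemma ball_finite {G : SimpleGraph V} {c C d : ℝ} (hc : 0 < c) (hG : Growth G c C d) (v : V) {n : ℕ}
    (hn : 1 ≤ n) : (ball G v n).Finite := by
  apply Set.finite_of_ncard_ne_zero
  intro h
  have h1 := hG.lower v n hn
  rw [h, Nat.cast_zero] at h1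
  have h2 : 0 ≤ c * (n : ℝ) ^ d := by positivity
  linarith

lemma indep_aux {ι : Type} [Fintype ι] (R : ι → ι → Prop) (D : ℕ)
    (hD : ∀ i, (Finset.univ.filter fun j => j ≠ i ∧ R i j).card ≤ D) :
    ∀ (h : ℕ) (J : Finset ι), (2 * D + 1) * h ≤ J.card →
      ∃ I ⊆ J, I.card = h ∧ ∀ i ∈ I, ∀ j ∈ I, i ≠ j → ¬ R i j := by
  intro h
  induction h with
  | zero =>
    intro J _
    exact ⟨∅, Finset.empty_subset _, rfl, fun i hi => absurd hi (Finset.notMem_empty i)⟩
  | succ h ih =>
    intro J hJ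
    have hJ0 : J.Nonempty := by
      rw [← Finset.card_pos]
      have : 0 < (2 * D + 1) * (h + 1) := by positivity
      omega
    have hsum : ∑ j ∈ J, (J.filter fun i => i ≠ j ∧ R i j).card ≤ ∑ _j ∈ J, D := by
      have h1 : ∑ j ∈ J, (J.filter fun i => i ≠ j ∧ R i j).card =
          ∑ i ∈ J, (J.filter fun j => i ≠ j ∧ R i j).card := by
        simp only [Finset.card_filter]
        exact Finset.sum_comm
      rw [h1]
      refine Finset.sum_le_sum fun i _ => (Finset.card_le_card ?_).trans (hD i)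
      intro j hj
      rw [Finset.mem_filter] at hj ⊢
      exact ⟨Finset.mem_univ _, fun h => hj.2.1 h.symm, hj.2.2⟩
    obtain ⟨j, hjJ, hj⟩ := Finset.exists_le_of_sum_le hJ0 hsum
    set A := J.filter fun i => i ≠ j ∧ R i j with hA
    set B := Finset.univ.filter fun i => i ≠ j ∧ R j i with hB
    have hBc : B.card ≤ D := hD j
    have hcard : (2 * D + 1) * h ≤ (J \ insert j (A ∪ B)).card := by
      have h1 : (insert j (A ∪ B)).card ≤ 2 * D + 1 := by
        refine (Finset.card_insert_le _ _).trans ?_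
        have := Finset.card_union_le A B
        omega
      have h2 := Finset.le_card_sdiff (insert j (A ∪ B)) J
      have h3 : (2 * D + 1) * (h + 1) = (2 * D + 1) * h + (2 * D + 1) := by ring
      omega
    obtain ⟨I, hI, hIc, hind⟩ := ih _ hcard
    have hjI : j ∉ I := by
      intro h1
      have h2 := hI h1
      rw [Finset.mem_sdiff] at h2
      exact h2.2 (Finset.mem_insert_self _ _)
    have hIJ : ∀ i ∈ I, i ∈ J ∧ i ≠ j ∧ ¬ R i j ∧ ¬ R j i := by
      intro i hi
      have h2 := hI hi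
      rw [Finset.mem_sdiff, Finset.mem_insert, Finset.mem_union, not_or, not_or] at h2
      obtain ⟨h3, h4, h5, h6⟩ := h2
      refine ⟨h3, h4, fun h7 => h5 ?_, fun h7 => h6 ?_⟩
      · rw [hA, Finset.mem_filter]; exact ⟨h3, h4, h7⟩
      · rw [hB, Finset.mem_filter]; exact ⟨Finset.mem_univ _, h4, h7⟩
    refine ⟨insert j I, ?_, ?_, ?_⟩
    · intro i hi
      rw [Finset.mem_insert] at hi
      rcases hi with rfl | hi
      · exact hjJ
      · exact (hIJ i hi).1
    · rw [Finset.card_insert_of_notMem hjI, hIc]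
    · intro i hi k hk hik
      rw [Finset.mem_insert] at hi hk
      rcases hi with rfl | hi
      · rcases hk with rfl | hk
        · exact absurd rfl hik
        · exact (hIJ k hk).2.2.2
      · rcases hk with rfl | hk
        · exact (hIJ i hi).2.2.1
        · exact hind i hi k hk hik

end PackIndep

open PackIndep in
theorem pack : StmPack := by
  intro c C d hc hd K
  refine ⟨⌈C * ((K : ℝ) + 1) ^ d⌉₊ + ⌈C / c * (3 * ((K : ℝ) + 1)) ^ d⌉₊, ?_⟩
  intro V G hG r hr v S hS hK
  have hfin : ∀ (x : V) {n : ℕ}, 1 ≤ n → (ball G x n).Finite := fun x n hn => ball_finite hc hG x hn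
  rcases Nat.lt_or_ge 1 r with hr2 | hr1
  · -- the case `r ≥ 2`
    set ρ := r / 2 with hρ
    have hρ1 : 1 ≤ ρ := by omega
    have hbig : 1 ≤ (K + 1) * r := Nat.mul_pos (by omega) (by omega)
    let B : V → Finset V := fun x => (hfin x hρ1).toFinset
    have hB : ∀ x y, y ∈ B x ↔ G.dist x y ≤ ρ := fun x y => by
      simp only [B, Set.Finite.mem_toFinset]; rfl
    have hdisj : ∀ x ∈ S, ∀ y ∈ S, x ≠ y → Disjoint (B x) (B y) := by
      intro x hx y hy hxy
      rw [Finset.disjoint_left]
      intro z hz1 hz2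
      rw [hB] at hz1 hz2
      have h1 := hS x hx y hy hxy
      have h2 := hG.conn.dist_triangle (u := x) (v := z) (w := y)
      rw [SimpleGraph.dist_comm (u := z)] at h2
      omega
    have hsub : S.biUnion B ⊆ (hfin v hbig).toFinset := by
      intro z hz
      rw [Finset.mem_biUnion] at hz
      obtain ⟨x, hx, hz⟩ := hz
      rw [hB] at hz
      rw [Set.Finite.mem_toFinset]
      show G.dist v z ≤ (K + 1) * r
      have h2 := hG.conn.dist_triangle (u := v) (v := x) (w := z)
      have h3 := hK x hx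
      have h4 : (K + 1) * r = K * r + r := by ring
      omega
    have hcard : ∑ x ∈ S, (B x).card ≤ (hfin v hbig).toFinset.card := by
      rw [← Finset.card_biUnion hdisj]
      exact Finset.card_le_card hsub
    have hlow : ∀ x, c * ((r : ℝ) / 3) ^ d ≤ ((B x).card : ℝ) := by
      intro x
      have h1 := hG.lower x ρ hρ1
      rw [Set.ncard_eq_toFinset_card _ (hfin x hρ1)] at h1
      have h2 : (r : ℝ) / 3 ≤ (ρ : ℝ) := by
        have : r ≤ 3 * ρ := by omega
        have : (r : ℝ) ≤ 3 * ρ := by exact_mod_cast this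
        linarith
      have h3 : ((r : ℝ) / 3) ^ d ≤ (ρ : ℝ) ^ d := Real.rpow_le_rpow (by positivity) h2 hd.le
      have h4 := mul_le_mul_of_nonneg_left h3 hc.le
      linarith
    have hup : ((hfin v hbig).toFinset.card : ℝ) ≤ C * (((K : ℝ) + 1) * r) ^ d := by
      have h1 := hG.upper v _ hbig
      rw [Set.ncard_eq_toFinset_card _ (hfin v hbig)] at h1
      push_cast at h1
      exact h1.le
    have htot : (S.card : ℝ) * (c * ((r : ℝ) / 3) ^ d) ≤ C * (((K : ℝ) + 1) * r) ^ d := by
      refine le_trans ?_ hup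
      refine le_trans ?_ (by exact_mod_cast hcard :
        ((∑ x ∈ S, (B x).card : ℕ) : ℝ) ≤ ((hfin v hbig).toFinset.card : ℝ))
      push_cast
      rw [← nsmul_eq_mul, ← Finset.sum_const]
      exact Finset.sum_le_sum fun x _ => hlow x
    have hr0 : (0 : ℝ) < (r : ℝ) / 3 := by
      have : (0 : ℝ) < r := by exact_mod_cast (by omega : 0 < r)
      positivity
    have hpow : (0 : ℝ) < ((r : ℝ) / 3) ^ d := Real.rpow_pos_of_pos hr0 d
    have hsplit : (((K : ℝ) + 1) * r) ^ d = (3 * ((K : ℝ) + 1)) ^ d * ((r : ℝ) / 3) ^ d := by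
      rw [← Real.mul_rpow (by positivity) hr0.le]
      congr 1
      ring
    rw [hsplit] at htot
    have hS2 : (S.card : ℝ) ≤ C / c * (3 * ((K : ℝ) + 1)) ^ d := by
      have h1 : (S.card : ℝ) * c ≤ C * (3 * ((K : ℝ) + 1)) ^ d := by
        refine le_of_mul_le_mul_right ?_ hpow
        calc (S.card : ℝ) * c * ((r : ℝ) / 3) ^ d = (S.card : ℝ) * (c * ((r : ℝ) / 3) ^ d) := by ring
          _ ≤ _ := htot
          _ = _ := by ring
      have h2 : C / c * (3 * ((K : ℝ) + 1)) ^ d = C * (3 * ((K : ℝ) + 1)) ^ d / c := by ring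
      rw [h2, le_div_iff₀ hc]
      exact h1
    have h5 : (S.card : ℝ) ≤ ((⌈C / c * (3 * ((K : ℝ) + 1)) ^ d⌉₊ : ℕ) : ℝ) :=
      hS2.trans (Nat.le_ceil _)
    have h6 : S.card ≤ ⌈C / c * (3 * ((K : ℝ) + 1)) ^ d⌉₊ := by exact_mod_cast h5
    omega
  · -- the case `r = 1`
    have hr1' : r = 1 := by omega
    have hbig : 1 ≤ K + 1 := by omega
    have hsub : S ⊆ (hfin v hbig).toFinset := by
      intro x hx
      rw [Set.Finite.mem_toFinset]
      show G.dist v x ≤ K + 1
      have := hK x hx
      rw [hr1'] at this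
      omega
    have h1 := hG.upper v _ hbig
    rw [Set.ncard_eq_toFinset_card _ (hfin v hbig)] at h1
    push_cast at h1
    have h2 : (S.card : ℝ) ≤ C * ((K : ℝ) + 1) ^ d := by
      refine le_trans ?_ h1.le
      exact_mod_cast Finset.card_le_card hsub
    have h5 : (S.card : ℝ) ≤ ((⌈C * ((K : ℝ) + 1) ^ d⌉₊ : ℕ) : ℝ) := h2.trans (Nat.le_ceil _)
    have h6 : S.card ≤ ⌈C * ((K : ℝ) + 1) ^ d⌉₊ := by exact_mod_cast h5
    omega

theorem indep : StmIndep := by
  intro ι _ R D h hD hcard
  have := Fintype.ofFinite ι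
  obtain ⟨I, -, hI, hind⟩ := PackIndep.indep_aux R D (fun i => by
    have h1 := hD i
    rw [Set.ncard_eq_toFinset_card'] at h1
    refine le_trans (le_of_eq ?_) h1
    congr 1
    ext j
    simp) h Finset.univ (by rwa [Finset.card_univ, ← Nat.card_eq_fintype_card])
  exact ⟨I, hI, hind⟩

end Pool.Agent.N276.SD
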