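import Pool.Agent.N276.SD.Stm

/-!
# Project SD (helper276), part 10 (helper680): the length of crossings of cut annuli
-/

set_option autoImplicit false

open Set Filter Topology

namespace Pool.Agent.N276.SD

namespace Pass

variable {V : Type}

lemma wlen_append (G : SimpleGraph V) (w : V → ℝ) {x y z : V} (p : G.Walk x y) (q : G.Walk y z) :
    wlen G w (p.append q) = wlen G w p + wlen G w q := by
  induction p with
  | nil => simp [wlen]
  | cons h p ih =>
    rw [SimpleGraph.Walk.cons_append, wlen, wlen, ih, add_assoc]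

lemma wlen_nonneg (G : SimpleGraph V) {w : V → ℝ} (hw : ∀ x, 0 ≤ w x) {x y : V}
    (p : G.Walk x y) : 0 ≤ wlen G w p := by
  induction p with
  | nil => simp [wlen]
  | cons h p ih =>
    rw [wlen]
    exact add_nonneg (hw _) ih

lemma near {G : SimpleGraph V} (hG : G.Connected) {w : V → ℝ} (hw : ∀ x, 0 ≤ w x) (z : V) (M : ℕ)
    (h1 : ∀ x, G.dist z x ≤ M → w x = 1) {x y : V} (p : G.Walk x y) :
    ∀ n j : ℕ, n ≤ p.length → j + n ≤ M + 1 → G.dist z x ≤ j → (n : ℝ) ≤ wlen G w p := by
  induction p with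
  | nil =>
    intro n j hn _ _
    simp only [SimpleGraph.Walk.length_nil, Nat.le_zero] at hn
    subst hn
    simp [wlen]
  | @cons u v y h p ih =>
    intro n j hn hj hd
    rcases Nat.eq_zero_or_pos n with h0 | h0
    · subst h0
      simpa using wlen_nonneg G hw (SimpleGraph.Walk.cons h p)
    · obtain ⟨m, rfl⟩ : ∃ m, n = m + 1 := ⟨n - 1, by omega⟩
      rw [SimpleGraph.Walk.length_cons] at hn
      have h3 : G.dist z v ≤ j + 1 := by
        have := hG.dist_triangle (u := z) (v := u) (w := v)
        have h4 : G.dist u v = 1 := SimpleGraph.dist_eq_one_iff_adj.2 h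
        omega
      have h5 := ih m (j + 1) (by omega) (by omega) h3
      rw [wlen, h1 u (by omega)]
      push_cast
      linarith

end Pass

open Pass

theorem pass : StmPass := by
  classical
  intro V G hG h ρ k hρ hk a F ψ hF hcut hψ1 hψ2 x y p hx hy
  have hkρ : 1 ≤ k * ρ := Nat.one_le_iff_ne_zero.2 (by positivity)
  have hkρ' : ρ ≤ k * ρ := by nlinarith
  have hy' : 5 * h * (k * ρ) < G.dist a y := by
    have : (5 * h + 5) * (k * ρ) = 5 * h * (k * ρ) + 5 * (k * ρ) := by ring
    omega
  obtain ⟨u, hu, z, hz, hzu⟩ := hcut x y p hx hy'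
  set w : V → ℝ := fun u => ψ u - 1 with hw
  have hw0 : ∀ x, 0 ≤ w x := fun x => by
    have := hψ1 x
    simp only [hw]
    linarith
  have hw1 : ∀ x, G.dist z x ≤ 2 * ρ → w x = 1 := fun x hx => by
    have := hψ2 x ⟨z, hz, hx⟩
    simp only [hw]
    linarith
  have e : (p.takeUntil u hu).append (p.dropUntil u hu) = p := p.take_spec hu
  have h1 : wlen G w p = wlen G w (p.takeUntil u hu) + wlen G w (p.dropUntil u hu) := by
    rw [← wlen_append, e]
  have h2 := wlen_nonneg G hw0 (p.takeUntil u hu)
  have h3 : ρ ≤ (p.dropUntil u hu).length := by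
    have h4 : G.dist u y ≤ (p.dropUntil u hu).length := SimpleGraph.dist_le _
    have h5 := hG.dist_triangle (u := a) (v := u) (w := y)
    have h6 := hG.dist_triangle (u := a) (v := z) (w := u)
    have h7 := hF z hz
    have e1 : (5 * h + 5) * (k * ρ) = 5 * h * (k * ρ) + 5 * (k * ρ) := by ring
    have e2 : (5 * h + 2) * (k * ρ) = 5 * h * (k * ρ) + 2 * (k * ρ) := by ring
    omega
  have h4 := near hG hw0 z (2 * ρ) hw1 (p.dropUntil u hu) ρ ρ h3 (by omega) hzu
  linarith

end Pool.Agent.N276.SD
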