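import Pool.Agent.N276.SD.Stm

/-!
# Pointwise Poincare inequality
-/

set_option autoImplicit false

open Set Filter Topology
open scoped Classical

namespace Pool.Agent.N276.SD

theorem poinc : StmPoinc := by
  intro V G _ hG h s x y hfin hxy
  obtain ⟨p, hp⟩ := hG.exists_walk_length_eq_dist x y
  have hpath : p.IsPath := p.isPath_of_length_eq_dist hp
  obtain ⟨m, hm⟩ : ∃ m, m = p.length := ⟨_, rfl⟩
  have hms : m ≤ s := by rw [hm, hp]; exact hxy
  obtain ⟨F, hF⟩ : ∃ F : V → ℝ, F = fun u => ∑ v ∈ G.neighborFinset u, (h u - h v) ^ 2 := ⟨_, rfl⟩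
  have hF0 : ∀ u, 0 ≤ F u := by
    intro u
    rw [hF]
    exact Finset.sum_nonneg fun v _ => sq_nonneg _
  -- the telescoping sum
  have h1 : h x - h y = ∑ i ∈ Finset.range m, (h (p.getVert i) - h (p.getVert (i + 1))) := by
    rw [Finset.sum_range_sub' (fun i => h (p.getVert i)) m, p.getVert_zero, hm, p.getVert_length]
  have h2 : (h x - h y) ^ 2 ≤ m * ∑ i ∈ Finset.range m,
      (h (p.getVert i) - h (p.getVert (i + 1))) ^ 2 := by
    rw [h1]
    have := sq_sum_le_card_mul_sum_sq (s := Finset.range m)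
      (f := fun i => h (p.getVert i) - h (p.getVert (i + 1)))
    rwa [Finset.card_range] at this
  have h3 : ∀ i ∈ Finset.range m, (h (p.getVert i) - h (p.getVert (i + 1))) ^ 2 ≤
      F (p.getVert i) := by
    intro i hi
    rw [Finset.mem_range, hm] at hi
    have hadj := p.adj_getVert_succ hi
    rw [hF]
    exact Finset.single_le_sum (f := fun v => (h (p.getVert i) - h v) ^ 2)
      (fun v _ => sq_nonneg _) ((G.mem_neighborFinset _ _).2 hadj)
  have hinj : Set.InjOn p.getVert (Finset.range m : Set ℕ) := by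
    intro i hi j hj hij
    have hi' : i < m := by simpa using hi
    have hj' : j < m := by simpa using hj
    exact hpath.getVert_injOn (by simp only [Set.mem_setOf_eq]; omega)
      (by simp only [Set.mem_setOf_eq]; omega) hij
  have h4 : ∑ i ∈ Finset.range m, F (p.getVert i) ≤ bs G x s F := by
    rw [← Finset.sum_image (f := F) hinj]
    unfold bs
    rw [finsum_mem_eq_finite_toFinset_sum F hfin]
    refine Finset.sum_le_sum_of_subset_of_nonneg ?_ fun u _ _ => hF0 u
    intro u hu
    rw [Finset.mem_image] at hu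
    obtain ⟨i, hi, rfl⟩ := hu
    rw [Finset.mem_range] at hi
    rw [Set.Finite.mem_toFinset]
    show G.dist x (p.getVert i) ≤ s
    refine (SimpleGraph.dist_le (p.take i)).trans ?_
    rw [p.take_length]
    omega
  have h5 : (h x - h y) ^ 2 ≤ s * bs G x s F := by
    refine h2.trans ?_
    have h6 := (Finset.sum_le_sum h3).trans h4
    have h7 : (0 : ℝ) ≤ bs G x s F := by
      refine le_trans (Finset.sum_nonneg fun i _ => hF0 (p.getVert i)) h4
    have h8 : (m : ℝ) ≤ s := by exact_mod_cast hms
    have h9 : (0 : ℝ) ≤ m := Nat.cast_nonneg m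
    calc (m : ℝ) * ∑ i ∈ Finset.range m, (h (p.getVert i) - h (p.getVert (i + 1))) ^ 2
        ≤ m * bs G x s F := mul_le_mul_of_nonneg_left h6 h9
      _ ≤ s * bs G x s F := mul_le_mul_of_nonneg_right h8 h7
  rw [← hF]
  nlinarith [sq_nonneg (h x - 2 * h y)]

end Pool.Agent.N276.SD
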