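import Pool.Agent.N276.SD.Stm

/-!
Project SD (helper276), part 14: basic facts on simple random walk. Author: helper717.
-/

set_option autoImplicit false

open Set Filter Topology
open scoped Classical

namespace Pool.Agent.N276.SD

namespace Prob

variable {V : Type} {G : SimpleGraph V} [G.LocallyFinite]

lemma nonneg (o : V) (t : ℕ) : ∀ x, 0 ≤ prob G o t x := by
  induction t with
  | zero =>
    intro x
    unfold prob
    split_ifs
    · exact zero_le_one
    · exact le_rfl
  | succ t ih =>
    intro x
    unfold prob
    exact Finset.sum_nonneg fun y _ => div_nonneg (ih y) (Nat.cast_nonneg _)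

lemma supp (hc : G.Connected) (o : V) (t : ℕ) : ∀ x, prob G o t x ≠ 0 → G.dist o x ≤ t := by
  induction t with
  | zero =>
    intro x hx
    unfold prob at hx
    split_ifs at hx with h
    · rw [h, SimpleGraph.dist_self]
    · exact absurd rfl hx
  | succ t ih =>
    intro x hx
    unfold prob at hx
    obtain ⟨y, hy, hne⟩ := Finset.exists_ne_zero_of_sum_ne_zero hx
    have h1 : prob G o t y ≠ 0 := by
      intro h
      rw [h, zero_div] at hne
      exact hne rfl
    rw [SimpleGraph.mem_neighborFinset] at hy
    have h2 := hc.dist_triangle (u := o) (v := y) (w := x)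
    have h3 : G.dist y x = 1 := SimpleGraph.dist_eq_one_iff_adj.2 hy.symm
    have := ih y h1
    omega

lemma ball_finite (hc : G.Connected) (v : V) (n : ℕ) : (ball G v n).Finite := by
  induction n with
  | zero =>
    refine (Set.finite_singleton v).subset fun u hu => ?_
    have h1 : G.dist v u = 0 := Nat.le_zero.1 hu
    rw [hc.dist_eq_zero_iff] at h1
    exact h1.symm
  | succ n ih =>
    refine (ih.union (ih.biUnion fun w _ => (G.neighborSet w).toFinite)).subset fun u hu => ?_
    by_cases h : G.dist v u ≤ n
    · exact Or.inl h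
    · right
      have hu' : G.dist v u = n + 1 := by
        have : G.dist v u ≤ n + 1 := hu
        omega
      obtain ⟨p, hp⟩ := hc.exists_walk_length_eq_dist u v
      rw [SimpleGraph.dist_comm, hu'] at hp
      cases p with
      | nil => simp at hp
      | @cons _ w _ hadj q =>
        rw [SimpleGraph.Walk.length_cons] at hp
        have h1 : G.dist w v ≤ q.length := SimpleGraph.dist_le q
        rw [Set.mem_iUnion₂]
        refine ⟨w, ?_, hadj.symm⟩
        change G.dist v w ≤ n
        rw [SimpleGraph.dist_comm]
        omega

lemma tmass (hc : G.Connected) (hd : ∀ x, 0 < G.degree x) (o : V) (t : ℕ) :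
    ∑' x, prob G o t x = 1 := by
  induction t with
  | zero =>
    unfold prob
    rw [tsum_eq_single o]
    · rw [if_pos rfl]
    · intro x hx
      rw [if_neg hx]
  | succ t ih =>
    set S := (ball_finite hc o t).toFinset with hS
    set S' := (ball_finite hc o (t + 1)).toFinset with hS'
    have hmS : ∀ x, x ∈ S ↔ G.dist o x ≤ t := fun x => by
      rw [hS, Set.Finite.mem_toFinset]
      rfl
    have hmS' : ∀ x, x ∈ S' ↔ G.dist o x ≤ t + 1 := fun x => by
      rw [hS', Set.Finite.mem_toFinset]
      rfl
    rw [tsum_eq_sum (s := S') (fun x hx => by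
      by_contra h
      exact hx ((hmS' x).2 (supp hc o (t + 1) x h)))]
    rw [tsum_eq_sum (s := S) (fun x hx => by
      by_contra h
      exact hx ((hmS x).2 (supp hc o t x h)))] at ih
    have h1 : ∀ x, prob G o (t + 1) x =
        ∑ y ∈ S, if G.Adj x y then prob G o t y / (G.degree y : ℝ) else 0 := by
      intro x
      rw [← Finset.sum_filter]
      change ∑ y ∈ G.neighborFinset x, prob G o t y / (G.degree y : ℝ) = _
      symm
      apply Finset.sum_subset_zero_on_sdiff
      · intro y hy
        rw [SimpleGraph.mem_neighborFinset]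
        exact (Finset.mem_filter.1 hy).2
      · intro y hy
        rw [Finset.mem_sdiff, SimpleGraph.mem_neighborFinset, Finset.mem_filter] at hy
        have h2 : y ∉ S := fun h => hy.2 ⟨h, hy.1⟩
        have h3 : prob G o t y = 0 := by
          by_contra h
          exact h2 ((hmS y).2 (supp hc o t y h))
        rw [h3, zero_div]
      · intro y _
        rfl
    rw [Finset.sum_congr rfl fun x _ => h1 x, Finset.sum_comm, ← ih]
    refine Finset.sum_congr rfl fun y hy => ?_
    rw [← Finset.sum_filter, Finset.sum_const]
    have h2 : (S'.filter fun x => G.Adj x y) = G.neighborFinset y := by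
      ext x
      rw [Finset.mem_filter, SimpleGraph.mem_neighborFinset]
      constructor
      · rintro ⟨-, h⟩
        exact h.symm
      · intro h
        refine ⟨?_, h.symm⟩
        rw [hmS']
        have h3 := hc.dist_triangle (u := o) (v := y) (w := x)
        have h4 : G.dist y x = 1 := SimpleGraph.dist_eq_one_iff_adj.2 h
        have h5 := (hmS y).1 hy
        omega
    rw [h2, SimpleGraph.card_neighborFinset_eq_degree, nsmul_eq_mul]
    have h3 : (G.degree y : ℝ) ≠ 0 := by
      have := hd y
      positivity
    field_simp

lemma mass (hc : G.Connected) (hd : ∀ x, 0 < G.degree x) (o : V) (t : ℕ) (S : Finset V)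
    (hS : ∀ x, prob G o t x ≠ 0 → x ∈ S) : ∑ x ∈ S, prob G o t x = 1 := by
  rw [← tmass hc hd o t]
  exact (tsum_eq_sum fun x hx => by
    by_contra h
    exact hx (hS x h)).symm

lemma le_one (hc : G.Connected) (hd : ∀ x, 0 < G.degree x) (o : V) (t : ℕ) (x : V) :
    prob G o t x ≤ 1 := by
  set S := insert x (ball_finite hc o t).toFinset with hS
  have h1 := mass hc hd o t S (fun y hy => by
    rw [hS, Finset.mem_insert, Set.Finite.mem_toFinset]
    exact Or.inr (supp hc o t y hy))
  rw [← h1]
  exact Finset.single_le_sum (f := fun x => prob G o t x) (fun y _ => nonneg o t y)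
    (Finset.mem_insert_self _ _)

lemma div_le (hd : ∀ x, 0 < G.degree x) (o : V) (t : ℕ) (x : V) :
    prob G o t x / (G.degree x : ℝ) ≤ prob G o t x := by
  apply div_le_self (nonneg o t x)
  exact_mod_cast hd x

end Prob

open Prob in
theorem probs : StmProb := by
  intro V G _ hc hd o t
  have hgr : ∀ x, gr G o t x ≠ 0 → G.dist o x + 1 ≤ t := by
    intro x hx
    unfold gr at hx
    obtain ⟨i, hi, hne⟩ := Finset.exists_ne_zero_of_sum_ne_zero hx
    have h1 : prob G o i x ≠ 0 := by
      intro h
      rw [h, zero_div] at hne
      exact hne rfl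
    have h2 := supp hc o i x h1
    rw [Finset.mem_range] at hi
    omega
  refine ⟨nonneg o t, supp hc o t, ball_finite hc, tmass hc hd o t, ?_, hgr, ?_, ?_⟩
  · intro x
    unfold gr
    exact Finset.sum_nonneg fun i _ => div_nonneg (nonneg o i x) (Nat.cast_nonneg _)
  · intro x
    unfold gr
    calc ∑ i ∈ Finset.range t, prob G o i x / (G.degree x : ℝ)
        ≤ ∑ _i ∈ Finset.range t, (1 : ℝ) :=
          Finset.sum_le_sum fun i _ => (div_le hd o i x).trans (le_one hc hd o i x)
      _ = t := by simp
  · set S := (ball_finite hc o t).toFinset with hS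
    have hmS : ∀ x, x ∈ S ↔ G.dist o x ≤ t := fun x => by
      rw [hS, Set.Finite.mem_toFinset]
      rfl
    rw [tsum_eq_sum (s := S) (fun x hx => by
      by_contra h
      have := hgr x h
      exact hx ((hmS x).2 (by omega)))]
    unfold gr
    rw [Finset.sum_comm]
    calc ∑ i ∈ Finset.range t, ∑ x ∈ S, prob G o i x / (G.degree x : ℝ)
        ≤ ∑ i ∈ Finset.range t, ∑ x ∈ S, prob G o i x :=
          Finset.sum_le_sum fun i _ => Finset.sum_le_sum fun x _ => div_le hd o i x
      _ = ∑ _i ∈ Finset.range t, (1 : ℝ) := by
          refine Finset.sum_congr rfl fun i hi => mass hc hd o i S fun x hx => ?_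
          rw [hmS]
          have := supp hc o i x hx
          rw [Finset.mem_range] at hi
          omega
      _ = t := by simp

end Pool.Agent.N276.SD
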