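import Pool.Agent.N276.SD.Stm

/-!
# Menger's theorem for the cells of a map
-/

set_option autoImplicit false

open Set Filter Topology
open scoped Classical

namespace Pool.Agent.N276.SD

namespace Quot

variable {V : Type}

/-- the centres -/
abbrev Ce (G : SimpleGraph V) (κ : V → V) (v : V) (D : ℕ) : Type :=
  {z : V // (∃ x, κ x = z) ∧ G.dist v z ≤ D}

/-- the graph of the centres -/
def Gr (G : SimpleGraph V) (κ : V → V) (v : V) (D : ℕ) : SimpleGraph (Ce G κ v D) where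
  Adj z z' := z ≠ z' ∧ ∃ x y, G.Adj x y ∧ κ x = z.1 ∧ κ y = z'.1
  symm := by
    constructor
    rintro z z' ⟨h1, x, y, h2, h3, h4⟩
    exact ⟨h1.symm, y, x, h2.symm, h4, h3⟩
  loopless := ⟨fun z h => h.1 rfl⟩

/-- the walk of the centres -/
theorem walkH {G : SimpleGraph V} (hG : G.Connected) {κ : V → V} {ρ : ℕ}
    (hκ : ∀ x, G.dist x (κ x) ≤ ρ) {v : V} {R : ℕ} : ∀ {x y : V} (p : G.Walk x y),
    G.dist v x ≤ R → R < G.dist v y → ∀ a : Ce G κ v (R + 1 + ρ), a.1 = κ x →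
      ∃ (b : Ce G κ v (R + 1 + ρ)) (u : V), b.1 = κ u ∧ R < G.dist v u ∧
        ∃ q : (Gr G κ v (R + 1 + ρ)).Walk a b, ∀ z ∈ q.support, ∃ w ∈ p.support, κ w = z.1 := by
  intro x y p
  induction p with
  | nil => intro h1 h2; omega
  | @cons x x' y h p ih =>
    intro h1 h2 a ha
    have h3 : G.dist v x' ≤ R + 1 := by
      have h4 := hG.dist_triangle (u := v) (v := x) (w := x')
      have h5 : G.dist x x' = 1 := SimpleGraph.dist_eq_one_iff_adj.mpr h
      omega
    have h6 : G.dist v (κ x') ≤ R + 1 + ρ := by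
      have h4 := hG.dist_triangle (u := v) (v := x') (w := κ x')
      have h5 := hκ x'
      omega
    -- the next centre
    by_cases hs : κ x = κ x'
    · by_cases hR : R < G.dist v x'
      · refine ⟨a, x', by rw [ha, hs], hR, SimpleGraph.Walk.nil, ?_⟩
        intro z hz
        rw [SimpleGraph.Walk.support_nil, List.mem_singleton] at hz
        exact ⟨x, by simp, by rw [hz, ha]⟩
      · obtain ⟨b, u, hb, hu, q, hq⟩ := ih (not_lt.mp hR) h2 a (by rw [ha, hs])
        refine ⟨b, u, hb, hu, q, fun z hz => ?_⟩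
        obtain ⟨w, hw, hw'⟩ := hq z hz
        exact ⟨w, by rw [SimpleGraph.Walk.support_cons]; exact List.mem_cons_of_mem _ hw, hw'⟩
    · have hadj : (Gr G κ v (R + 1 + ρ)).Adj a ⟨κ x', ⟨x', rfl⟩, h6⟩ := by
        refine ⟨fun h => hs ?_, x, x', h, ha.symm, rfl⟩
        have := congrArg Subtype.val h
        rw [← ha, this]
      by_cases hR : R < G.dist v x'
      · refine ⟨⟨κ x', ⟨x', rfl⟩, h6⟩, x', rfl, hR, SimpleGraph.Walk.cons hadj .nil, ?_⟩
        intro z hz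
        rw [SimpleGraph.Walk.support_cons, SimpleGraph.Walk.support_nil, List.mem_cons,
          List.mem_singleton] at hz
        rcases hz with rfl | rfl
        · exact ⟨x, by simp, ha.symm⟩
        · refine ⟨x', ?_, rfl⟩
          rw [SimpleGraph.Walk.support_cons]
          exact List.mem_cons_of_mem _ (SimpleGraph.Walk.start_mem_support _)
      · obtain ⟨b, u, hb, hu, q, hq⟩ := ih (not_lt.mp hR) h2 ⟨κ x', ⟨x', rfl⟩, h6⟩ rfl
        refine ⟨b, u, hb, hu, SimpleGraph.Walk.cons hadj q, fun z hz => ?_⟩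
        rw [SimpleGraph.Walk.support_cons, List.mem_cons] at hz
        rcases hz with rfl | hz
        · exact ⟨x, by simp, ha.symm⟩
        · obtain ⟨w, hw, hw'⟩ := hq z hz
          exact ⟨w, by rw [SimpleGraph.Walk.support_cons]; exact List.mem_cons_of_mem _ hw, hw'⟩

/-- the union of the cells of a connected set of centres is connected -/
theorem conn {G : SimpleGraph V} {κ : V → V}
    (hc : ∀ x, (G.induce {y | κ y = κ x}).Connected) {v : V} {D : ℕ} (T : Set (Ce G κ v D))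
    (hT : ((Gr G κ v D).induce T).Connected) :
    (G.induce {x | κ x ∈ Subtype.val '' T}).Connected := by
  -- points of the same cell
  have cell : ∀ x y : {x | κ x ∈ Subtype.val '' T}, κ x.1 = κ y.1 →
      (G.induce {x | κ x ∈ Subtype.val '' T}).Reachable x y := by
    rintro ⟨x, hx⟩ ⟨y, hy⟩ hxy
    have hsub : {z | κ z = κ x} ⊆ {x | κ x ∈ Subtype.val '' T} := by
      intro z hz
      have hz' : κ z = κ x := hz
      show κ z ∈ Subtype.val '' T
      rw [hz']
      exact hx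
    have h1 := (hc x).preconnected ⟨x, rfl⟩ ⟨y, hxy.symm⟩
    exact h1.map (SimpleGraph.induceHomOfLE G hsub).toHom
  have main : ∀ (a b : T) (p : ((Gr G κ v D).induce T).Walk a b),
      ∀ x y : {x | κ x ∈ Subtype.val '' T}, κ x.1 = a.1.1 → κ y.1 = b.1.1 →
        (G.induce {x | κ x ∈ Subtype.val '' T}).Reachable x y := by
    intro a b p
    induction p with
    | nil =>
      intro x y hx hy
      exact cell x y (hx.trans hy.symm)
    | @cons a a' b h p ih =>
      intro x y hx hy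
      obtain ⟨-, u, w, huw, hu, hw⟩ := h
      have hu' : κ u ∈ Subtype.val '' T := ⟨a.1, a.2, hu.symm⟩
      have hw' : κ w ∈ Subtype.val '' T := ⟨a'.1, a'.2, hw.symm⟩
      have h1 := cell x ⟨u, hu'⟩ (hx.trans hu.symm)
      have h2 : (G.induce {x | κ x ∈ Subtype.val '' T}).Adj ⟨u, hu'⟩ ⟨w, hw'⟩ := huw
      exact (h1.trans h2.reachable).trans (ih ⟨w, hw'⟩ y hw hy)
  obtain ⟨z⟩ := hT.nonempty
  obtain ⟨x₀, hx₀⟩ := z.1.2.1
  have : Nonempty {x | κ x ∈ Subtype.val '' T} := ⟨⟨x₀, z.1, z.2, hx₀.symm⟩⟩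
  refine SimpleGraph.Connected.mk ?_
  rintro ⟨x, hx⟩ ⟨y, hy⟩
  obtain ⟨a, haT, ha⟩ := hx
  obtain ⟨b, hbT, hb⟩ := hy
  obtain ⟨p⟩ := hT.preconnected ⟨a, haT⟩ ⟨b, hbT⟩
  exact main _ _ p _ _ ha.symm hb.symm

end Quot

open Pool.Agent.N276.SD.Quot in
theorem quot : StmMenger → StmQuot := by
  intro hM V G hG hfin κ ρ hκ hc v s R m hsR
  have hF : Finite (Ce G κ v (R + 1 + ρ)) := by
    have h1 : {z : V | (∃ x, κ x = z) ∧ G.dist v z ≤ R + 1 + ρ}.Finite :=
      (hfin v (R + 1 + ρ)).subset fun z hz => hz.2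
    exact h1.to_subtype
  rcases hM (Ce G κ v (R + 1 + ρ)) (Gr G κ v (R + 1 + ρ)) {z | ∃ x, κ x = z.1 ∧ G.dist v x ≤ s}
    {z | ∃ x, κ x = z.1 ∧ R < G.dist v x} m with ⟨F, hFm, hF'⟩ | ⟨S, hS1, hS2⟩
  · refine Or.inl ⟨F.image Subtype.val, Finset.card_image_le.trans hFm, ?_, ?_⟩
    · intro z hz
      obtain ⟨a, _, rfl⟩ := Finset.mem_image.mp hz
      exact a.2.2
    · intro x y p hx hy
      have hxd : G.dist v (κ x) ≤ R + 1 + ρ := by
        have h4 := hG.dist_triangle (u := v) (v := x) (w := κ x)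
        have h5 := hκ x
        omega
      obtain ⟨b, u, hb, hu, q, hq⟩ := walkH hG hκ p (hx.trans hsR) hy ⟨κ x, ⟨x, rfl⟩, hxd⟩ rfl
      obtain ⟨z, hz, hzF⟩ := hF' _ ⟨x, rfl, hx⟩ b ⟨u, hb.symm, hu⟩ q
      obtain ⟨w, hw, hw'⟩ := hq z hz
      exact ⟨w, hw, Finset.mem_image.mpr ⟨z, hzF, hw'.symm⟩⟩
  · refine Or.inr ⟨fun i => Subtype.val '' S i, fun i j hij => ?_, fun i => ⟨?_, ?_, ?_⟩⟩
    · exact (Set.disjoint_image_iff Subtype.val_injective).mpr (hS1 i j hij)
    · exact conn hc (S i) (hS2 i).1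
    · obtain ⟨z, hz, x, hx, hxs⟩ := (hS2 i).2.1
      exact ⟨x, ⟨z, hz, hx.symm⟩, hxs⟩
    · obtain ⟨z, hz, x, hx, hxs⟩ := (hS2 i).2.2
      exact ⟨x, ⟨z, hz, hx.symm⟩, hxs⟩

end Pool.Agent.N276.SD
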