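import Pool.Agent.N276.SD.Stm

/-!
# The minor `K_{h,h}` from `h` connected sets and `h` spiders (helper383)
-/

set_option autoImplicit false

open Set Filter Topology
open scoped Classical

namespace Pool.Agent.N276.SD.Rays

variable {V : Type}

theorem singleton_conn (G : SimpleGraph V) (u : V) : (G.induce ({u} : Set V)).Connected := by
  have : Subsingleton ({u} : Set V) := ⟨fun a b => Subtype.ext (a.2.trans b.2.symm)⟩
  have hn : Nonempty ({u} : Set V) := ⟨⟨u, rfl⟩⟩
  exact ⟨fun a b => by rw [Subsingleton.elim a b]⟩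

/-- the initial part of a walk, before it hits `P` -/
theorem init {G : SimpleGraph V} {P : Set V} : ∀ {y x : V} (R : G.Walk y x), x ∈ P → y ∉ P →
    ∃ Q : Set V, y ∈ Q ∧ (∀ z ∈ Q, z ∈ R.support) ∧ (∀ z ∈ Q, z ∉ P) ∧
      (G.induce Q).Connected ∧ ∃ q ∈ Q, ∃ p ∈ P, G.Adj q p := by
  intro y x R
  induction R with
  | nil => intro h1 h2; exact absurd h1 h2
  | @cons u v w hadj R ih =>
    intro hw hu
    by_cases hv : v ∈ P
    · refine ⟨{u}, rfl, ?_, ?_, singleton_conn G u, u, rfl, v, hv, hadj⟩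
      · rintro z rfl
        exact SimpleGraph.Walk.start_mem_support _
      · rintro z rfl
        exact hu
    · obtain ⟨Q, h1, h2, h3, h4, q, hq, p, hp, hqp⟩ := ih hw hv
      refine ⟨{u, v} ∪ Q, Or.inl (Or.inl rfl), ?_, ?_, ?_, q, Or.inr hq, p, hp, hqp⟩
      · rintro z ((rfl | rfl) | hz)
        · exact SimpleGraph.Walk.start_mem_support _
        · rw [SimpleGraph.Walk.support_cons]
          exact List.mem_cons_of_mem _ (SimpleGraph.Walk.start_mem_support _)
        · rw [SimpleGraph.Walk.support_cons]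
          exact List.mem_cons_of_mem _ (h2 z hz)
      · rintro z ((rfl | rfl) | hz)
        · exact hu
        · exact hv
        · exact h3 z hz
      · exact SimpleGraph.induce_union_connected
          (SimpleGraph.induce_pair_connected_of_adj hadj).preconnected h4.preconnected
          ⟨v, Or.inr rfl, h1⟩

end Pool.Agent.N276.SD.Rays

namespace Pool.Agent.N276.SD

open Pool.Agent.N276.SD.Rays

theorem rays : StmRays := by
  intro V G h P y x R hh hP hPc hx hR1 hR2
  have hy : ∀ i l, y l ∉ P i := by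
    intro i l
    obtain ⟨j, hj⟩ : ∃ j : Fin h, j ≠ i := by
      have : Nontrivial (Fin h) := Fin.nontrivial_iff_two_le.2 hh
      exact exists_ne i
    exact hR1 j i l hj _ (SimpleGraph.Walk.start_mem_support _)
  choose Q hQ1 hQ2 hQ3 hQ4 hQ5 using fun i l => init (R i l) (hx i l) (hy i l)
  have hpos : 0 < h := by omega
  let B : Fin h ⊕ Fin h → Set V := Sum.elim P fun l => ⋃₀ (Set.range fun i => Q i l)
  have hBl : ∀ i, B (Sum.inl i) = P i := fun _ => rfl
  have hBr : ∀ l z, z ∈ B (Sum.inr l) ↔ ∃ i, z ∈ Q i l := by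
    intro l z
    show z ∈ ⋃₀ (Set.range fun i => Q i l) ↔ _
    simp
  have hPQ : ∀ i l, Disjoint (B (Sum.inl i)) (B (Sum.inr l)) := by
    intro i l
    rw [Set.disjoint_left]
    intro z hz hz'
    obtain ⟨j, hj⟩ := (hBr l z).1 hz'
    by_cases hij : j = i
    · subst hij
      exact hQ3 j l z hj hz
    · exact hR1 j i l hij z (hQ2 j l z hj) hz
  have hadj : ∀ i l, ∃ a ∈ B (Sum.inl i), ∃ b ∈ B (Sum.inr l), G.Adj a b := by
    intro i l
    obtain ⟨q, hq, p, hp, hqp⟩ := hQ5 i l
    exact ⟨p, hp, q, (hBr l q).2 ⟨i, hq⟩, hqp.symm⟩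
  refine ⟨B, ?_, ?_, ?_⟩
  · rintro (i | l)
    · exact hPc i
    · refine SimpleGraph.induce_sUnion_connected_of_pairwise_not_disjoint
        (S := Set.range fun i => Q i l) ⟨Q ⟨0, hpos⟩ l, ⟨⟨0, hpos⟩, rfl⟩⟩ ?_ ?_
      · rintro _ _ ⟨i, rfl⟩ ⟨j, rfl⟩
        exact ⟨y l, hQ1 i l, hQ1 j l⟩
      · rintro _ ⟨i, rfl⟩
        exact hQ4 i l
  · rintro (i | l) (j | m) hne
    · exact hP i j fun h => hne (by rw [h])
    · exact hPQ i m
    · exact (hPQ j l).symm
    · rw [Set.disjoint_left]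
      intro z hz hz'
      obtain ⟨i, hi⟩ := (hBr l z).1 hz
      obtain ⟨j, hj⟩ := (hBr m z).1 hz'
      exact hR2 i j l m (fun h => hne (by rw [h])) z (hQ2 i l z hi) (hQ2 j m z hj)
  · rintro (i | l) (j | m) hw
    · simp [completeBipartiteGraph] at hw
    · exact hadj i m
    · obtain ⟨a, ha, b, hb, hab⟩ := hadj j l
      exact ⟨b, hb, a, ha, hab.symm⟩
    · simp [completeBipartiteGraph] at hw

end Pool.Agent.N276.SD

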