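import Pool.Agent.N276.SD.Stm

/-!
# The length of walks at one scale
-/

set_option autoImplicit false

open Set Filter Topology
open scoped Classical

namespace Pool.Agent.N276.SD

namespace Step

variable {V : Type} {G : SimpleGraph V}

theorem wlen_append (w : V → ℝ) {x y z : V} (p : G.Walk x y) (q : G.Walk y z) :
    wlen G w (p.append q) = wlen G w p + wlen G w q := by
  induction p with
  | nil => simp [wlen]
  | cons h p ih =>
    rw [SimpleGraph.Walk.cons_append]
    simp only [wlen]
    rw [ih]
    ring

theorem wlen_mono {w w' : V → ℝ} {x y : V} (p : G.Walk x y) (h : ∀ u ∈ p.support, w u ≤ w' u) :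
    wlen G w p ≤ wlen G w' p := by
  induction p with
  | nil => simp [wlen]
  | cons h' p ih =>
    simp only [wlen]
    refine add_le_add (h _ (by simp)) (ih fun u hu => h u ?_)
    rw [SimpleGraph.Walk.support_cons]
    exact List.mem_cons_of_mem _ hu

theorem wlen_const (c : ℝ) {x y : V} (p : G.Walk x y) : wlen G (fun _ => c) p = c * p.length := by
  induction p with
  | nil => simp [wlen]
  | cons h p ih =>
    simp only [wlen]
    rw [ih, SimpleGraph.Walk.length_cons]
    push_cast
    ring

theorem wlen_mul (c : ℝ) (w : V → ℝ) {x y : V} (p : G.Walk x y) :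
    wlen G (fun u => c * w u) p = c * wlen G w p := by
  induction p with
  | nil => simp [wlen]
  | cons h p ih =>
    simp only [wlen]
    rw [ih]
    ring

theorem wlen_add (w w' : V → ℝ) {x y : V} (p : G.Walk x y) :
    wlen G (fun u => w u + w' u) p = wlen G w p + wlen G w' p := by
  induction p with
  | nil => simp [wlen]
  | cons h p ih =>
    simp only [wlen]
    rw [ih]
    ring

theorem wlen_nonneg {w : V → ℝ} (hw : ∀ u, 0 ≤ w u) {x y : V} (p : G.Walk x y) :
    0 ≤ wlen G w p := by
  have := wlen_mono (w := fun _ => 0) (w' := w) p (fun u _ => hw u)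
  rwa [wlen_const, zero_mul] at this

theorem wd_le {w : V → ℝ} (hw : ∀ u, 0 ≤ w u) {x y : V} (p : G.Walk x y) :
    wd G w x y ≤ wlen G w p := by
  unfold wd
  refine csInf_le ⟨0, ?_⟩ ⟨p, rfl⟩
  rintro _ ⟨q, rfl⟩
  exact wlen_nonneg hw q

theorem wd_tri (hG : G.Connected) {w : V → ℝ} (hw : ∀ u, 0 ≤ w u) (x y z : V) :
    wd G w x y ≤ wd G w x z + wd G w z y := by
  have h1 : ∀ (p : G.Walk x z), wd G w x y - wlen G w p ≤ wd G w z y := by
    intro p
    obtain ⟨q0⟩ := hG.preconnected z y
    refine le_csInf ⟨_, q0, rfl⟩ ?_
    rintro _ ⟨q, rfl⟩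
    have := wd_le hw (p.append q)
    rw [wlen_append] at this
    simp only
    linarith
  obtain ⟨p0⟩ := hG.preconnected x z
  have h2 : wd G w x y - wd G w z y ≤ wd G w x z := by
    refine le_csInf ⟨_, p0, rfl⟩ ?_
    rintro _ ⟨p, rfl⟩
    have := h1 p
    simp only
    linarith
  linarith

/-- the first vertex at distance `R` -/
theorem split (hG : G.Connected) (a : V) (R : ℕ) {x y : V} (p : G.Walk x y)
    (hx : G.dist a x < R) (hy : R ≤ G.dist a y) :
    ∃ (z : V) (q : G.Walk x z) (r : G.Walk z y), p = q.append r ∧ G.dist a z = R ∧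
      (∀ u ∈ q.support, G.dist a u ≤ R) ∧ 1 ≤ q.length := by
  induction p with
  | nil => omega
  | @cons x x' y h p ih =>
    by_cases hx' : G.dist a x' < R
    · obtain ⟨z, q, r, h1, h2, h3, h4⟩ := ih hx' hy
      refine ⟨z, q.cons h, r, ?_, h2, ?_, ?_⟩
      · rw [SimpleGraph.Walk.cons_append, h1]
      · intro u hu
        rw [SimpleGraph.Walk.support_cons, List.mem_cons] at hu
        rcases hu with rfl | hu
        · exact hx.le
        · exact h3 u hu
      · rw [SimpleGraph.Walk.length_cons]
        omega
    · have h1 : G.dist a x' ≤ G.dist a x + G.dist x x' := hG.dist_triangle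
      have h2 : G.dist x x' = 1 := SimpleGraph.dist_eq_one_iff_adj.2 h
      have h3 : G.dist a x' = R := by omega
      refine ⟨x', SimpleGraph.Walk.cons h SimpleGraph.Walk.nil, p, ?_, h3, ?_, ?_⟩
      · rw [SimpleGraph.Walk.cons_append, SimpleGraph.Walk.nil_append]
      · intro u hu
        simp only [SimpleGraph.Walk.support_cons, SimpleGraph.Walk.support_nil, List.mem_cons,
          List.not_mem_nil, or_false] at hu
        rcases hu with rfl | rfl
        · exact hx.le
        · exact h3.le
      · simp

/-- the vertices of a walk are close to its start -/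
theorem dist_support {x y : V} (p : G.Walk x y) {u : V} (hu : u ∈ p.support) :
    G.dist x u ≤ p.length :=
  (SimpleGraph.dist_le (p.takeUntil u hu)).trans (p.length_takeUntil_le hu)

end Step

open Step in
theorem step : StmStep := by
  intro V G hG K ρ hK hρ w ψ M hw hwc hψ hcr
  obtain ⟨R, hR⟩ : ∃ R, R = K * ρ := ⟨_, rfl⟩
  have hR1 : 1 ≤ R := by rw [hR]; exact Nat.mul_pos hK hρ
  have hRr : (R : ℝ) = K * ρ := by rw [hR]; push_cast; ring
  have hKr : (1 : ℝ) ≤ K := by exact_mod_cast hK
  have hρr : (1 : ℝ) ≤ ρ := by exact_mod_cast hρ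
  have hw0 : ∀ x, 0 ≤ w x := fun x => (hw x).1.le
  have hwψ0 : ∀ x, 0 ≤ w x * ψ x := fun x => mul_nonneg (hw0 x) (by linarith [hψ x])
  have hk1 : (0 : ℝ) < 1 + 1 / (2 * (K : ℝ)) := by positivity
  have main : ∀ (n : ℕ) (x y : V) (p : G.Walk x y), p.length = n →
      (1 + 1 / (2 * (K : ℝ))) * (wd G w x y - M * (K * ρ)) ≤ wlen G (fun u => w u * ψ u) p := by
    intro n
    induction n using Nat.strong_induction_on with
    | _ n ih =>
      intro x y p hpn
      rcases Nat.lt_or_ge (G.dist x y) R with hxy | hxy
      · -- short distance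
        obtain ⟨g, hg⟩ := hG.exists_walk_length_eq_dist x y
        have h1 := wd_le hw0 g
        have h2 : wlen G w g ≤ M * g.length := by
          rw [← wlen_const M g]
          exact wlen_mono g fun u _ => (hw u).2
        have hM : 0 < M := (hw x).1.trans_le (hw x).2
        have h3 : (g.length : ℝ) ≤ K * ρ := by
          rw [← hRr, hg]
          exact_mod_cast hxy.le
        have h4 : wd G w x y - M * (K * ρ) ≤ 0 := by nlinarith
        exact (mul_nonpos_of_nonneg_of_nonpos hk1.le h4).trans (wlen_nonneg hwψ0 p)
      · obtain ⟨z, q, r, h1, h2, h3, h4⟩ := split hG x R p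
          (by rw [SimpleGraph.dist_self]; omega) hxy
        have hrl : r.length < n := by
          rw [← hpn, h1, SimpleGraph.Walk.length_append]
          omega
        have hr := ih r.length hrl z y r rfl
        -- the minimal vertex
        obtain ⟨u0, hu0, hmin⟩ := Finset.exists_min_image q.support.toFinset w
          ⟨x, by rw [List.mem_toFinset]; exact q.start_mem_support⟩
        rw [List.mem_toFinset] at hu0
        have hmin' : ∀ u ∈ q.support, w u0 ≤ w u := fun u hu =>
          hmin u (by rw [List.mem_toFinset]; exact hu)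
        have k1 : w u0 * (R + ρ) ≤ wlen G (fun u => w u * ψ u) q := by
          have e1 : w u0 * wlen G ψ q ≤ wlen G (fun u => w u * ψ u) q := by
            rw [← wlen_mul]
            refine wlen_mono q fun u hu => ?_
            exact mul_le_mul_of_nonneg_right (hmin' u hu) (by linarith [hψ u])
          have e2 : wlen G ψ q = q.length + wlen G (fun u => ψ u - 1) q := by
            have e3 := wlen_add (fun _ => (1 : ℝ)) (fun u => ψ u - 1) q
            rw [wlen_const, one_mul] at e3
            rw [← e3]
            congr 1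
            funext u
            ring
          have e4 := hcr x z q (by rw [h2, hR])
          have e5 : (R : ℝ) ≤ q.length := by
            have := SimpleGraph.dist_le q
            rw [h2] at this
            exact_mod_cast this
          have e6 : (R : ℝ) + ρ ≤ wlen G ψ q := by rw [e2]; linarith
          exact (mul_le_mul_of_nonneg_left e6 (hw0 u0)).trans e1
        -- the geodesic
        have k2 : wd G w x z ≤ (1 + 1 / (4 * (K : ℝ))) * w u0 * R := by
          obtain ⟨g, hg⟩ := hG.exists_walk_length_eq_dist x z
          refine (wd_le hw0 g).trans ?_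
          have e1 : (R : ℝ) = g.length := by rw [hg, h2]
          rw [e1, ← wlen_const]
          refine wlen_mono g fun u hu => ?_
          apply hwc
          have e2 := dist_support g hu
          have e3 := h3 u0 hu0
          have e4 : G.dist u u0 ≤ G.dist u x + G.dist x u0 := hG.dist_triangle
          rw [SimpleGraph.dist_comm (u := u) (v := x)] at e4
          rw [hg, h2] at e2
          omega
        have k3 : (1 + 1 / (2 * (K : ℝ))) * wd G w x z ≤ w u0 * (R + ρ) := by
          have hu0' := hw0 u0
          have e1 : (1 + 1 / (2 * (K : ℝ))) * (1 + 1 / (4 * (K : ℝ))) * R ≤ R + ρ := by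
            rw [hRr]
            have e2 : (1 + 1 / (2 * (K : ℝ))) * (1 + 1 / (4 * (K : ℝ))) * (K * ρ) =
                K * ρ + ρ * (3 / 4 + 1 / (8 * K)) := by
              field_simp
              ring
            rw [e2]
            have e3 : 1 / (8 * (K : ℝ)) ≤ 1 / 4 := by
              rw [div_le_div_iff₀ (by positivity) (by norm_num)]
              linarith
            nlinarith
          calc (1 + 1 / (2 * (K : ℝ))) * wd G w x z
              ≤ (1 + 1 / (2 * (K : ℝ))) * ((1 + 1 / (4 * (K : ℝ))) * w u0 * R) :=
                mul_le_mul_of_nonneg_left k2 hk1.le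
            _ = w u0 * ((1 + 1 / (2 * (K : ℝ))) * (1 + 1 / (4 * (K : ℝ))) * R) := by ring
            _ ≤ w u0 * (R + ρ) := mul_le_mul_of_nonneg_left e1 hu0'
        have k4 := wd_tri hG hw0 x y z
        have k5 := mul_le_mul_of_nonneg_left k4 hk1.le
        rw [h1, wlen_append]
        nlinarith
  intro x y p
  exact main p.length x y p rfl

end Pool.Agent.N276.SD
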