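import Pool.Agent.N276.SD.Def

/-!
# The statements of the parts of the proof
-/

set_option autoImplicit false

open Set Filter Topology
open scoped Classical

namespace Pool.Agent.N276.SD

variable {V : Type}

/-- `K_{h,h}` is a minor -/
def Bic (G : SimpleGraph V) (h : ℕ) : Prop :=
  HasMinor G (completeBipartiteGraph (Fin h) (Fin h))

/-- the sum of `f` over the ball -/
noncomputable def bs (G : SimpleGraph V) (v : V) (n : ℕ) (f : V → ℝ) : ℝ :=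
  ∑ᶠ u ∈ ball G v n, f u

/-- the `w`-length of a walk: the sum of `w` over all its vertices but the last one -/
def wlen (G : SimpleGraph V) (w : V → ℝ) : ∀ {x y : V}, G.Walk x y → ℝ
  | _, _, .nil => 0
  | x, _, .cons _ p => w x + wlen G w p

/-- the `w`-distance -/
noncomputable def wd (G : SimpleGraph V) (w : V → ℝ) (x y : V) : ℝ :=
  sInf (Set.range fun p : G.Walk x y => wlen G w p)

/-! ### graph theory -/

/-- maximal separated sets -/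
def StmNet : Prop := ∀ (V : Type) (G : SimpleGraph V) (r : ℕ), ∃ N : Set V,
  (∀ x ∈ N, ∀ y ∈ N, x ≠ y → r < G.dist x y) ∧ ∀ x, ∃ y ∈ N, G.dist x y ≤ r

/-- connected Voronoi cells -/
def StmCells : Prop := ∀ (V : Type) (G : SimpleGraph V), G.Connected → ∀ (r : ℕ) (Z : Set V),
  (∀ x, ∃ z ∈ Z, G.dist x z ≤ r) → ∃ κ : V → V,
    (∀ x, κ x ∈ Z ∧ G.dist x (κ x) ≤ r) ∧ (∀ z ∈ Z, κ z = z) ∧
    ∀ z ∈ Z, (G.induce {x | κ x = z}).Connected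

/-- Menger's theorem -/
def StmMenger : Prop := ∀ (U : Type) [Finite U] (H : SimpleGraph U) (A B : Set U) (m : ℕ),
  (∃ F : Finset U, F.card ≤ m ∧ ∀ a ∈ A, ∀ b ∈ B, ∀ p : H.Walk a b, ∃ x ∈ p.support, x ∈ F) ∨
    ∃ S : Fin (m + 1) → Set U, (∀ i j, i ≠ j → Disjoint (S i) (S j)) ∧
      ∀ i, (H.induce (S i)).Connected ∧ (S i ∩ A).Nonempty ∧ (S i ∩ B).Nonempty

/-- Menger's theorem for the cells of a map `κ` -/
def StmQuot : Prop := ∀ (V : Type) (G : SimpleGraph V), G.Connected →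
  (∀ v n, (ball G v n).Finite) → ∀ (κ : V → V) (ρ : ℕ), (∀ x, G.dist x (κ x) ≤ ρ) →
  (∀ x, (G.induce {y | κ y = κ x}).Connected) → ∀ (v : V) (s R m : ℕ),
  s ≤ R →
    (∃ F : Finset V, F.card ≤ m ∧ (∀ z ∈ F, G.dist v z ≤ R + 1 + ρ) ∧
      ∀ (x y : V) (p : G.Walk x y), G.dist v x ≤ s → R < G.dist v y →
        ∃ u ∈ p.support, κ u ∈ F) ∨
    ∃ S : Fin (m + 1) → Set V, (∀ i j, i ≠ j → Disjoint (S i) (S j)) ∧
      ∀ i, (G.induce {x | κ x ∈ S i}).Connected ∧ (∃ x, κ x ∈ S i ∧ G.dist v x ≤ s) ∧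
        ∃ x, κ x ∈ S i ∧ R < G.dist v x

/-- separated sets in balls have bounded size -/
def StmPack : Prop := ∀ c C d : ℝ, 0 < c → 0 < d → ∀ K : ℕ, ∃ N : ℕ, ∀ (V : Type)
  (G : SimpleGraph V), Growth G c C d → ∀ r : ℕ, 1 ≤ r → ∀ (v : V) (S : Finset V),
    (∀ x ∈ S, ∀ y ∈ S, x ≠ y → r < G.dist x y) → (∀ x ∈ S, G.dist v x ≤ K * r) → S.card ≤ N

/-- independent sets in directed graphs of small outdegree -/
def StmIndep : Prop := ∀ (ι : Type) [Finite ι] (R : ι → ι → Prop) (D h : ℕ),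
  (∀ i, {j | j ≠ i ∧ R i j}.ncard ≤ D) → (2 * D + 1) * h ≤ Nat.card ι →
    ∃ I : Finset ι, I.card = h ∧ ∀ i ∈ I, ∀ j ∈ I, i ≠ j → ¬ R i j

/-- the minor `K_{h,h}` from `h` connected sets and `h` spiders, one leg of each for each set -/
def StmRays : Prop := ∀ (V : Type) (G : SimpleGraph V) (h : ℕ) (P : Fin h → Set V) (y : Fin h → V)
  (x : Fin h → Fin h → V) (R : ∀ i l, G.Walk (y l) (x i l)), 2 ≤ h →
  (∀ i j, i ≠ j → Disjoint (P i) (P j)) → (∀ i, (G.induce (P i)).Connected) →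
  (∀ i l, x i l ∈ P i) → (∀ i j l, i ≠ j → ∀ z ∈ (R i l).support, z ∉ P j) →
  (∀ i i' l l', l ≠ l' → ∀ z ∈ (R i l).support, z ∉ (R i' l').support) → Bic G h

/-- many disjoint connected sets which cross a large annulus give the minor `K_{h,h}` -/
def StmCross : Prop := ∀ (V : Type) (G : SimpleGraph V) (h s D N₀ N : ℕ) (v : V)
  (P : Fin N → Set V), G.Connected → 2 ≤ h → 1 ≤ s → (∀ i j, i ≠ j → Disjoint (P i) (P j)) →
  (∀ i, (G.induce (P i)).Connected) → (∀ i, ∃ x ∈ P i, G.dist v x ≤ s) →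
  (∀ i, ∃ x ∈ P i, 5 * h * s < G.dist v x) →
  (∀ (x y : V) (p : G.Walk x y), p.length ≤ s → {i | ∃ z ∈ p.support, z ∈ P i}.ncard ≤ D) →
  (∃ Y : Finset V, Y.card ≤ N₀ ∧ ∀ x, G.dist v x ≤ 5 * h * s → ∃ y ∈ Y, G.dist y x ≤ s) →
  N₀ ^ h * ((2 * (h * D) + 1) * h) ≤ N → Bic G h

/-- annuli of width `k ρ` are cut by `O(k)` balls of radius `ρ` -/
def StmCut : Prop := ∀ (c C d : ℝ) (h : ℕ), 0 < c → 0 < d → 2 ≤ h → ∃ C₁ : ℕ, ∀ (V : Type)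
  (G : SimpleGraph V), Growth G c C d → ¬ Bic G h → ∀ ρ k : ℕ, 1 ≤ ρ → 1 ≤ k → ∀ v : V,
    ∃ F : Finset V, F.card ≤ C₁ * k ∧ (∀ z ∈ F, G.dist v z ≤ (5 * h + 2) * (k * ρ)) ∧
      ∀ (x y : V) (p : G.Walk x y), G.dist v x ≤ k * ρ → 5 * h * (k * ρ) < G.dist v y →
        ∃ u ∈ p.support, ∃ z ∈ F, G.dist z u ≤ ρ

/-- a smoothed indicator function -/
def StmBump : Prop := ∀ (V : Type) (G : SimpleGraph V), G.Connected → ∀ ρ : ℕ, 1 ≤ ρ →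
  ∀ F : Set V, ∃ ψ : V → ℝ, (∀ x, 1 ≤ ψ x ∧ ψ x ≤ 2) ∧
    (∀ x, (∃ z ∈ F, G.dist z x ≤ 2 * ρ) → ψ x = 2) ∧
    (∀ x, (∀ z ∈ F, 3 * ρ ≤ G.dist z x) → ψ x = 1) ∧
    ∀ x y, |ψ x - ψ y| ≤ (G.dist x y : ℝ) / ρ

/-- the length of crossings of cut annuli -/
def StmPass : Prop := ∀ (V : Type) (G : SimpleGraph V), G.Connected → ∀ (h ρ k : ℕ), 1 ≤ ρ →
  1 ≤ k → ∀ (a : V) (F : Set V) (ψ : V → ℝ), (∀ z ∈ F, G.dist a z ≤ (5 * h + 2) * (k * ρ)) →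
    (∀ (x y : V) (p : G.Walk x y), G.dist a x ≤ k * ρ → 5 * h * (k * ρ) < G.dist a y →
      ∃ u ∈ p.support, ∃ z ∈ F, G.dist z u ≤ ρ) →
    (∀ x, 1 ≤ ψ x) → (∀ x, (∃ z ∈ F, G.dist z x ≤ 2 * ρ) → ψ x = 2) →
    ∀ (x y : V) (p : G.Walk x y), G.dist a x ≤ k * ρ → (5 * h + 5) * (k * ρ) ≤ G.dist a y →
      (ρ : ℝ) ≤ wlen G (fun u => ψ u - 1) p

/-- the area of the balls of radius `3 ρ` around `m` points near each point of a `k ρ`-net -/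
def StmCost : Prop := ∀ (c C d : ℝ) (R m k : ℕ), 0 < c → 0 < d → 2 ≤ k → ∀ (V : Type)
  (G : SimpleGraph V), Growth G c C d → ∀ ρ : ℕ, 1 ≤ ρ → ∀ (N : Set V) (F : V → Finset V),
    (∀ x ∈ N, ∀ y ∈ N, x ≠ y → k * ρ < G.dist x y) →
    (∀ a ∈ N, (F a).card ≤ m ∧ ∀ z ∈ F a, G.dist a z ≤ R * (k * ρ)) →
    ∀ w : V → ℝ, (∀ x, 0 ≤ w x) →
      (∀ x y, G.dist x y ≤ (R + 4) * (k * ρ) → w x ≤ 2 * w y) → ∀ (v : V) (r : ℕ),
        bs G v r (fun x => if ∃ a ∈ N, ∃ z ∈ F a, G.dist z x < 3 * ρ then w x ^ 2 else 0) ≤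
          4 * m * C / c * (12 / (k : ℝ)) ^ d *
            bs G v (r + (R + 4) * (k * ρ)) fun x => w x ^ 2

/-- one scale: a weight which makes all paths longer by the factor `1 + 1 / K` but the area only by
the factor `1 + 1 / (2 K)` -/
def StmLevel : Prop := ∀ (c C d : ℝ) (h : ℕ), 0 < c → 2 < d → 2 ≤ h → ∃ K : ℕ, 1 ≤ K ∧
  ∀ (V : Type) (G : SimpleGraph V), Growth G c C d → ¬ Bic G h → ∀ ρ : ℕ, 1 ≤ ρ →
    ∃ ψ : V → ℝ, (∀ x, 1 ≤ ψ x ∧ ψ x ≤ 2) ∧ (∀ x y, |ψ x - ψ y| ≤ (G.dist x y : ℝ) / ρ) ∧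
      (∀ (x y : V) (p : G.Walk x y), K * ρ ≤ G.dist x y →
        (ρ : ℝ) ≤ wlen G (fun u => ψ u - 1) p) ∧
      ∀ w : V → ℝ, (∀ x, 0 ≤ w x) → (∀ x y, G.dist x y ≤ 2 * (K * ρ) → w x ≤ 2 * w y) →
        ∀ (v : V) (r : ℕ), bs G v r (fun x => (w x * ψ x) ^ 2) ≤
          (1 + 1 / (2 * (K : ℝ))) * bs G v (r + K * ρ) fun x => w x ^ 2

/-- the length of walks at one scale -/
def StmStep : Prop := ∀ (V : Type) (G : SimpleGraph V), G.Connected → ∀ K ρ : ℕ, 1 ≤ K → 1 ≤ ρ →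
  ∀ (w ψ : V → ℝ) (M : ℝ), (∀ x, 0 < w x ∧ w x ≤ M) →
    (∀ x y, G.dist x y ≤ 2 * (K * ρ) → w x ≤ (1 + 1 / (4 * (K : ℝ))) * w y) → (∀ x, 1 ≤ ψ x) →
    (∀ (x y : V) (p : G.Walk x y), K * ρ ≤ G.dist x y →
      (ρ : ℝ) ≤ wlen G (fun u => ψ u - 1) p) →
    ∀ (x y : V) (p : G.Walk x y),
      (1 + 1 / (2 * (K : ℝ))) * (wd G w x y - M * (K * ρ)) ≤ wlen G (fun u => w u * ψ u) p

/-- the metric for the scales `1, L, …, L ^ (n - 1)` -/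
def StmMetric : Prop := ∀ (c C d : ℝ) (h : ℕ), 0 < c → 2 < d → 2 ≤ h → ∃ (K L : ℕ) (A : ℝ),
  1 ≤ K ∧ 2 ≤ L ∧ 0 < A ∧ ∀ (V : Type) (G : SimpleGraph V), Growth G c C d → ¬ Bic G h →
    ∀ n : ℕ, ∃ w : V → ℝ, (∀ x, 1 ≤ w x) ∧ (∀ x y, G.Adj x y → w y ≤ 8 * w x) ∧
      (∀ (x y : V) (p : G.Walk x y),
        (1 + 1 / (2 * (K : ℝ))) ^ n * ((G.dist x y : ℝ) - A * (L : ℝ) ^ n) ≤ wlen G w p) ∧
      ∀ v, bs G v (L ^ n) (fun x => w x ^ 2) ≤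
        A * (1 + 1 / (2 * (K : ℝ))) ^ n * ((L : ℝ) ^ n) ^ d

/-! ### random walk -/

/-- the expected numbers of visits before time `t`, divided by the degrees -/
noncomputable def gr (G : SimpleGraph V) [G.LocallyFinite] (o : V) (t : ℕ) (x : V) : ℝ :=
  ∑ i ∈ Finset.range t, prob G o i x / (G.degree x : ℝ)

/-- the Dirichlet form, summed over all ordered pairs of neighbours -/
noncomputable def dir (G : SimpleGraph V) [G.LocallyFinite] (g f : V → ℝ) : ℝ :=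
  ∑' x : V, ∑ y ∈ G.neighborFinset x, (g x - g y) * (f x - f y)

def StmProb : Prop := ∀ (V : Type) (G : SimpleGraph V) [G.LocallyFinite], G.Connected →
  (∀ x, 0 < G.degree x) → ∀ (o : V) (t : ℕ), (∀ x, 0 ≤ prob G o t x) ∧
    (∀ x, prob G o t x ≠ 0 → G.dist o x ≤ t) ∧ (∀ v n, (ball G v n).Finite) ∧
    (∑' x, prob G o t x = 1) ∧ (∀ x, 0 ≤ gr G o t x) ∧
    (∀ x, gr G o t x ≠ 0 → G.dist o x + 1 ≤ t) ∧ (∀ x, gr G o t x ≤ t) ∧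
    ∑' x, gr G o t x ≤ t

def StmIdentity : Prop := ∀ (V : Type) (G : SimpleGraph V) [G.LocallyFinite], G.Connected →
  (∀ x, 0 < G.degree x) → ∀ (o : V) (t : ℕ) (f : V → ℝ),
    ∑' x, prob G o t x * f x = f o - dir G (gr G o t) f / 2

def StmEntropy : Prop := ∀ (V : Type) (G : SimpleGraph V) [G.LocallyFinite], G.Connected →
  (∀ x, 0 < G.degree x) → ∀ (o : V) (t : ℕ) (δ : ℝ), 0 < δ →
    dir G (gr G o t) (fun x => Real.log (gr G o t x + δ)) ≤ 2 * Real.log (1 + t / δ)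

def StmEnergy : Prop := ∀ (V : Type) (G : SimpleGraph V) [G.LocallyFinite], G.Connected →
  (∀ x, 0 < G.degree x) → ∀ (o : V) (t : ℕ) (δ : ℝ), 0 < δ →
    dir G (fun x => Real.sqrt (gr G o t x + δ)) (fun x => Real.sqrt (gr G o t x + δ)) ≤
      Real.log (1 + t / δ) / 2

def StmCS : Prop := ∀ (V : Type) (G : SimpleGraph V) [G.LocallyFinite], G.Connected →
  (∀ x, 0 < G.degree x) → ∀ Δ : ℕ, (∀ x, G.degree x ≤ Δ) → ∀ (o : V) (t : ℕ) (δ : ℝ), 0 < δ →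
    ∀ w f : V → ℝ, (∀ x, 0 ≤ w x) → (∀ x y, G.Adj x y → w y ≤ 8 * w x) →
      (∀ x y, G.Adj x y → |f x - f y| ≤ max (w x) (w y)) →
      dir G (gr G o t) f ^ 2 ≤ Real.log (1 + t / δ) *
        (128 * Δ * bs G o t fun x => w x ^ 2 * (gr G o t x + δ))

def StmPoinc : Prop := ∀ (V : Type) (G : SimpleGraph V) [G.LocallyFinite], G.Connected →
  ∀ (h : V → ℝ) (s : ℕ) (x y : V), (ball G x s).Finite → G.dist x y ≤ s →
    h x ^ 2 ≤ 2 * h y ^ 2 + 2 * s * bs G x s fun u => ∑ v ∈ G.neighborFinset u, (h u - h v) ^ 2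

def StmTrace : Prop := ∀ (V : Type) (G : SimpleGraph V) [G.LocallyFinite] (c C d : ℝ), 0 < c →
  Growth G c C d → ∀ s : ℕ, 1 ≤ s → ∀ (w : V → ℝ) (W : ℝ), (∀ v, bs G v s (fun x => w x ^ 2) ≤ W) →
    ∀ (h : V → ℝ) (h₀ : ℝ), {x | h x ≠ h₀}.Finite → ∀ (o : V) (T : ℕ),
      bs G o T (fun x => w x ^ 2 * h x ^ 2) ≤
        2 * W / (c * (s : ℝ) ^ d) * bs G o (T + s) (fun x => h x ^ 2) + 2 * s * W * dir G h h

/-! ### the end -/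

def StmAsym : Prop := ∀ (L : ℕ) (q d A : ℝ), 2 ≤ L → 0 < q → q < 1 → 1 < d → 0 ≤ A →
  ∃ α K : ℝ, α < 1 / 2 ∧ ∀ t : ℕ, 1 ≤ t → ∃ n : ℕ, ((L : ℝ) ^ n) ^ (d + 1) ≤ t ∧
    A * q ^ n * Real.sqrt t * (1 + Real.log (1 + (t : ℝ) ^ (d + 1))) + A * (L : ℝ) ^ n ≤
      K * (t : ℝ) ^ α

def StmBicMinor : Prop := ∀ (V W : Type) [Finite W] (G : SimpleGraph V) (H : SimpleGraph W)
  (h : ℕ), Nat.card W ≤ h → Bic G h → HasMinor G H

/-- the result -/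
def StmFinal : Prop := ∀ (c C d : ℝ) (W : Type) [Finite W] (H : SimpleGraph W), 0 < c → 2 < d →
  ∃ α K : ℝ, α < 1 / 2 ∧ ∀ (V : Type) (G : SimpleGraph V) [G.LocallyFinite], Growth G c C d →
    (Planar G ∨ ¬ HasMinor G H) → ∀ (o : V) (t : ℕ), 1 ≤ t → expDist G o t ≤ K * (t : ℝ) ^ α

end Pool.Agent.N276.SD
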