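import Pool.Agent.N276.SD.Stm

/-!
# The trace inequality
-/

set_option autoImplicit false

open Set Filter Topology
open scoped Classical

namespace Pool.Agent.N276.SD

variable {V : Type}

namespace Trace

theorem ball_finite {G : SimpleGraph V} {c C d : ℝ} (hc : 0 < c) (hG : Growth G c C d)
    (v : V) (n : ℕ) : (ball G v n).Finite := by
  have h1 : ∀ n : ℕ, 1 ≤ n → (ball G v n).Finite := by
    intro n hn
    apply Set.finite_of_ncard_ne_zero
    have h2 := hG.lower v n hn
    have h3 : (0 : ℝ) < c * (n : ℝ) ^ d := by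
      have : (0 : ℝ) < n := by exact_mod_cast hn
      positivity
    intro h
    rw [h] at h2
    simp only [Nat.cast_zero] at h2
    linarith
  refine (h1 (n + 1) (by omega)).subset ?_
  intro u hu
  unfold ball at hu ⊢
  simp only [Set.mem_setOf_eq] at hu ⊢
  omega

theorem bs_eq {G : SimpleGraph V} {v : V} {n : ℕ} (hf : (ball G v n).Finite) (f : V → ℝ) :
    bs G v n f = ∑ u ∈ hf.toFinset, f u := by
  unfold bs
  exact finsum_mem_eq_finite_toFinset_sum f hf

theorem mem_b {G : SimpleGraph V} {v : V} {n : ℕ} (hf : (ball G v n).Finite) (u : V) :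
    u ∈ hf.toFinset ↔ G.dist v u ≤ n := by
  rw [Set.Finite.mem_toFinset]
  rfl

/-- swapping the sums -/
theorem swap {G : SimpleGraph V} (hcon : G.Connected) (hf : ∀ v n, (ball G v n).Finite)
    (a b : V → ℝ) (ha : ∀ x, 0 ≤ a x) (hb : ∀ x, 0 ≤ b x) (o : V) (T s : ℕ) (W : ℝ)
    (hW : ∀ v, bs G v s a ≤ W) :
    ∑ x ∈ (hf o T).toFinset, a x * ∑ y ∈ (hf x s).toFinset, b y ≤
      W * ∑ y ∈ (hf o (T + s)).toFinset, b y := by
  have h1 : ∀ x ∈ (hf o T).toFinset, a x * ∑ y ∈ (hf x s).toFinset, b y =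
      ∑ y ∈ (hf o (T + s)).toFinset, if G.dist x y ≤ s then a x * b y else 0 := by
    intro x hx
    rw [← Finset.sum_filter, Finset.mul_sum]
    refine Finset.sum_congr ?_ fun _ _ => rfl
    ext y
    rw [Finset.mem_filter, mem_b, mem_b]
    constructor
    · intro h
      refine ⟨?_, h⟩
      have h2 := hcon.dist_triangle (u := o) (v := x) (w := y)
      have h3 := (mem_b (hf o T) x).1 hx
      omega
    · exact fun h => h.2
  rw [Finset.sum_congr rfl h1, Finset.sum_comm, Finset.mul_sum]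
  refine Finset.sum_le_sum fun y _ => ?_
  have h2 : ∑ x ∈ (hf o T).toFinset, (if G.dist x y ≤ s then a x * b y else 0) ≤
      ∑ x ∈ (hf y s).toFinset, a x * b y := by
    rw [← Finset.sum_filter]
    refine Finset.sum_le_sum_of_subset_of_nonneg ?_ fun x _ _ => mul_nonneg (ha x) (hb y)
    intro x hx
    rw [Finset.mem_filter] at hx
    rw [mem_b, G.dist_comm]
    exact hx.2
  refine h2.trans ?_
  rw [← Finset.sum_mul]
  refine mul_le_mul_of_nonneg_right ?_ (hb y)
  rw [← bs_eq (hf y s)]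
  exact hW y

end Trace

open Trace in
theorem trace : StmPoinc → StmTrace := by
  intro hP V G _ c C d hc hG s hs w W hW h h₀ hfin o T
  have hf : ∀ v n, (ball G v n).Finite := fun v n => ball_finite hc hG v n
  have hs0 : (0 : ℝ) < s := by exact_mod_cast hs
  have hcs : 0 < c * (s : ℝ) ^ d := by positivity
  obtain ⟨e, he⟩ : ∃ e : V → ℝ, e = fun u => ∑ v ∈ G.neighborFinset u, (h u - h v) ^ 2 := ⟨_, rfl⟩
  have he0 : ∀ u, 0 ≤ e u := by
    intro u
    rw [he]
    exact Finset.sum_nonneg fun v _ => sq_nonneg _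
  have hW0 : 0 ≤ W := by
    refine le_trans ?_ (hW o)
    rw [bs_eq (hf o s)]
    exact Finset.sum_nonneg fun v _ => sq_nonneg _
  -- pointwise
  have key : ∀ x, w x ^ 2 * h x ^ 2 ≤
      2 / (c * (s : ℝ) ^ d) * (w x ^ 2 * ∑ y ∈ (hf x s).toFinset, h y ^ 2) +
        2 * s * (w x ^ 2 * ∑ y ∈ (hf x s).toFinset, e y) := by
    intro x
    have h1 : ∀ y ∈ (hf x s).toFinset, h x ^ 2 ≤ 2 * h y ^ 2 + 2 * s *
        ∑ u ∈ (hf x s).toFinset, e u := by
      intro y hy
      have h2 := hP V G hG.conn h s x y (hf x s) ((mem_b _ _).1 hy)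
      rw [bs_eq (hf x s)] at h2
      rw [he]
      exact h2
    have h2 := Finset.sum_le_sum h1
    rw [Finset.sum_const, Finset.sum_add_distrib, Finset.sum_const, ← Finset.mul_sum,
      nsmul_eq_mul, nsmul_eq_mul] at h2
    have hcard : c * (s : ℝ) ^ d ≤ ((hf x s).toFinset.card : ℝ) := by
      have := (hG.lower x s hs).le
      rwa [Set.ncard_eq_toFinset_card _ (hf x s)] at this
    obtain ⟨n, hn⟩ : ∃ n : ℝ, n = ((hf x s).toFinset.card : ℝ) := ⟨_, rfl⟩
    obtain ⟨A, hA⟩ : ∃ A : ℝ, A = ∑ y ∈ (hf x s).toFinset, h y ^ 2 := ⟨_, rfl⟩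
    obtain ⟨E, hE⟩ : ∃ E : ℝ, E = ∑ y ∈ (hf x s).toFinset, e y := ⟨_, rfl⟩
    rw [← hn] at h2 hcard
    rw [← hA, ← hE] at h2 ⊢
    have hA0 : 0 ≤ A := by rw [hA]; exact Finset.sum_nonneg fun _ _ => sq_nonneg _
    have hn0 : 0 < n := lt_of_lt_of_le hcs hcard
    have h3 : h x ^ 2 ≤ 2 * A / n + 2 * s * E := by
      rw [← mul_le_mul_iff_right₀ hn0]
      have : n * (2 * A / n + 2 * s * E) = 2 * A + n * (2 * s * E) := by field_simp
      rw [this]
      exact h2
    have h4 : 2 * A / n ≤ 2 * A / (c * (s : ℝ) ^ d) :=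
      div_le_div_of_nonneg_left (by positivity) hcs hcard
    have h5 := mul_le_mul_of_nonneg_left (h3.trans (add_le_add h4 le_rfl)) (sq_nonneg (w x))
    refine h5.trans (le_of_eq ?_)
    ring
  rw [bs_eq (hf o T), bs_eq (hf o (T + s))]
  refine (Finset.sum_le_sum fun x _ => key x).trans ?_
  rw [Finset.sum_add_distrib, ← Finset.mul_sum, ← Finset.mul_sum]
  have s1 := swap hG.conn hf (fun x => w x ^ 2) (fun x => h x ^ 2) (fun _ => sq_nonneg _)
    (fun _ => sq_nonneg _) o T s W hW
  have s2 := swap hG.conn hf (fun x => w x ^ 2) e (fun _ => sq_nonneg _) he0 o T s W hW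
  have hdir : ∑ y ∈ (hf o (T + s)).toFinset, e y ≤ dir G h h := by
    have e1 : dir G h h = ∑' x, e x := by
      unfold dir
      rw [he]
      refine tsum_congr fun x => Finset.sum_congr rfl fun y _ => ?_
      ring
    rw [e1]
    have hsum : Summable e := by
      apply summable_of_finite_support
      refine (hfin.union (hfin.biUnion fun v _ => (G.neighborFinset v).finite_toSet)).subset ?_
      intro u hu
      by_contra hc'
      simp only [Set.mem_union, Set.mem_setOf_eq, not_or, not_not, Set.mem_iUnion,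
        Finset.mem_coe, not_exists] at hc'
      apply hu
      rw [he]
      refine Finset.sum_eq_zero fun v hv => ?_
      have h1 : h v = h₀ := by
        by_contra h2
        exact hc'.2 v h2 (by
          rw [SimpleGraph.mem_neighborFinset] at hv ⊢
          exact hv.symm)
      rw [hc'.1, h1, sub_self, zero_pow (by norm_num)]
    exact hsum.sum_le_tsum _ fun x _ => he0 x
  have s3 : W * ∑ y ∈ (hf o (T + s)).toFinset, e y ≤ W * dir G h h :=
    mul_le_mul_of_nonneg_left hdir hW0
  have s4 := mul_le_mul_of_nonneg_left s1 (show 0 ≤ 2 / (c * (s : ℝ) ^ d) by positivity)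
  have s5 := mul_le_mul_of_nonneg_left (s2.trans s3) (show (0 : ℝ) ≤ 2 * s by positivity)
  refine (add_le_add s4 s5).trans (le_of_eq ?_)
  ring

end Pool.Agent.N276.SD
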